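import Mathlib

/-!
# The numbers of the construction
-/

set_option autoImplicit false

namespace Pool.Agent.P0036f5k

/-- length of a slot -/
def ℓK (mx K : ℕ) : ℕ := (mx + 1) * (K * K)

/-- length of a block -/
def BK (mx K : ℕ) : ℕ := 2 ^ mx * ℓK mx K

/-- bound for the number of pieces -/
def LK (k mx K : ℕ) : ℕ := 3 + 2 * (k + 2) * (mx + ℓK mx K)

/-- number of coarse nodes -/
def VK (k mx K : ℕ) : ℕ := (LK k mx K + 1) * K

/-- cost of a coarse table entry -/
def cK (k mx K κ : ℕ) : ℕ := (2 * VK k mx K) ^ κ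

/-- cost of a matching test -/
def HK (k mx K κ : ℕ) : ℕ := 2 ^ K * (2 ^ K * (K * (K * cK k mx K κ)))

/-- number of codes of informations -/
def NK (k K : ℕ) : ℕ := (k + 1) * 2 ^ K

/-- number of codes of annotations -/
def EK (k mx K μ : ℕ) : ℕ := (2 * BK mx K * μ + 1) ^ k

/-- bound for the number of inner subtrees -/
def TK (k mx K κ μ : ℕ) : ℕ :=
  NK k K * (1 + EK k mx K μ * HK k mx K κ) + 2 * cK k mx K κ +
    NK k K * (1 + EK k mx K μ * (K * HK k mx K κ))

/-- bound for the size -/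
def szK (k mx K κ a μ : ℕ) : ℕ :=
  (2 * BK mx K * 4 + 2 * BK mx K * ((4 + 2 + 2 * BK mx K * TK k mx K κ μ) *
    (2 * BK mx K + 3)) + 1) * (5 * a * 4 + 5 * a + 17) + (a * 4 + 2 * a + 4)

end Pool.Agent.P0036f5k
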