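import Pool.Agent.Lib.P0036f5k.Defs
import Pool.Agent.Lib.P0036f5k.NDefs

/-!
# The decision trees of the construction: definitions

The deterministic machine works on a region that starts at the boundary `a` (a multiple of the block
length `B`) and has `h` visited cells; the cell with offset `o < h` is seen at distance `h - o`.
-/

set_option autoImplicit false

namespace Pool.Agent.P0036f5k

open Relation Pool.Agent.P0036f5v2 Pool.Agent.P0036f5w Pool.Agent.P0036f5g Classical

/-- what is seen in a visited cell: the letter, the frontier bit and the table bit -/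
abbrev Sy (A : Type) : Type := Option (A × (Bool × Bool))

/-- parameters: the local system, the number `k` of marks, the maximal level `mx`, the number `K` of
ports (pairs of a direction and a state) with an enumeration `ρ`, an enumeration of the informations
and of the annotations, the depth `κ` of the recursion, the number `μ` of marks -/
structure Par (A P M : Type) where
  S : LS A P M
  k : ℕ
  mx : ℕ
  K : ℕ
  ρ : ℕ → Bool × P
  π : Bool × P → ℕ
  info : ℕ → ℕ × Fr P
  dec : ℕ → ℕ → Option M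
  κ : ℕ
  μ : ℕ

variable {A P M : Type}

namespace Par

/-- length of a slot -/
abbrev sl (Z : Par A P M) : ℕ := ℓK Z.mx Z.K

/-- length of a block -/
abbrev bl (Z : Par A P M) : ℕ := BK Z.mx Z.K

/-- correct parameters -/
structure Ok (Z : Par A P M) : Prop where
  hK : 0 < Z.K
  hπ : ∀ x, Z.π x < Z.K
  hρ : ∀ x, Z.ρ (Z.π x) = x
  hπρ : ∀ i < Z.K, Z.π (Z.ρ i) = i
  hi : ∀ x, (Z.info x).1 ≤ Z.k
  hinfo : ∀ y : ℕ × Fr P, y.1 ≤ Z.k → ∃ x < NK Z.k Z.K, Z.info x = y
  hdec : ∀ α : ℕ → Option M, Supp α 0 (2 * Z.bl) → cnt α (2 * Z.bl) ≤ Z.k →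
    ∃ e < EK Z.k Z.mx Z.K Z.μ, Z.dec e = α
  hκ : VK Z.k Z.mx Z.K ≤ 2 ^ Z.κ
  hN : NK Z.k Z.K + 1 ≤ 2 ^ Z.mx

/-- the bits written in the cell with index `i` -/
noncomputable def note (Z : Par A P M) (w : List A) (i : ℕ) : Bool × Bool :=
  (decide (rbit Z.S Z.k w Z.sl Z.bl (NK Z.k Z.K) Z.info i), decide (tbit Z.S w Z.sl Z.K Z.ρ i))

/-- the view `v` shows the `h` cells after the boundary `a` -/
def Vw (Z : Par A P M) (w : List A) (a h : ℕ) (v : ℕ → Sy A) : Prop :=
  ∀ o < h, ∃ c, w[a + o]? = some c ∧ v (h - o) = some (c, Z.note w (a + o))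

/-- the table entry of a piece -/
noncomputable def pcT (Z : Par A P M) (α : ℕ → Option M) (j h : ℕ) (p : Pc) (x y : Bool × P) :
    DT (Sy A) :=
  match p with
  | .raw o => .ask (h - o) fun g => .ret (match g with
      | some (a, _) => decide (lc Z.S (j + cnt α o) (α o) a x.2 y.1 y.2)
      | none => false)
  | .blk s u => .ask (h - (u * Z.sl + (s * (Z.K * Z.K) + (Z.π x * Z.K + Z.π y)))) fun g =>
      .ret (match g with
      | some (_, b) => b.2
      | none => false)
  | .rnd => .ret (decide (Z.S.Lr x.2 y.1 y.2))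

/-- the piece that is entered at the coarse node `X` -/
def idx (X : Nd P) : ℕ := if X.2.1 = true then X.1 else X.1 - 1

/-- the edges of the coarse graph -/
noncomputable def edT (Z : Par A P M) (α : ℕ → Option M) (j h : ℕ) (l : List Pc) (X Y : Nd P) :
    DT (Sy A) :=
  match l[idx X]? with
  | some p => if X = ent (idx X) (idx X + 1) X.2 ∧ Y = ext (idx X) (idx X + 1) Y.2 then
      Z.pcT α j h p X.2 Y.2 else .ret false
  | none => .ret false

/-- the table entry of a list of pieces -/
noncomputable def lsT (Z : Par A P M) (α : ℕ → Option M) (j h : ℕ) (l : List Pc)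
    (x y : Bool × P) : DT (Sy A) :=
  pathT (Z.edT α j h l) (fun c => (c / Z.K, Z.ρ (c % Z.K))) ((l.length + 1) * Z.K) Z.κ
    (ent 0 l.length x) (ext 0 l.length y)

end Par

/-- conjunction over `x < n` -/
def andN {α : Type} (f : ℕ → DT α) : ℕ → DT α
  | 0 => .ret true
  | n + 1 => (f n).and (andN f n)

namespace Par

/-- the set of ports with the code `c` -/
def sub (Z : Par A P M) (c : ℕ) : Set (Bool × P) := {x | c.testBit (Z.π x) = true}

/-- is there a bijection from `S` to `T` along the relation decided by `tab`? -/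
noncomputable def hallT (Z : Par A P M) (S T : Set (Bool × P))
    (tab : Bool × P → Bool × P → DT (Sy A)) : DT (Sy A) :=
  if S.ncard = T.ncard then
    andN (fun c => if Z.sub c ⊆ S then
      .orN (fun c' => if Z.sub c' ⊆ T ∧ (Z.sub c).ncard ≤ (Z.sub c').ncard then
        andN (fun y => if Z.ρ y ∈ Z.sub c' then
          .orN (fun x => if Z.ρ x ∈ Z.sub c then tab (Z.ρ x) (Z.ρ y) else .ret false) Z.K
          else .ret true) Z.K
        else .ret false) (2 ^ Z.K)
      else .ret true) (2 ^ Z.K)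
  else .ret false

/-- are the frontiers `X` and `Y` compatible for a list of pieces? -/
noncomputable def pmT (Z : Par A P M) (α : ℕ → Option M) (j h : ℕ) (l : List Pc) (X Y : Fr P) :
    DT (Sy A) := Z.hallT (src X Y) (tgt X Y) (Z.lsT α j h l)

/-- one block -/
noncomputable def stT (Z : Par A P M) (h : ℕ) (x y : ℕ × Fr P) : DT (Sy A) :=
  .orN (fun e => if Supp (Z.dec e) 0 Z.bl ∧ y.1 = x.1 + cnt (Z.dec e) Z.bl ∧ y.1 ≤ Z.k then
    Z.pmT (Z.dec e) x.1 h (blkP (Z.dec e) Z.sl Z.mx h) x.2 y.2 else .ret false)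
    (EK Z.k Z.mx Z.K Z.μ)

/-- acceptance from the information `x` at the start of the region -/
noncomputable def acT (Z : Par A P M) (h : ℕ) (x : ℕ × Fr P) : DT (Sy A) :=
  .orN (fun e => if Supp (Z.dec e) 0 h ∧ x.1 + cnt (Z.dec e) h ≤ Z.k then
    .orN (fun c => if (Z.ρ c).2 ∈ Z.S.F then
      Z.pmT (Z.dec e) x.1 h (finP (Z.dec e) Z.sl Z.mx h) x.2 ({(Z.ρ c).2}, ∅) else .ret false) Z.K
    else .ret false) (EK Z.k Z.mx Z.K Z.μ)

/-- the frontier bit at distance `d` -/
def aR (d : ℕ) : DT (Sy A) := .ask d fun g => .ret (match g with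
  | some (_, b) => b.1
  | none => false)

/-- the information with the code `x` is possible at the start of the word -/
def st0 (Z : Par A P M) (x : ℕ) : Prop :=
  (Z.info x).1 = 0 ∧ R0 Z.S.E0 Z.S.p0 (Z.info x).2

/-- the frontier bit of the next cell, in phase `r` -/
noncomputable def rT (Z : Par A P M) (r : ℕ) : DT (Sy A) :=
  if r < Z.bl then .ret (decide (Z.sl ≤ r ∧ r - Z.sl < NK Z.k Z.K ∧ Z.st0 (r - Z.sl)))
  else if Z.sl ≤ r - Z.bl ∧ r - Z.bl - Z.sl < NK Z.k Z.K then
    .orN (fun x => (aR (r - (Z.sl + x))).and (Z.stT r (Z.info x) (Z.info (r - Z.bl - Z.sl))))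
      (NK Z.k Z.K)
  else .ret false

/-- the table bit of the next cell, in phase `r` -/
noncomputable def tT (Z : Par A P M) (r : ℕ) : DT (Sy A) :=
  if 0 < r / Z.sl ∧ 2 ^ (r % Z.sl / (Z.K * Z.K)) ∣ r / Z.sl then
    Z.lsT (fun _ => none) 0 r
      (match r % Z.sl / (Z.K * Z.K) with
        | 0 => (List.range Z.sl).map fun c => .raw ((r / Z.sl - 1) * Z.sl + c)
        | s + 1 => [.blk s (r / Z.sl - 2 ^ s), .blk s (r / Z.sl)])
      (Z.ρ (r % Z.sl % (Z.K * Z.K) / Z.K)) (Z.ρ (r % Z.sl % Z.K))
  else .ret false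

/-- acceptance, in phase `r` -/
noncomputable def fT (Z : Par A P M) (r : ℕ) : DT (Sy A) :=
  if r < Z.bl then .orN (fun x => if Z.st0 x then Z.acT r (Z.info x) else .ret false) (NK Z.k Z.K)
  else .orN (fun x => (aR (r - (Z.sl + x))).and (Z.acT r (Z.info x))) (NK Z.k Z.K)

/-- the program -/
noncomputable def prog (Z : Par A P M) : GProg A (Bool × Bool) where
  nxt := fun r => if r + 1 < 2 * Z.bl then r + 1 else Z.bl
  s0 := (false, false)
  upd := fun r => .lift (Z.rT r) fun b => .lift (Z.tT r) fun b' => .ret (.inl (b, b'))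
  acc := fun r => .lift (Z.fT r) fun b => .ret (.inr b)

/-- the phase `r` and the start `a` of the region after `a + r` letters -/
def Ph (Z : Par A P M) (a r : ℕ) : Prop :=
  r < 2 * Z.bl ∧ (a = 0 ∨ Z.bl ≤ r) ∧ ∃ t, a = t * Z.bl

end Par

end Pool.Agent.P0036f5k
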