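import Pool.Agent.Lib.P0036f5k.Defs

/-!
# K7a: codes of annotations, of subsets and of informations 

* `exists_codes`: induction on `k`: the set of `α` with `Supp α 0 H` and `cnt α H ≤ k` is covered by a
  list of `(H * card M + 1) ^ k` functions.  `k = 0`: only `fun _ => none`.  Step: if
  `cnt α H ≤ k + 1` then `α` has at most `k` annotations or `α = Function.update α' i (some μ)` with
  `i < H`, `cnt α' H ≤ k` (remove one annotation); code `e = e' * (H * card M + 1) + r` with `r = 0` for
  unchanged and `r = 1 + (i * card M + index of μ)` for the update.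
  (Any proof will do, e.g. with `Finset`/`Finite` images and an enumeration of a finite type with at
  most `E` elements.)
* `exists_enum`: `P` finite with `Nat.card P = p`: an enumeration of `Bool × P` by `2 * p` numbers.
* `exists_info`: the type `Fin (k + 1) × (Set P × Set P)` has `(k + 1) * 2 ^ (2 * p)` elements;
  enumerate it.
-/

set_option autoImplicit false

namespace Pool.Agent.P0036f5k

namespace CodesAux

theorem cnt_update {M : Type} (α : ℕ → Option M) (H i : ℕ) (hi : i < H) (hs : (α i).isSome) :
    cnt (Function.update α i none) H + 1 = cnt α H := by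
  unfold cnt
  have h1 : ((Finset.range H).filter fun o => ((Function.update α i none) o).isSome) =
      ((Finset.range H).filter fun o => (α o).isSome).erase i := by
    ext o
    simp only [Finset.mem_filter, Finset.mem_range, Finset.mem_erase]
    rcases eq_or_ne o i with rfl | h
    · simp
    · rw [Function.update_of_ne h]
      tauto
  rw [h1]
  exact Finset.card_erase_add_one (Finset.mem_filter.2 ⟨Finset.mem_range.2 hi, hs⟩)

end CodesAux

theorem exists_codes (M : Type) [Finite M] (H k : ℕ) :
    ∃ dec : ℕ → ℕ → Option M, ∀ α : ℕ → Option M, Supp α 0 H → cnt α H ≤ k →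
      ∃ e < (H * Nat.card M + 1) ^ k, dec e = α := by
  classical
  set m := Nat.card M with hm
  let eM : M ≃ Fin m := Finite.equivFin M
  induction k with
  | zero =>
    refine ⟨fun _ _ => none, fun α hα hc => ⟨0, by simp, ?_⟩⟩
    funext i
    by_contra hcon
    have hs : (α i).isSome := by
      rw [Option.isSome_iff_ne_none]
      exact fun h => hcon h.symm
    have hi := (hα i hs).2
    have h1 : i ∈ (Finset.range H).filter fun o => (α o).isSome :=
      Finset.mem_filter.2 ⟨Finset.mem_range.2 hi, hs⟩
    have h2 : 0 < cnt α H := Finset.card_pos.2 ⟨i, h1⟩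
    omega
  | succ k ih =>
    obtain ⟨dec, hdec⟩ := ih
    let D : ℕ := H * m + 1
    have hD : 0 < D := Nat.succ_pos _
    refine ⟨fun e => if e % D = 0 then dec (e / D) else
      Function.update (dec (e / D)) ((e % D - 1) / m)
        (if h : (e % D - 1) % m < m then some (eM.symm ⟨_, h⟩) else none), fun α hα hc => ?_⟩
    by_cases hk : cnt α H ≤ k
    · obtain ⟨e, he, hee⟩ := hdec α hα hk
      refine ⟨e * D, ?_, ?_⟩
      · rw [pow_succ]
        exact Nat.mul_lt_mul_of_pos_right he hD
      · change (if e * D % D = 0 then dec (e * D / D) else _) = α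
        rw [if_pos (Nat.mul_mod_left e D), Nat.mul_div_cancel _ hD, hee]
    · have h1 : 0 < cnt α H := by omega
      obtain ⟨i, hi⟩ := Finset.card_pos.1 h1
      rw [Finset.mem_filter, Finset.mem_range] at hi
      obtain ⟨hiH, hs⟩ := hi
      obtain ⟨μ, hμ⟩ := Option.isSome_iff_exists.1 hs
      have h2 := CodesAux.cnt_update α H i hiH hs
      have hS' : Supp (Function.update α i none) 0 H := by
        intro j hj
        rcases eq_or_ne j i with rfl | h
        · simp at hj
        · rw [Function.update_of_ne h] at hj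
          exact hα j hj
      obtain ⟨e, he, hee⟩ := hdec _ hS' (by omega)
      have hidx : (eM μ).val < m := (eM μ).isLt
      have hr1 : i * m + (eM μ).val + 1 < D := by
        have h3 : (i + 1) * m ≤ H * m := Nat.mul_le_mul_right _ hiH
        have h4 : (i + 1) * m = i * m + m := by ring
        change i * m + (eM μ).val + 1 < H * m + 1
        omega
      have hmod : (e * D + (i * m + (eM μ).val + 1)) % D = i * m + (eM μ).val + 1 := by
        rw [mul_comm e D, Nat.mul_add_mod, Nat.mod_eq_of_lt hr1]
      have hdiv : (e * D + (i * m + (eM μ).val + 1)) / D = e := by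
        rw [mul_comm e D, Nat.mul_add_div hD, Nat.div_eq_of_lt hr1, add_zero]
      refine ⟨e * D + (i * m + (eM μ).val + 1), ?_, ?_⟩
      · have h5 : (e + 1) * D ≤ D ^ k * D := Nat.mul_le_mul_right _ he
        have h6 : (e + 1) * D = e * D + D := by ring
        rw [pow_succ]
        change _ < D ^ k * D
        omega
      · change (if (e * D + (i * m + (eM μ).val + 1)) % D = 0 then _ else _) = α
        rw [hmod, hdiv, if_neg (by omega)]
        have h7 : i * m + (eM μ).val + 1 - 1 = (eM μ).val + i * m := by omega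
        have hm0 : 0 < m := by omega
        have h8 : ((eM μ).val + i * m) / m = i := by
          rw [Nat.add_mul_div_right _ _ hm0, Nat.div_eq_of_lt hidx, zero_add]
        have h9 : ((eM μ).val + i * m) % m = (eM μ).val := by
          rw [Nat.add_mul_mod_self_right, Nat.mod_eq_of_lt hidx]
        have h10 : (i * m + (eM μ).val + 1 - 1) % m < m := Nat.mod_lt _ hm0
        rw [dif_pos h10]
        have h11 : (⟨(i * m + (eM μ).val + 1 - 1) % m, h10⟩ : Fin m) = eM μ := by
          apply Fin.ext
          change (i * m + (eM μ).val + 1 - 1) % m = (eM μ).val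
          rw [h7, h9]
        rw [h11, Equiv.symm_apply_apply, h7, h8, hee, Function.update_idem, ← hμ,
          Function.update_eq_self]

theorem exists_enum (P : Type) [Finite P] [Nonempty P] :
    ∃ (ρ : ℕ → Bool × P) (π : Bool × P → ℕ), (∀ x, π x < 2 * Nat.card P) ∧ (∀ x, ρ (π x) = x) ∧
      ∀ i < 2 * Nat.card P, π (ρ i) = i := by
  classical
  have hc : Nat.card (Bool × P) = 2 * Nat.card P := by
    rw [Nat.card_prod]; simp
  let e : Bool × P ≃ Fin (2 * Nat.card P) := (Finite.equivFin (Bool × P)).trans (finCongr hc)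
  refine ⟨fun i => if h : i < 2 * Nat.card P then e.symm ⟨i, h⟩ else Classical.arbitrary _,
    fun x => (e x).val, fun x => (e x).isLt, fun x => ?_, fun i hi => ?_⟩
  · change (if h : (e x).val < 2 * Nat.card P then e.symm ⟨(e x).val, h⟩ else _) = x
    rw [dif_pos (e x).isLt]
    simp
  · change (e (if h : i < 2 * Nat.card P then e.symm ⟨i, h⟩ else _)).val = i
    rw [dif_pos hi]
    simp

theorem exists_info (P : Type) [Finite P] (k : ℕ) :
    ∃ info : ℕ → ℕ × Fr P, (∀ x, (info x).1 ≤ k) ∧
      ∀ y : ℕ × Fr P, y.1 ≤ k → ∃ x < (k + 1) * 2 ^ (2 * Nat.card P), info x = y := by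
  classical
  have hset : Nat.card (Set P) = 2 ^ Nat.card P := by
    have := Fintype.ofFinite P
    rw [Nat.card_eq_fintype_card, Nat.card_eq_fintype_card, Fintype.card_set]
  have hc : Nat.card (Fin (k + 1) × Fr P) = (k + 1) * 2 ^ (2 * Nat.card P) := by
    rw [Nat.card_prod, Nat.card_prod, hset, Nat.card_eq_fintype_card, Fintype.card_fin, two_mul,
      pow_add]
  have hfin : Finite (Fin (k + 1) × Fr P) := inferInstanceAs (Finite (Fin (k + 1) × (Set P × Set P)))
  let e : Fin (k + 1) × Fr P ≃ Fin ((k + 1) * 2 ^ (2 * Nat.card P)) :=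
    (Finite.equivFin (Fin (k + 1) × Fr P)).trans (finCongr hc)
  refine ⟨fun x => if h : x < (k + 1) * 2 ^ (2 * Nat.card P) then
    (((e.symm ⟨x, h⟩).1).val, (e.symm ⟨x, h⟩).2) else (0, (∅, ∅)), fun x => ?_, fun y hy => ?_⟩
  · by_cases h : x < (k + 1) * 2 ^ (2 * Nat.card P)
    · simp only [dif_pos h]
      exact Nat.lt_succ_iff.1 (e.symm ⟨x, h⟩).1.isLt
    · simp only [dif_neg h]
      exact Nat.zero_le _
  · refine ⟨(e (⟨y.1, Nat.lt_succ_of_le hy⟩, y.2)).val, (e _).isLt, ?_⟩
    change (if h : (e (⟨y.1, Nat.lt_succ_of_le hy⟩, y.2)).val < (k + 1) * 2 ^ (2 * Nat.card P) then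
      (((e.symm ⟨_, h⟩).1).val, (e.symm ⟨_, h⟩).2) else _) = y
    rw [dif_pos (e _).isLt]
    simp

end Pool.Agent.P0036f5k
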