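import Pool.Agent.Lib.P0036f5k.NDefs

/-!
# K10: numerics

Let `m = (k + 1) * n`, `mx = 3 * m`; `4 ≤ n ≤ m`, `k + 1 ≤ m`, `K ≤ 2 * m`.

* `num_N`: `(k + 1) * 2 ^ K + 1 ≤ (k + 2) * 2 ^ (2 m) ≤ 2 ^ m * 2 ^ (2 m)`, as `k + 2 ≤ m + 1 ≤ 2 ^ m`.
* `num_main`: let `l = Nat.log 2 m + 1`, so `m < 2 ^ l`, `l ≤ m`, `l ^ 2 ≤ 4 * m`, and
  `κ = 5 * l + 8`.  `ℓ = (3 m + 1) K ^ 2 ≤ 16 m ^ 3`; `L + 1 ≤ 4 + 4 m (3 m + 16 m ^ 3) ≤ 80 m ^ 4`;
  `V ≤ 160 m ^ 5 ≤ 2 ^ (5 l + 8) = 2 ^ κ`; `c = (2 V) ^ κ ≤ 2 ^ ((κ + 1) κ)` and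
  `(5 l + 9) (5 l + 8) = 25 l ^ 2 + 85 l + 72 ≤ 203 m`.  With `K ≤ 2 m ≤ 2 ^ m`, `m ≤ 2 ^ m`,
  `16 ≤ 2 ^ m`:
  `ℓ ≤ 2 ^ (4 m)`, `B ≤ 2 ^ (7 m)`, `N ≤ 2 ^ (3 m)`, `H ≤ 2 ^ (4 m + 2 m + 203 m)`,
  `E = (2 B μ + 1) ^ k ≤ 2 ^ (9 m k)`, `T ≤ 2 ^ (215 m + 9 m k)`, and the size is at most
  `2 ^ (260 m + 9 m k) ≤ 2 ^ (300 (k + 1) ^ 2 n)`.
-/

set_option autoImplicit false

namespace Pool.Agent.P0036f5k

namespace NumAux

private theorem mulp {P a b i j : ℕ} (h1 : a ≤ P ^ i) (h2 : b ≤ P ^ j) :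
    a * b ≤ P ^ (i + j) := by
  rw [pow_add]
  exact Nat.mul_le_mul h1 h2

private theorem addp {P a b i : ℕ} (hP : 16 ≤ P) (h1 : a ≤ P ^ i) (h2 : b ≤ P ^ i) :
    a + b ≤ P ^ (i + 1) := by
  rw [pow_succ]
  have : P ^ i * 2 ≤ P ^ i * P := Nat.mul_le_mul_left _ (by omega)
  omega

private theorem monop {P a i j : ℕ} (hP : 16 ≤ P) (h : a ≤ P ^ i) (hij : i ≤ j) :
    a ≤ P ^ j :=
  h.trans (Nat.pow_le_pow_right (by omega) hij)

private theorem two_mul_le (m : ℕ) (hm : 1 ≤ m) : 2 * m ≤ 2 ^ m := by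
  induction m, hm using Nat.le_induction with
  | base => norm_num
  | succ m hm ih =>
    rw [pow_succ]
    omega

private theorem sq_le (l : ℕ) : l ^ 2 ≤ 2 ^ (l + 1) := by
  rcases Nat.lt_or_ge l 3 with h | h
  · interval_cases l <;> norm_num
  · induction l, h using Nat.le_induction with
    | base => norm_num
    | succ l hl ih =>
      have h1 : (l + 1) ^ 2 ≤ 2 * l ^ 2 := by nlinarith
      calc (l + 1) ^ 2 ≤ 2 * l ^ 2 := h1
        _ ≤ 2 * 2 ^ (l + 1) := Nat.mul_le_mul_left _ ih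
        _ = 2 ^ (l + 1 + 1) := by ring

end NumAux

open NumAux

theorem num_N {k n K : ℕ} (hn : 4 ≤ n) (hK : K ≤ 2 * ((k + 1) * n)) :
    NK k K + 1 ≤ 2 ^ (3 * ((k + 1) * n)) := by
  have hkm : k + 1 ≤ (k + 1) * n := Nat.le_mul_of_pos_right _ (by omega)
  generalize hm : (k + 1) * n = m at *
  have hm4 : 1 ≤ m := by omega
  have h1 : 2 ^ K ≤ 2 ^ (2 * m) := Nat.pow_le_pow_right (by norm_num) hK
  have h2 : k + 2 ≤ 2 ^ m := by
    have := two_mul_le m hm4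
    omega
  have h3 : 1 ≤ 2 ^ (2 * m) := Nat.one_le_two_pow
  unfold NK
  calc (k + 1) * 2 ^ K + 1 ≤ (k + 1) * 2 ^ (2 * m) + 2 ^ (2 * m) :=
        Nat.add_le_add (Nat.mul_le_mul_left _ h1) h3
    _ = (k + 2) * 2 ^ (2 * m) := by ring
    _ ≤ 2 ^ m * 2 ^ (2 * m) := Nat.mul_le_mul_right _ h2
    _ = 2 ^ (3 * m) := by rw [← pow_add]; congr 1; ring

theorem num_main {k n K a μ : ℕ} (hn : 4 ≤ n) (hK : K ≤ 2 * ((k + 1) * n)) (ha : a ≤ n)
    (hμ : μ ≤ n) : ∃ κ, VK k (3 * ((k + 1) * n)) K ≤ 2 ^ κ ∧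
      szK k (3 * ((k + 1) * n)) K κ a μ ≤ 2 ^ (300 * (k + 1) ^ 2 * n) := by
  have hN0 := num_N (k := k) (n := n) (K := K) hn hK
  have hkm : k + 1 ≤ (k + 1) * n := Nat.le_mul_of_pos_right _ (by omega)
  have hnm : n ≤ (k + 1) * n := Nat.le_mul_of_pos_left _ (by omega)
  have hexp : (9 * k + 260) * ((k + 1) * n) ≤ 300 * (k + 1) ^ 2 * n := by
    have : 300 * (k + 1) ^ 2 * n = (300 * (k + 1)) * ((k + 1) * n) := by ring
    rw [this]
    exact Nat.mul_le_mul_right _ (by omega)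
  suffices hmain : ∃ κ, VK k (3 * ((k + 1) * n)) K ≤ 2 ^ κ ∧
      szK k (3 * ((k + 1) * n)) K κ a μ ≤ 2 ^ ((9 * k + 260) * ((k + 1) * n)) by
    obtain ⟨κ, h1, h2⟩ := hmain
    exact ⟨κ, h1, h2.trans (Nat.pow_le_pow_right (by norm_num) hexp)⟩
  clear hexp
  generalize hm : (k + 1) * n = m at *
  clear hm
  have hm4 : 4 ≤ m := by omega
  have ham : a ≤ m := by omega
  have hμm : μ ≤ m := by omega
  clear hn hnm ha hμ
  -- the logarithm
  obtain ⟨l, hl1, hl2, hl3⟩ : ∃ l : ℕ, m < 2 ^ l ∧ l ≤ m ∧ l ^ 2 ≤ 4 * m := by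
    refine ⟨Nat.log 2 m + 1, Nat.lt_pow_succ_log_self (by norm_num) m, ?_, ?_⟩
    · have h1 : Nat.log 2 m < m := Nat.log_lt_self 2 (by omega)
      omega
    · have h1 : 2 ^ Nat.log 2 m ≤ m := Nat.pow_log_le_self 2 (by omega)
      have h2 := sq_le (Nat.log 2 m + 1)
      have h3 : 2 ^ (Nat.log 2 m + 1 + 1) = 4 * 2 ^ Nat.log 2 m := by ring
      omega
  have hℓ : ℓK (3 * m) K ≤ 16 * m ^ 3 := by
    unfold ℓK
    calc (3 * m + 1) * (K * K) ≤ (4 * m) * ((2 * m) * (2 * m)) :=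
          Nat.mul_le_mul (by omega) (Nat.mul_le_mul hK hK)
      _ = 16 * m ^ 3 := by ring
  have hL : LK k (3 * m) K + 1 ≤ 80 * m ^ 4 := by
    unfold LK
    have h1 : 2 * (k + 2) * (3 * m + ℓK (3 * m) K) ≤ 4 * m * (3 * m + 16 * m ^ 3) :=
      Nat.mul_le_mul (by omega) (by omega)
    have h2 : 4 + 4 * m * (3 * m + 16 * m ^ 3) ≤ 80 * m ^ 4 := by
      have h3 : 4 ^ 2 ≤ m ^ 2 := Nat.pow_le_pow_left hm4 2
      have h4 : m ^ 4 = m ^ 2 * m ^ 2 := by ring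
      have h5 : 4 * m * (3 * m + 16 * m ^ 3) = 12 * m ^ 2 + 64 * m ^ 4 := by ring
      have h6 : 16 * m ^ 2 ≤ m ^ 2 * m ^ 2 := Nat.mul_le_mul_right _ (by omega)
      omega
    omega
  have hV : VK k (3 * m) K ≤ 2 ^ (5 * l + 8) := by
    unfold VK
    calc (LK k (3 * m) K + 1) * K ≤ (80 * m ^ 4) * (2 * m) := Nat.mul_le_mul hL hK
      _ = 160 * m ^ 5 := by ring
      _ ≤ 256 * (2 ^ l) ^ 5 := Nat.mul_le_mul (by norm_num) (Nat.pow_le_pow_left hl1.le 5)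
      _ = 2 ^ (5 * l + 8) := by
        rw [pow_add, ← pow_mul, Nat.mul_comm l 5]
        norm_num
        ring
  refine ⟨5 * l + 8, hV, ?_⟩
  -- everything as a power of `P = 2 ^ m`
  have hc0 : cK k (3 * m) K (5 * l + 8) ≤ (2 ^ m) ^ 203 := by
    unfold cK
    have h1 : 2 * VK k (3 * m) K ≤ 2 ^ (5 * l + 9) := by
      have : (2 : ℕ) ^ (5 * l + 9) = 2 * 2 ^ (5 * l + 8) := by ring
      rw [this]
      exact Nat.mul_le_mul_left _ hV
    calc (2 * VK k (3 * m) K) ^ (5 * l + 8) ≤ (2 ^ (5 * l + 9)) ^ (5 * l + 8) :=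
          Nat.pow_le_pow_left h1 _
      _ = 2 ^ ((5 * l + 9) * (5 * l + 8)) := by rw [← pow_mul]
      _ ≤ 2 ^ (m * 203) := by
        refine Nat.pow_le_pow_right (by norm_num) ?_
        have : (5 * l + 9) * (5 * l + 8) = 25 * l ^ 2 + 85 * l + 72 := by ring
        omega
      _ = (2 ^ m) ^ 203 := by rw [← pow_mul]
  have hN : NK k K ≤ (2 ^ m) ^ 3 := by
    rw [← pow_mul, Nat.mul_comm m 3]
    omega
  have hgoal : (2 : ℕ) ^ ((9 * k + 260) * m) = (2 ^ m) ^ (9 * k + 260) := by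
    rw [← pow_mul, Nat.mul_comm]
  have hP2m : 2 * m ≤ 2 ^ m := two_mul_le m (by omega)
  have hP16 : 16 ≤ 2 ^ m := by
    calc 16 = 2 ^ 4 := by norm_num
      _ ≤ 2 ^ m := Nat.pow_le_pow_right (by norm_num) hm4
  have h2K : 2 ^ K ≤ (2 ^ m) ^ 2 := by
    rw [← pow_mul, Nat.mul_comm m 2]
    exact Nat.pow_le_pow_right (by norm_num) hK
  have h2mx : 2 ^ (3 * m) ≤ (2 ^ m) ^ 3 := by
    rw [← pow_mul, Nat.mul_comm m 3]
  rw [hgoal]
  generalize (2 : ℕ) ^ m = P at *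
  have hmP : m ≤ P ^ 1 := by rw [pow_one]; omega
  have hKP : K ≤ P ^ 1 := by rw [pow_one]; omega
  have hc16 : ∀ c : ℕ, c ≤ 16 → c ≤ P ^ 1 := by
    intro c hc
    rw [pow_one]
    omega
  have hℓP : ℓK (3 * m) K ≤ P ^ 4 := by
    refine hℓ.trans ?_
    have h1 : m ^ 3 ≤ P ^ 3 := Nat.pow_le_pow_left (by omega) 3
    exact mulp (i := 1) (j := 3) (hc16 16 le_rfl) h1
  have hB : BK (3 * m) K ≤ P ^ 7 := by
    unfold BK
    exact mulp (i := 3) (j := 4) h2mx hℓP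
  have hH : HK k (3 * m) K (5 * l + 8) ≤ P ^ 209 := by
    unfold HK
    exact mulp (i := 2) (j := 207) h2K (mulp (i := 2) (j := 205) h2K
      (mulp (i := 1) (j := 204) hKP (mulp (i := 1) (j := 203) hKP hc0)))
  have h2B : 2 * BK (3 * m) K ≤ P ^ 8 := mulp (i := 1) (j := 7) (hc16 2 (by norm_num)) hB
  have hE : EK k (3 * m) K μ ≤ P ^ (9 * k) := by
    unfold EK
    rw [pow_mul]
    refine Nat.pow_le_pow_left ?_ k
    refine addp (i := 8) hP16 ?_ (monop hP16 (hc16 1 (by norm_num)) (by norm_num))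
    have h1 : 2 * μ ≤ P ^ 1 := by rw [pow_one]; omega
    have h2 : 2 * BK (3 * m) K * μ = BK (3 * m) K * (2 * μ) := by ring
    rw [h2]
    exact mulp (i := 7) (j := 1) hB h1
  have hT : TK k (3 * m) K (5 * l + 8) μ ≤ P ^ (9 * k + 216) := by
    unfold TK
    have h1 : NK k K * (1 + EK k (3 * m) K μ * HK k (3 * m) K (5 * l + 8)) ≤
        P ^ (9 * k + 214) := by
      refine (mulp (i := 3) (j := 9 * k + 209 + 1) hN (addp hP16
        (monop hP16 (hc16 1 (by norm_num)) (by omega)) (mulp hE hH))).trans ?_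
      exact Nat.pow_le_pow_right (by omega) (by omega)
    have h2 : NK k K * (1 + EK k (3 * m) K μ * (K * HK k (3 * m) K (5 * l + 8))) ≤
        P ^ (9 * k + 215) := by
      refine (mulp (i := 3) (j := 9 * k + (1 + 209) + 1) hN (addp hP16
        (monop hP16 (hc16 1 (by norm_num)) (by omega)) (mulp hE (mulp hKP hH)))).trans ?_
      exact Nat.pow_le_pow_right (by omega) (by omega)
    have h3 : 2 * cK k (3 * m) K (5 * l + 8) ≤ P ^ (9 * k + 214) :=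
      monop hP16 (mulp (i := 1) (j := 203) (hc16 2 (by norm_num)) hc0) (by omega)
    exact addp (i := 9 * k + 215) hP16 (addp (i := 9 * k + 214) hP16 h1 h3) h2
  unfold szK
  have h1 : 2 * BK (3 * m) K * 4 ≤ P ^ 9 := mulp (i := 8) (j := 1) h2B (hc16 4 (by norm_num))
  have h2 : 4 + 2 + 2 * BK (3 * m) K * TK k (3 * m) K (5 * l + 8) μ ≤ P ^ (9 * k + 225) := by
    have h3 : 2 * BK (3 * m) K * TK k (3 * m) K (5 * l + 8) μ ≤ P ^ (9 * k + 224) := by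
      have := mulp (i := 8) (j := 9 * k + 216) h2B hT
      exact this.trans (Nat.pow_le_pow_right (by omega) (by omega))
    exact addp (i := 9 * k + 224) hP16 (monop hP16 (hc16 6 (by norm_num)) (by omega)) h3
  have h3 : 2 * BK (3 * m) K + 3 ≤ P ^ 9 :=
    addp (i := 8) hP16 h2B (monop hP16 (hc16 3 (by norm_num)) (by norm_num))
  have h4 : 2 * BK (3 * m) K * ((4 + 2 + 2 * BK (3 * m) K * TK k (3 * m) K (5 * l + 8) μ) *
      (2 * BK (3 * m) K + 3)) ≤ P ^ (9 * k + 242) := by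
    have := mulp (i := 8) (j := 9 * k + 225 + 9) h2B (mulp h2 h3)
    exact this.trans (Nat.pow_le_pow_right (by omega) (by omega))
  have h5 : 2 * BK (3 * m) K * 4 + 2 * BK (3 * m) K *
      ((4 + 2 + 2 * BK (3 * m) K * TK k (3 * m) K (5 * l + 8) μ) *
      (2 * BK (3 * m) K + 3)) + 1 ≤ P ^ (9 * k + 244) :=
    addp (i := 9 * k + 243) hP16
      (addp (i := 9 * k + 242) hP16 (monop hP16 h1 (by omega)) h4)
      (monop hP16 (hc16 1 (by norm_num)) (by omega))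
  have h6 : 5 * a * 4 + 5 * a + 17 ≤ P ^ 3 := by
    have h7 : 5 * a * 4 + 5 * a + 17 ≤ 16 * (2 * m) := by omega
    refine h7.trans ((mulp (i := 1) (j := 1) (hc16 16 le_rfl)
      (by rw [pow_one]; exact hP2m)).trans ?_)
    exact Nat.pow_le_pow_right (by omega) (by norm_num)
  have h7 : a * 4 + 2 * a + 4 ≤ P ^ 3 := by
    have h8 : a * 4 + 2 * a + 4 ≤ 16 * (2 * m) := by omega
    refine h8.trans ((mulp (i := 1) (j := 1) (hc16 16 le_rfl)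
      (by rw [pow_one]; exact hP2m)).trans ?_)
    exact Nat.pow_le_pow_right (by omega) (by norm_num)
  have h8 : (2 * BK (3 * m) K * 4 + 2 * BK (3 * m) K *
      ((4 + 2 + 2 * BK (3 * m) K * TK k (3 * m) K (5 * l + 8) μ) *
      (2 * BK (3 * m) K + 3)) + 1) * (5 * a * 4 + 5 * a + 17) ≤ P ^ (9 * k + 247) := by
    have := mulp (i := 9 * k + 244) (j := 3) h5 h6
    exact this.trans (Nat.pow_le_pow_right (by omega) (by omega))
  exact monop hP16 (addp (i := 9 * k + 247) hP16 h8 (monop hP16 h7 (by omega))) (by omega)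

end Pool.Agent.P0036f5k
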