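import Pool.Agent.Lib.P0036f5k.Defs

/-!
# K9b: accepting computations give annotated words

Tape cell `i + 1` carries the letter with index `i`; the boundary `b` lies between the letter cells
`b - 1` and `b`; the cell with index `w.length` is the right end-marker.  The head on the letter cell
`i` (tape position `i + 1`) corresponds to the nodes `(i, true, q)` (entered from the left) and
`(i + 1, false, q)` (entered from the right); the head on the left end-marker (position `0`) to
`(0, false, q)`; position `w.length + 2` to `(w.length + 1, true, q)`.  The second component of a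
state of `ls M k` is the number of changed cells so far.

Let the computation end in the configuration `cf` (accepting).  Put
`α i = some μ` if `i < w.length`, `cf.tape (i + 1) = Sym.ofW μ` and
`cf.tape (i + 1) ≠ M.initTape w (i + 1)`, else `none` (`Sym.ofW` is injective; tape symbols of letter
cells are always in the range of `Sym.ofW` or the input letter).  `cnt α w.length ≤ k` because of
`FewWrites` for `cf`.  Frozen cells never change (`Pool.Agent.P0036f5g.frozen` in GFin), and the
visited letter cells are always `1, …, j - 1` for some `j` with head position `≤ j` (so a first visit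
happens at the right of all visited cells).  For every configuration `c` of the computation
(reachable from the start and reaching `cf`): the node with the second component
`cnt α (number of visited letter cells)` is reachable in `Full`.  (Both nodes `(i, true, ·)` and
`(i + 1, false, ·)` may represent the head on the letter cell `i`: take the node given by the last
move; the behaviour of the cell is the same for both.)  Steps: first visit of the letter
cell `i` (all cells `< i` visited): if the written symbol is the letter itself then (frozen from now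
on) `α i = none` and `L0` applies and the counter stays; otherwise `α i = some μ` with the written
symbol `μ`, the counter is `cnt α i` before and `cnt α i + 1` after.  Later visit of the cell `i`:
`FewWrites` (third part; with `OkW` from the step) says that the transition writes the symbol that is
there, which is the letter (`α i = none`, `L0`) or `Sym.ofW μ` (`α i = some μ`, second case of `L1`,
`cnt α i <` counter because the cell `i` has been visited).  The counter is `< k + 1` as
`cnt α w.length ≤ k`.
-/

set_option autoImplicit false

namespace Pool.Agent.P0036f5k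

open Relation Pool.Agent.P0036f5v2 Pool.Agent.P0036f5g

namespace SimBAux

/-- the head position that belongs to a crossing -/
def pos {P : Type} (x : Nd P) : ℕ := if x.2.1 = true then x.1 + 1 else x.1

theorem cnt_succ_none {M : Type} (α : ℕ → Option M) {i : ℕ} (h : α i = none) :
    cnt α (i + 1) = cnt α i := by
  unfold cnt
  rw [Finset.range_add_one, Finset.filter_insert, if_neg]
  rw [h]
  simp

theorem cnt_succ_some {M : Type} (α : ℕ → Option M) {i : ℕ} {μ : M} (h : α i = some μ) :
    cnt α (i + 1) = cnt α i + 1 := by
  unfold cnt
  rw [Finset.range_add_one, Finset.filter_insert, if_pos (by rw [h]; rfl),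
    Finset.card_insert_of_notMem]
  simp

theorem cnt_mono {M : Type} (α : ℕ → Option M) {i j : ℕ} (h : i ≤ j) : cnt α i ≤ cnt α j := by
  unfold cnt
  apply Finset.card_le_card
  intro o ho
  rw [Finset.mem_filter, Finset.mem_range] at ho ⊢
  exact ⟨ho.1.trans_le h, ho.2⟩

theorem ofW_inj {A W : Type} {x y : A ⊕ W} (h : (Sym.ofW x : Sym A W) = Sym.ofW y) : x = y := by
  rcases x with x | x <;> rcases y with y | y <;> simp only [Sym.ofW] at h
  · injection h with h
    rw [h]
  · cases h
  · cases h
  · injection h with h
    rw [h]

/-- the invariant: the configuration `c` (before the configuration with the tape `T`) belongs to the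
node `x`, and the cells `1, …, j` have been visited -/
structure Inv {A : Type} (M : Mach A) (k : ℕ) (w : List A) (T : ℕ → Sym A M.W)
    (α : ℕ → Option (A ⊕ M.W)) (x : Nd (M.Q × Fin (k + 1))) (j : ℕ) (c : M.Cfg) : Prop where
  st : c.st = x.2.2.1
  ps : c.pos = pos x
  lt : x.1 ≤ w.length + 1
  lf : x.2.1 = false → x.1 ≤ w.length
  t0 : c.tape 0 = Sym.lend
  te : c.tape (w.length + 1) = Sym.rend
  sn : ∀ i, i < w.length → (i + 1 ∈ c.seen ↔ i < j)
  un : ∀ (i : ℕ) (a : A), w[i]? = some a → j ≤ i → c.tape (i + 1) = Sym.inp a
  jl : j ≤ w.length
  pj : c.pos ≤ w.length + 1 → c.pos ≤ j + 1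
  ct : x.2.2.2.val = cnt α j

theorem inv_init {A : Type} (M : Mach A) (k : ℕ) (w : List A) (T : ℕ → Sym A M.W)
    (α : ℕ → Option (A ⊕ M.W)) : Inv M k w T α (0, true, (ls M k).p0) 0 (M.init w) where
  st := rfl
  ps := rfl
  lt := Nat.zero_le _
  lf := by
    intro h
    exact absurd h (by simp)
  t0 := rfl
  te := by simp [Mach.init, Mach.initTape]
  sn := by
    intro i _
    constructor
    · intro h
      exact absurd h (Set.notMem_empty _)
    · intro h
      exact absurd h (Nat.not_lt_zero _)
  un := by
    intro i a hi _
    simp [Mach.init, Mach.initTape, hi]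
  jl := Nat.zero_le _
  pj := by
    intro _
    exact le_refl _
  ct := rfl

theorem inv_step {A : Type} (M : Mach A) (cv : Bool) (k : ℕ) (w : List A) (T : ℕ → Sym A M.W)
    (α : ℕ → Option (A ⊕ M.W)) (hk : cnt α w.length ≤ k)
    (hs : ∀ i μ, α i = some μ → T (i + 1) = Sym.ofW μ)
    (hn : ∀ i a, α i = none → w[i]? = some a → ∀ x : A ⊕ M.W, T (i + 1) = Sym.ofW x →
      x = Sum.inl a)
    {x : Nd (M.Q × Fin (k + 1))} {j : ℕ} {c c' : M.Cfg}
    (hc : Inv M k w T α x j c) (hst : M.Step cv w.length c c')
    (hfr : ∀ i, i ∈ c'.seen → c'.tape i = T i)
    (hfw : c.pos ∈ c.seen → 1 ≤ c.pos → c.pos ≤ w.length → ∀ (q : M.Q) (x : A ⊕ M.W) (d : Bool),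
      (q, x, d) ∈ M.δ c.st (c.tape c.pos) → OkW cv (c.tape c.pos) x → Sym.ofW x = c.tape c.pos) :
    ∃ y j', Inv M k w T α y j' c' ∧ ((∃ i, i < w.length + 1 ∧ EC (cr (ls M k) w α 0) i x y) ∨
      ∃ p p', x = (0, false, p) ∧ y = (0, true, p') ∧ (ls M k).E0 p p') := by
  obtain ⟨b, d0, q, o⟩ := x
  obtain ⟨st, ps, lt, lf, t0, te, sn, un, jl, pj, ct⟩ := hc
  obtain ⟨hp, s, d, hδ, h0, hpos, hw1, hw2, hseen⟩ := hst
  simp only at st ps lt lf ct
  unfold pos at ps
  simp only at ps
  rw [st] at hδ hfw
  rcases Nat.eq_zero_or_pos c.pos with hz | hz
  · -- left end-marker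
    have hd0 : d0 = false := by
      cases d0
      · rfl
      · simp only [if_true] at ps
        omega
    subst hd0
    simp only [Bool.false_eq_true, if_false] at ps
    have hb : b = 0 := by omega
    subst hb
    have hd : d = true := h0 hz
    subst hd
    obtain ⟨ht, -⟩ := hw2 (by omega)
    simp only [if_true] at hpos
    rw [hz, t0] at hδ
    refine ⟨(0, true, (c'.st, o)), j, ⟨rfl, ?_, Nat.zero_le _, ?_, ?_, ?_, ?_, ?_, jl, ?_, ct⟩,
      Or.inr ⟨(q, o), (c'.st, o), rfl, rfl, rfl, s, hδ⟩⟩
    · rw [hpos, hz]
      rfl
    · intro h
      exact absurd h (by simp)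
    · rw [ht]
      exact t0
    · rw [ht]
      exact te
    · intro i hi
      rw [hseen, Set.mem_insert_iff, sn i hi]
      constructor
      · rintro (h | h)
        · omega
        · exact h
      · exact Or.inr
    · intro i a hi hj
      rw [ht]
      exact un i a hi hj
    · intro _
      omega
  · obtain ⟨i, hi⟩ : ∃ i, c.pos = i + 1 := ⟨c.pos - 1, by omega⟩
    rw [hi] at hpos hδ hfw hw1 hw2 hseen
    have hbi : b = (if d0 = true then i else i + 1) := by
      cases d0
      · simp only [Bool.false_eq_true, if_false] at ps ⊢
        omega
      · simp only [if_true] at ps ⊢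
        omega
    have hy1 : ∀ z : M.Q × Fin (k + 1),
        c'.pos = pos ((if d = true then i + 1 else i, d, z) : Nd (M.Q × Fin (k + 1))) := by
      intro z
      rw [hpos]
      unfold pos
      cases d <;> simp
    have hy2 : (if d = true then i + 1 else i) ≤ w.length + 1 := by
      split_ifs <;> omega
    have hy3 : d = false → (if d = true then i + 1 else i) ≤ w.length := by
      intro h
      subst h
      simp only [Bool.false_eq_true, if_false]
      omega
    rcases Nat.lt_or_ge i w.length with hiw | hiw
    · have hwi : w[i]? = some w[i] := List.getElem?_eq_getElem hiw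
      generalize w[i] = a at hwi
      have hij : i ≤ j := by
        have := pj hp
        omega
      have hcr : cr (ls M k) w α 0 i = lc (ls M k) (cnt α i) (α i) a := by
        unfold cr
        rw [hwi]
        simp only [Nat.zero_add]
      rcases Nat.lt_or_ge i j with hlt | hge
      · -- later visit
        have hin : i + 1 ∈ c.seen := (sn i hiw).2 hlt
        obtain ⟨ht, hok⟩ := hw2 (by
          rintro ⟨_, _, h⟩
          exact h hin)
        have hx : Sym.ofW s = c.tape (i + 1) :=
          hfw hin (by omega) (by omega) _ _ _ hδ hok
        have hT : T (i + 1) = Sym.ofW s := by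
          rw [hx, ← hfr (i + 1) (by rw [hseen]; exact Set.mem_insert _ _), ht]
        have hec : EC (cr (ls M k) w α 0) i (b, d0, q, o)
            (if d = true then i + 1 else i, d, c'.st, o) := by
          refine ⟨hbi, ?_, rfl⟩
          rw [hcr]
          simp only
          cases hα : α i with
          | none =>
            have hsa := hn i a hα hwi s hT
            subst hsa
            refine ⟨rfl, ?_⟩
            rw [← hx] at hδ
            exact hδ
          | some μ =>
            have hμ : s = μ := ofW_inj (hT.symm.trans (hs i μ hα))
            subst hμ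
            right
            refine ⟨?_, rfl, ?_⟩
            · show cnt α i < o.val
              rw [ct]
              have h1 := cnt_succ_some α hα
              have h2 := cnt_mono α (show i + 1 ≤ j by omega)
              omega
            · rw [← hx] at hδ
              exact hδ
        refine ⟨(if d = true then i + 1 else i, d, c'.st, o), j,
          ⟨rfl, hy1 _, hy2, hy3, ?_, ?_, ?_, ?_, jl, ?_, ct⟩, Or.inl ⟨i, by omega, hec⟩⟩
        · rw [ht]
          exact t0
        · rw [ht]
          exact te
        · intro i' hi'
          rw [hseen, Set.mem_insert_iff, sn i' hi']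
          constructor
          · rintro (h | h)
            · omega
            · exact h
          · exact Or.inr
        · intro i' a' hi' hj
          rw [ht]
          exact un i' a' hi' hj
        · intro _
          rw [hpos]
          split_ifs <;> omega
      · -- first visit
        have hje : j = i := by omega
        subst hje
        have hnin : j + 1 ∉ c.seen := fun h => absurd ((sn j hiw).1 h) (lt_irrefl _)
        have ht := hw1 ⟨by omega, by omega, hnin⟩
        have hti : c.tape (j + 1) = Sym.inp a := un j a hwi le_rfl
        have hT : T (j + 1) = Sym.ofW s := by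
          rw [← hfr (j + 1) (by rw [hseen]; exact Set.mem_insert _ _), ht, Function.update_self]
        rw [hti] at hδ
        have hec : ∃ o' : Fin (k + 1), o'.val = cnt α (j + 1) ∧
            EC (cr (ls M k) w α 0) j (b, d0, q, o)
              (if d = true then j + 1 else j, d, c'.st, o') := by
          cases hα : α j with
          | none =>
            refine ⟨o, by rw [ct, cnt_succ_none α hα], hbi, ?_, rfl⟩
            rw [hcr, hα]
            have hsa := hn j a hα hwi s hT
            subst hsa
            exact ⟨rfl, hδ⟩
          | some μ =>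
            have hμ : s = μ := ofW_inj (hT.symm.trans (hs j μ hα))
            subst hμ
            have h1 := cnt_succ_some α hα
            have h2 := cnt_mono α (show j + 1 ≤ w.length by omega)
            refine ⟨⟨cnt α (j + 1), by omega⟩, rfl, hbi, ?_, rfl⟩
            rw [hcr, hα]
            exact Or.inl ⟨ct, h1, hδ⟩
        obtain ⟨o', ho', hec⟩ := hec
        refine ⟨(if d = true then j + 1 else j, d, c'.st, o'), j + 1,
          ⟨rfl, hy1 _, hy2, hy3, ?_, ?_, ?_, ?_, by omega, ?_, ho'⟩, Or.inl ⟨j, by omega, hec⟩⟩
        · rw [ht, Function.update_of_ne (by omega)]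
          exact t0
        · rw [ht, Function.update_of_ne (by omega)]
          exact te
        · intro i' hi'
          rw [hseen, Set.mem_insert_iff, sn i' hi']
          omega
        · intro i' a' hi' hj
          rw [ht, Function.update_of_ne (by omega)]
          exact un i' a' hi' (by omega)
        · intro _
          rw [hpos]
          split_ifs <;> omega
    · -- right end-marker
      have hiw' : i = w.length := by omega
      have hwi : w[i]? = none := by
        rw [List.getElem?_eq_none_iff]
        omega
      obtain ⟨ht, -⟩ := hw2 (by omega)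
      have hti : c.tape (i + 1) = Sym.rend := by
        rw [hiw']
        exact te
      rw [hti] at hδ
      have hec : EC (cr (ls M k) w α 0) i (b, d0, q, o)
          (if d = true then i + 1 else i, d, c'.st, o) := by
        refine ⟨hbi, ?_, rfl⟩
        unfold cr
        rw [hwi]
        exact ⟨rfl, s, hδ⟩
      refine ⟨(if d = true then i + 1 else i, d, c'.st, o), j,
        ⟨rfl, hy1 _, hy2, hy3, ?_, ?_, ?_, ?_, jl, ?_, ct⟩, Or.inl ⟨i, by omega, hec⟩⟩
      · rw [ht]
        exact t0
      · rw [ht]
        exact te
      · intro i' hi'
        rw [hseen, Set.mem_insert_iff, sn i' hi']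
        constructor
        · rintro (h | h)
          · omega
          · exact h
        · exact Or.inr
      · intro i' a' hi' hj
        rw [ht]
        exact un i' a' hi' hj
      · intro hle
        have := pj hp
        rw [hpos] at hle ⊢
        split_ifs at hle ⊢ <;> omega

end SimBAux

open SimBAux in
theorem lk_of_lang {A : Type} (M : Mach A) (cv : Bool) (k : ℕ) (hM : FewWrites M cv k) {w : List A}
    (h : w ∈ M.lang cv) : w ∈ Lk (ls M k) k := by
  classical
  obtain ⟨cf, hcf, hpf, hff⟩ := h
  let Q : ℕ → (A ⊕ M.W) → Prop := fun i μ =>
    cf.tape (i + 1) = Sym.ofW μ ∧ i < w.length ∧ cf.tape (i + 1) ≠ M.initTape w (i + 1)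
  let α : ℕ → Option (A ⊕ M.W) := fun i => if h : ∃ μ, Q i μ then some h.choose else none
  have hα1 : ∀ i μ, α i = some μ → Q i μ := by
    intro i μ h
    simp only [α] at h
    split_ifs at h with h1
    injection h with h
    rw [← h]
    exact h1.choose_spec
  have hα2 : ∀ i, α i = none → ¬ ∃ μ, Q i μ := by
    intro i h
    simp only [α] at h
    split_ifs at h with h1
    exact h1
  obtain ⟨hfin, hcard, -⟩ := hM w cf hcf
  have hk : cnt α w.length ≤ k := by
    refine le_trans ?_ hcard
    unfold cnt
    rw [← Finset.card_map (addRightEmbedding 1), ← Set.ncard_coe_finset]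
    apply Set.ncard_le_ncard _ hfin
    intro z hz
    rw [Finset.mem_coe, Finset.mem_map] at hz
    obtain ⟨i, hi, rfl⟩ := hz
    rw [Finset.mem_filter] at hi
    obtain ⟨μ, hμ⟩ := Option.isSome_iff_exists.1 hi.2
    exact (hα1 i μ hμ).2.2
  have hs : ∀ i μ, α i = some μ → cf.tape (i + 1) = Sym.ofW μ := fun i μ h => (hα1 i μ h).1
  have hn : ∀ i a, α i = none → w[i]? = some a → ∀ x : A ⊕ M.W, cf.tape (i + 1) = Sym.ofW x →
      x = Sum.inl a := by
    intro i a h1 h2 x h3
    have hlt : i < w.length := by
      by_contra hc
      rw [List.getElem?_eq_none (by omega)] at h2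
      cases h2
    by_contra hc
    refine hα2 i h1 ⟨x, h3, hlt, ?_⟩
    intro h4
    apply hc
    apply ofW_inj
    rw [← h3, h4]
    simp [Mach.initTape, h2, Sym.ofW]
  have key : ∀ c, ReflTransGen (M.Step cv w.length) (M.init w) c →
      ReflTransGen (M.Step cv w.length) c cf →
      ∃ x j, Inv M k w cf.tape α x j c ∧
        Full (cr (ls M k) w α 0) (ls M k).E0 (w.length + 1) (0, true, (ls M k).p0) x := by
    intro c hc
    induction hc with
    | refl =>
      intro _
      exact ⟨_, 0, inv_init M k w cf.tape α, ReflTransGen.refl⟩
    | @tail b c hb hbc ih =>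
      intro hcc
      obtain ⟨x, j, hI, hF⟩ := ih (ReflTransGen.head hbc hcc)
      obtain ⟨y, j', hI', hE⟩ := inv_step M cv k w cf.tape α hk hs hn hI hbc
        (fun i hi => ((frozen hcc hi).2).symm) (hM w b hb).2.2
      exact ⟨y, j', hI', hF.tail hE⟩
  obtain ⟨x, j, hI, hF⟩ := key cf hcf ReflTransGen.refl
  obtain ⟨b, d, p⟩ := x
  have h1 := hI.ps
  have h2 := hI.lt
  have h3 := hI.lf
  have h4 := hI.st
  rw [hpf] at h1
  unfold pos at h1
  simp only at h1 h2 h3 h4
  have hd : d = true := by
    cases d
    · have := h3 rfl
      simp only [Bool.false_eq_true, if_false] at h1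
      omega
    · rfl
  subst hd
  simp only [if_true] at h1
  have hb : b = w.length + 1 := by omega
  subst hb
  refine ⟨α, ?_, hk, p, ?_, hF⟩
  · intro i hi
    obtain ⟨μ, hμ⟩ := Option.isSome_iff_exists.1 hi
    exact ⟨Nat.zero_le _, (hα1 i μ hμ).2.1⟩
  · show p.1 ∈ M.F
    rw [← h4]
    exact hff

end Pool.Agent.P0036f5k
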