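import Pool.Agent.Lib.P0036f5k.SimA
import Pool.Agent.Lib.P0036f5k.SimB

/-!
# K9: the language of a machine that changes few cells
-/

set_option autoImplicit false

namespace Pool.Agent.P0036f5k

open Relation Pool.Agent.P0036f5v2 Pool.Agent.P0036f5g

theorem mach_lang {A : Type} (M : Mach A) (cv : Bool) (k : ℕ) (hM : FewWrites M cv k) :
    M.lang cv = Lk (ls M k) k := by
  ext w
  exact ⟨lk_of_lang M cv k hM, lang_of_lk M cv k⟩

end Pool.Agent.P0036f5k
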