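import Pool.Agent.Lib.P0036f5k.WDefs

/-!
# K11a: the witness machine is small and changes at most one cell
-/

set_option autoImplicit false

namespace Pool.Agent.P0036f5k

open Relation Pool.Agent.P0036f5v2 Pool.Agent.P0036f5g

namespace WitAAux

/-- the states that can occur -/
def kst (m : ℕ) : Set WQ :=
  (({.scan, .mid, .fin} ∪ WQ.yo '' Set.Iio m) ∪ (WQ.xb '' Set.Iio m ∪ WQ.rt '' Set.Iic m)) ∪
    ((fun p : Bool × ℕ => WQ.yb p.1 p.2) '' (Set.univ ×ˢ Set.Iio m) ∪
      ((fun p : Bool × ℕ => WQ.lf p.1 p.2) '' (Set.univ ×ˢ Set.Iio m) ∪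
        (fun p : Bool × ℕ => WQ.xo p.1 p.2) '' (Set.univ ×ˢ Set.Iio m)))

theorem mem_scan (m : ℕ) : WQ.scan ∈ kst m := by simp [kst]
theorem mem_mid (m : ℕ) : WQ.mid ∈ kst m := by simp [kst]
theorem mem_fin (m : ℕ) : WQ.fin ∈ kst m := by simp [kst]
theorem mem_yo (m i : ℕ) : WQ.yo i ∈ kst m ↔ i < m := by simp [kst]
theorem mem_xb (m i : ℕ) : WQ.xb i ∈ kst m ↔ i < m := by simp [kst]
theorem mem_rt (m i : ℕ) : WQ.rt i ∈ kst m ↔ i ≤ m := by simp [kst]
theorem mem_yb (m i : ℕ) (c : Bool) : WQ.yb c i ∈ kst m ↔ i < m := by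
  cases c <;> simp [kst]
theorem mem_lf (m i : ℕ) (c : Bool) : WQ.lf c i ∈ kst m ↔ i < m := by
  cases c <;> simp [kst]
theorem mem_xo (m i : ℕ) (c : Bool) : WQ.xo c i ∈ kst m ↔ i < m := by
  cases c <;> simp [kst]

theorem kst_finite (m : ℕ) : (kst m).Finite := by
  unfold kst
  refine Set.Finite.union (Set.Finite.union (Set.Finite.union (Set.toFinite _) ?_)
    (Set.Finite.union ?_ ?_)) (Set.Finite.union ?_ (Set.Finite.union ?_ ?_))
  · exact (Set.finite_Iio m).image _
  · exact (Set.finite_Iio m).image _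
  · exact (Set.finite_Iic m).image _
  · exact (Set.finite_univ.prod (Set.finite_Iio m)).image _
  · exact (Set.finite_univ.prod (Set.finite_Iio m)).image _
  · exact (Set.finite_univ.prod (Set.finite_Iio m)).image _

theorem kst_ncard (m : ℕ) : (kst m).ncard ≤ 9 * m + 4 := by
  have c1 : (Set.Iio m).ncard = m := by simp [Set.ncard_eq_toFinset_card']
  have c2 : (Set.Iic m).ncard = m + 1 := by simp [Set.ncard_eq_toFinset_card']
  have c3 : ((Set.univ : Set Bool) ×ˢ Set.Iio m).ncard = 2 * m := by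
    rw [Set.ncard_prod, c1]
    congr 1
    simp
  have i1 : (WQ.yo '' Set.Iio m).ncard ≤ m :=
    (Set.ncard_image_le (Set.finite_Iio m)).trans c1.le
  have i2 : (WQ.xb '' Set.Iio m).ncard ≤ m :=
    (Set.ncard_image_le (Set.finite_Iio m)).trans c1.le
  have i3 : (WQ.rt '' Set.Iic m).ncard ≤ m + 1 :=
    (Set.ncard_image_le (Set.finite_Iic m)).trans c2.le
  have i4 : ((fun p : Bool × ℕ => WQ.yb p.1 p.2) '' (Set.univ ×ˢ Set.Iio m)).ncard ≤ 2 * m :=
    (Set.ncard_image_le (Set.finite_univ.prod (Set.finite_Iio m))).trans c3.le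
  have i5 : ((fun p : Bool × ℕ => WQ.lf p.1 p.2) '' (Set.univ ×ˢ Set.Iio m)).ncard ≤ 2 * m :=
    (Set.ncard_image_le (Set.finite_univ.prod (Set.finite_Iio m))).trans c3.le
  have i6 : ((fun p : Bool × ℕ => WQ.xo p.1 p.2) '' (Set.univ ×ˢ Set.Iio m)).ncard ≤ 2 * m :=
    (Set.ncard_image_le (Set.finite_univ.prod (Set.finite_Iio m))).trans c3.le
  have i7 : ({.scan, .mid, .fin} : Set WQ).ncard ≤ 3 := by
    refine (Set.ncard_insert_le _ _).trans ?_
    have := Set.ncard_insert_le WQ.mid ({.fin} : Set WQ)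
    simp at this ⊢
  unfold kst
  refine (Set.ncard_union_le _ _).trans ?_
  have j1 := Set.ncard_union_le (({.scan, .mid, .fin} : Set WQ) ∪ WQ.yo '' Set.Iio m)
    (WQ.xb '' Set.Iio m ∪ WQ.rt '' Set.Iic m)
  have j2 := Set.ncard_union_le ({.scan, .mid, .fin} : Set WQ) (WQ.yo '' Set.Iio m)
  have j3 := Set.ncard_union_le (WQ.xb '' Set.Iio m) (WQ.rt '' Set.Iic m)
  have j4 := Set.ncard_union_le ((fun p : Bool × ℕ => WQ.yb p.1 p.2) ''
    (Set.univ ×ˢ Set.Iio m)) ((fun p : Bool × ℕ => WQ.lf p.1 p.2) ''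
    (Set.univ ×ˢ Set.Iio m) ∪ (fun p : Bool × ℕ => WQ.xo p.1 p.2) ''
    (Set.univ ×ˢ Set.Iio m))
  have j5 := Set.ncard_union_le ((fun p : Bool × ℕ => WQ.lf p.1 p.2) ''
    (Set.univ ×ˢ Set.Iio m)) ((fun p : Bool × ℕ => WQ.xo p.1 p.2) ''
    (Set.univ ×ˢ Set.Iio m))
  omega

theorem kst_closed (m : ℕ) (hm : 1 ≤ m) : ∀ q ∈ kst m, ∀ s,
    ∀ x ∈ (km m).δ q s, x.1 ∈ kst m := by
  intro q hq s x hx
  have hx' : ktr1 m q s = some x ∨ ktr2 q s = some x := hx
  clear hx
  rcases q with _ | _ | _ | (_ | i) | ⟨e, i⟩ | ⟨e, i⟩ | ⟨e, (_ | i)⟩ | i | i <;>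
    rcases s with (b | _ | _) | _ | _ | _ <;>
    simp only [ktr1, ktr2, mem_yo, mem_xb, mem_rt, mem_yb, mem_lf, mem_xo, reduceCtorEq,
      or_false, or_self, Option.some.injEq] at hx' hq <;>
    (try split_ifs at hx') <;>
    (try simp only [Option.some.injEq] at hx') <;>
    (try (rcases hx' with hx' | hx')) <;>
    (try subst hx') <;>
    (try simp only [mem_scan, mem_mid, mem_fin, mem_yo, mem_xb, mem_rt, mem_yb, mem_lf,
      mem_xo]) <;>
    (try omega)

/-- a first choice writes the symbol it reads (except at the right end) and keeps away from `scan` -/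
theorem ktr1_write (m : ℕ) (q : WQ) (s : Sym WA Unit) (x : WQ × (WA ⊕ Unit) × Bool)
    (h : ktr1 m q s = some x) (hs : s ≠ Sym.rend) : Sym.ofW x.2.1 = s := by
  rcases q with _ | _ | _ | (_ | i) | ⟨e, i⟩ | ⟨e, i⟩ | ⟨e, (_ | i)⟩ | i | i <;>
    rcases s with (b | _ | _) | _ | _ | _ <;>
    simp only [ktr1, reduceCtorEq, Option.some.injEq, ne_eq, not_true_eq_false] at h hs <;>
    (try split_ifs at h) <;>
    (try simp only [Option.some.injEq] at h) <;>
    (try subst h) <;>
    (try rfl)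

theorem ktr1_scan (m : ℕ) (q : WQ) (s : Sym WA Unit) (x : WQ × (WA ⊕ Unit) × Bool)
    (h : ktr1 m q s = some x) (hs : x.1 = WQ.scan) : q = WQ.scan ∧ x.2.2 = true ∧ s ≠ Sym.rend := by
  rcases q with _ | _ | _ | (_ | i) | ⟨e, i⟩ | ⟨e, i⟩ | ⟨e, (_ | i)⟩ | i | i <;>
    rcases s with (b | _ | _) | _ | _ | _ <;>
    simp only [ktr1, reduceCtorEq, Option.some.injEq] at h <;>
    (try split_ifs at h) <;>
    (try simp only [Option.some.injEq] at h) <;>
    (try subst h) <;>
    simp_all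

theorem ktr2_eq (q : WQ) (s : Sym WA Unit) (x : WQ × (WA ⊕ Unit) × Bool)
    (h : ktr2 q s = some x) : q = WQ.scan ∧ s = Sym.inp WA.s ∧ x = (WQ.mid, Sum.inr (), true) := by
  rcases q with _ | _ | _ | (_ | i) | ⟨e, i⟩ | ⟨e, i⟩ | ⟨e, (_ | i)⟩ | i | i <;>
    rcases s with (b | _ | _) | _ | _ | _ <;>
    simp only [ktr2, reduceCtorEq, Option.some.injEq] at h
  exact ⟨rfl, rfl, h.symm⟩

/-- the tape symbols of the initial tape inside the input are letters -/
theorem init_inp (m : ℕ) (w : List WA) {j : ℕ} (h1 : 1 ≤ j) (h2 : j ≤ w.length) :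
    ∃ a, (km m).initTape w j = Sym.inp a := by
  unfold Mach.initTape
  rw [if_neg (by omega), List.getElem?_eq_getElem (by omega : j - 1 < w.length)]
  exact ⟨_, rfl⟩

/-- what is true during a computation -/
def Inv (m : ℕ) (w : List WA) (c : (km m).Cfg) : Prop :=
  (c.st = WQ.scan → c.tape = (km m).initTape w ∧ ∀ j ∈ c.seen, j < c.pos) ∧
    ∃ g, (∀ j, j ≠ g → c.tape j = (km m).initTape w j) ∧
      (c.tape g = (km m).initTape w g ∨ c.tape g = Sym.wrk ())

theorem not_rend {m : ℕ} {w : List WA} {c : (km m).Cfg} (h : Inv m w c) {j : ℕ} (h1 : 1 ≤ j)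
    (h2 : j ≤ w.length) : c.tape j ≠ Sym.rend := by
  obtain ⟨_, g, hg1, hg2⟩ := h
  obtain ⟨a, ha⟩ := init_inp m w h1 h2
  by_cases hj : j = g
  · subst hj
    rcases hg2 with h3 | h3
    · rw [h3, ha]; simp
    · rw [h3]; simp
  · rw [hg1 j hj, ha]; simp

theorem inv_step {m : ℕ} {cv : Bool} {w : List WA} {c c' : (km m).Cfg} (hi : Inv m w c)
    (hs : (km m).Step cv w.length c c') : Inv m w c' := by
  obtain ⟨hp, x, d, hx, _, hpos, hw, hnw, hseen⟩ := hs
  have hx' : ktr1 m c.st (c.tape c.pos) = some (c'.st, x, d) ∨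
      ktr2 c.st (c.tape c.pos) = some (c'.st, x, d) := hx
  rcases hx' with h1 | h2
  · -- first choice: the tape does not change
    have htape : c'.tape = c.tape := by
      by_cases hc : 1 ≤ c.pos ∧ c.pos ≤ w.length ∧ c.pos ∉ c.seen
      · rw [hw hc]
        have h3 := ktr1_write m _ _ _ h1 (not_rend hi hc.1 hc.2.1)
        simp only at h3
        rw [h3]
        exact Function.update_eq_self _ _
      · exact (hnw hc).1
    refine ⟨?_, ?_⟩
    · intro hst
      obtain ⟨hq, hd, _⟩ := ktr1_scan m _ _ _ h1 hst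
      simp only at hd
      obtain ⟨ht, hse⟩ := hi.1 hq
      refine ⟨htape.trans ht, ?_⟩
      intro j hj
      rw [hpos, if_pos hd]
      rw [hseen] at hj
      rcases hj with hj | hj
      · omega
      · have := hse j hj
        omega
    · obtain ⟨_, g, hg1, hg2⟩ := hi
      rw [htape]
      exact ⟨g, hg1, hg2⟩
  · obtain ⟨hq, hsym, hxe⟩ := ktr2_eq _ _ _ h2
    have hst : c'.st = WQ.mid := congrArg (fun t => t.1) hxe
    have hxx : x = Sum.inr () := congrArg (fun t => t.2.1) hxe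
    obtain ⟨ht, hse⟩ := hi.1 hq
    refine ⟨fun h => by simp [hst] at h, ?_⟩
    by_cases hc : 1 ≤ c.pos ∧ c.pos ≤ w.length ∧ c.pos ∉ c.seen
    · refine ⟨c.pos, ?_, ?_⟩
      · intro j hj
        rw [hw hc, Function.update_of_ne hj, ht]
      · right
        rw [hw hc, Function.update_self, hxx]
        rfl
    · refine ⟨c.pos, ?_, ?_⟩
      · intro j _
        rw [(hnw hc).1, ht]
      · left
        rw [(hnw hc).1, ht]

theorem inv_reach {m : ℕ} {cv : Bool} {w : List WA} {c : (km m).Cfg}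
    (h : Reach (km m) cv w c) : Inv m w c := by
  induction h with
  | refl =>
    exact ⟨fun _ => ⟨rfl, fun j hj => absurd hj (Set.notMem_empty j)⟩, 0, fun _ _ => rfl,
      Or.inl rfl⟩
  | tail _ hbc ih => exact inv_step ih hbc

theorem few_km (m : ℕ) (cv : Bool) (k : ℕ) (hk : 1 ≤ k) : FewWrites (km m) cv k := by
  intro w c hr
  have hi := inv_reach hr
  have hi' := hi
  obtain ⟨h1, g, hg1, hg2⟩ := hi
  have hsub : {j | c.tape j ≠ (km m).initTape w j} ⊆ {g} := by
    intro j hj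
    by_contra hne
    exact hj (hg1 j hne)
  refine ⟨(Set.finite_singleton g).subset hsub, ?_, ?_⟩
  · have h2 := Set.ncard_le_ncard hsub (Set.finite_singleton g)
    rw [Set.ncard_singleton] at h2
    omega
  · intro hseen hp1 hp2 q x d hx _
    have hx' : ktr1 m c.st (c.tape c.pos) = some (q, x, d) ∨
      ktr2 c.st (c.tape c.pos) = some (q, x, d) := hx
    rcases hx' with h3 | h3
    · exact ktr1_write m _ _ _ h3 (not_rend hi' hp1 hp2)
    · obtain ⟨hq, _, _⟩ := ktr2_eq _ _ _ h3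
      exact absurd ((h1 hq).2 _ hseen) (by omega)

end WitAAux

open WitAAux in
theorem kexists_small (m : ℕ) (hm : 1 ≤ m) :
    ∃ M : LA WA, (∀ cv, M.toMach.lang cv = (km m).lang cv) ∧ M.toMach.size ≤ 1000 * m ∧
      ∀ (cv : Bool) (k : ℕ), 1 ≤ k → FewWrites M.toMach cv k := by
  have hI : (km m).qI ∈ kst m := mem_scan m
  let M' : Mach WA := (km m).restrict (kst m) hI
  have fQ : Finite M'.Q := (kst_finite m).to_subtype
  have fW : Finite M'.W := inferInstanceAs (Finite Unit)
  refine ⟨⟨M', fQ, fW⟩, ?_, ?_, ?_⟩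
  · intro cv
    exact Mach.restrict_lang _ cv _ hI (kst_closed m hm)
  · show M'.size ≤ _
    let eA : WA ≃ Option (Option Bool) :=
      { toFun := fun a => match a with
          | .b c => some (some c)
          | .s => some none
          | .h => none
        invFun := fun a => match a with
          | some (some c) => .b c
          | some none => .s
          | none => .h
        left_inv := fun a => by rcases a with c | _ | _ <;> rfl
        right_inv := fun a => by rcases a with _ | (_ | c) <;> rfl }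
    have fA : Finite WA := Finite.of_equiv _ eA.symm
    have hA : Nat.card WA = 4 := by
      rw [Nat.card_congr eA]
      simp
    have hS : Nat.card (Sym WA M'.W) = 7 := by
      have : Nat.card (Sym WA Unit) = 7 := by
        rw [card_sym, hA]
        simp
      exact this
    have hQ : Nat.card M'.Q = (kst m).ncard := rfl
    have hF : M'.F.ncard ≤ Nat.card M'.Q := Set.ncard_le_card M'.F
    have fS : Finite (Sym WA M'.W) := by
      apply Nat.finite_of_card_ne_zero
      rw [hS]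
      norm_num
    have hT : Nat.card {t : (M'.Q × Sym WA M'.W) ×
        (M'.Q × (WA ⊕ M'.W) × Bool) // t.2 ∈ M'.δ t.1.1 t.1.2} ≤
        Nat.card ((M'.Q × Sym WA M'.W) × Bool) := by
      classical
      refine Nat.card_le_card_of_injective
        (fun t => (t.1.1, decide (ktr1 m t.1.1.1.1 t.1.1.2 = some (t.1.2.1.1, t.1.2.2)))) ?_
      rintro ⟨⟨⟨q, s⟩, ⟨r, y⟩⟩, h⟩ ⟨⟨⟨q', s'⟩, ⟨r', y'⟩⟩, h'⟩ heq
      simp only [Prod.mk.injEq] at heq
      obtain ⟨⟨rfl, rfl⟩, hd⟩ := heq
      have h1 : ktr1 m q.1 s = some (r.1, y) ∨ ktr2 q.1 s = some (r.1, y) := h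
      have h2 : ktr1 m q.1 s = some (r'.1, y') ∨ ktr2 q.1 s = some (r'.1, y') := h'
      have h3 : (ktr1 m q.1 s = some (r.1, y)) ↔ (ktr1 m q.1 s = some (r'.1, y')) := by
        simpa using hd
      have h4 : (r.1, y) = (r'.1, y') := by
        by_cases hc : ktr1 m q.1 s = some (r.1, y)
        · have := h3.1 hc
          rw [hc] at this
          exact Option.some.inj this
        · have hc' : ¬ ktr1 m q.1 s = some (r'.1, y') := fun h => hc (h3.2 h)
          have a1 := h1.resolve_left hc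
          have a2 := h2.resolve_left hc'
          rw [a1] at a2
          exact Option.some.inj a2
      have h5 : r = r' := Subtype.ext (congrArg Prod.fst h4)
      have h6 : y = y' := congrArg Prod.snd h4
      subst h5 h6
      rfl
    rw [Nat.card_prod, Nat.card_prod, hS] at hT
    have hB : Nat.card Bool = 2 := by simp
    rw [hB] at hT
    have hK := kst_ncard m
    unfold Mach.size
    rw [hA, hS]
    rw [hQ] at hT hF ⊢
    omega
  · intro cv k hk w c hr
    have key : ∀ c : M'.Cfg, Reach M' cv w c →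
        Reach (km m) cv w ⟨c.st.1, c.pos, c.tape, c.seen⟩ := by
      intro c hr
      let φ : M'.Cfg → (km m).Cfg := fun c => ⟨c.st.1, c.pos, c.tape, c.seen⟩
      have : ReflTransGen ((km m).Step cv w.length) (φ (M'.init w)) (φ c) := by
        refine ReflTransGen.lift φ ?_ _ _ hr
        rintro a b ⟨h1, x, d, h2, h3, h4, h5, h6, h7⟩
        exact ⟨h1, x, d, h2, h3, h4, h5, h6, h7⟩
      exact this
    obtain ⟨h1, h2, h3⟩ := few_km m cv k hk w _ (key c hr)
    refine ⟨h1, h2, ?_⟩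
    intro hs hp1 hp2 q x d hx hok
    exact h3 hs hp1 hp2 q.1 x d hx hok

end Pool.Agent.P0036f5k
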