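import Pool.Agent.Lib.P0036f5k.WitB
import Pool.Agent.Lib.P0036f5v2.Lower

/-!
# K11c: lower bound for deterministic machines

As `det_lower` in `Pool.Agent.Lib.P0036f5v2.Lower`: use `Mach.card_le_of_residuals` with
`ι` = the subsets of the finite set of the `2 ^ m` lists of length `m` (e.g. `Set (Fin m → Bool)` or
`Finset (Fin m → Bool)`, which has `2 ^ 2 ^ m` elements), `f X = wX (list of the elements of X)`; two
different sets are distinguished by `v = wY y` for some `y` (by `km_mem`).  With `K = Nat.card D.Q`: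
`2 ^ 2 ^ m ≤ 2 ^ (K * K) * K + 1 ≤ 2 ^ (K * K + K + 1)`, so `2 ^ m ≤ K * K + K + 1 ≤ (K + 1) ^ 2`, and
`K + 1 ≤ D.toMach.size`.
-/

set_option autoImplicit false

namespace Pool.Agent.P0036f5k

open Relation Pool.Agent.P0036f5v2 Pool.Agent.P0036f5g

theorem kdet_lower (m : ℕ) (hm : 1 ≤ m) (D : LA WA) (hD : D.toMach.Det) (cv : Bool)
    (hL : D.toMach.lang cv = (km m).lang cv) : 2 ^ m ≤ D.toMach.size ^ 2 := by
  have fQ := D.finQ
  have fW := D.finW
  have hlen : ∀ (X : Finset (Fin m → Bool)), ∀ x ∈ X.toList.map List.ofFn, x.length = m := by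
    intro X x hx
    obtain ⟨t, _, rfl⟩ := List.mem_map.1 hx
    exact List.length_ofFn
  have hmem : ∀ (X : Finset (Fin m → Bool)) (t : Fin m → Bool),
      wX (X.toList.map List.ofFn) ++ wY (List.ofFn t) ∈ (km m).lang cv ↔ t ∈ X := by
    intro X t
    rw [km_mem m hm cv _ (hlen X) _ List.length_ofFn, List.mem_map]
    constructor
    · rintro ⟨s, hs, h⟩
      rw [← List.ofFn_injective h]
      exact Finset.mem_toList.1 hs
    · intro h
      exact ⟨t, Finset.mem_toList.2 h, rfl⟩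
  have h := D.toMach.card_le_of_residuals cv hD
    (ι := Finset (Fin m → Bool)) (fun X => wX (X.toList.map List.ofFn)) (by
      intro X Y hne
      obtain ⟨t, ht⟩ : ∃ t, ¬ (t ∈ X ↔ t ∈ Y) := by
        by_contra hcon
        push Not at hcon
        exact hne (Finset.ext hcon)
      refine ⟨wY (List.ofFn t), ?_⟩
      rw [hL, hmem, hmem]
      exact ht)
  have hcard : Nat.card (Finset (Fin m → Bool)) = 2 ^ 2 ^ m := by
    simp
  rw [hcard] at h
  set k := Nat.card D.Q with hk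
  have hsz : k + 1 ≤ D.toMach.size := by
    unfold Mach.size
    omega
  have h1 : 2 ^ (k * k) * k + 1 ≤ 2 ^ (k * k + k + 1) := by
    have h2 : k ≤ 2 ^ k := Nat.lt_two_pow_self.le
    have h3 : 2 ^ (k * k + k + 1) = 2 ^ (k * k) * 2 ^ k + 2 ^ (k * k) * 2 ^ k := by ring
    have h4 : 2 ^ (k * k) * k ≤ 2 ^ (k * k) * 2 ^ k := Nat.mul_le_mul_left _ h2
    have h5 : 1 ≤ 2 ^ (k * k) * 2 ^ k := Nat.mul_pos (by positivity) (by positivity)
    omega
  have h6 : 2 ^ m ≤ k * k + k + 1 := (Nat.pow_le_pow_iff_right (by norm_num)).1 (h.trans h1)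
  calc 2 ^ m ≤ k * k + k + 1 := h6
    _ ≤ (k + 1) ^ 2 := by nlinarith
    _ ≤ D.toMach.size ^ 2 := Nat.pow_le_pow_left hsz 2

end Pool.Agent.P0036f5k
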