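import Pool.Agent.Lib.P0036f5k.Prog
import Pool.Agent.Lib.P0036f5k.Codes
import Pool.Agent.Lib.P0036f5k.Num
import Pool.Agent.Lib.P0036f5k.Sim
import Pool.Agent.Lib.P0036f5k.WitA
import Pool.Agent.Lib.P0036f5k.WitC

/-!
# The main theorem
-/

set_option autoImplicit false

namespace Pool.Agent.P0036f5k

open Relation Pool.Agent.P0036f5v2 Pool.Agent.P0036f5w Pool.Agent.P0036f5g

/-- Determinisation of the language of a local system with at most `k` marks. -/
theorem upper_ls {A P M : Type} [Finite A] [Finite P] [Finite M] (S : LS A P M) (k n : ℕ)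
    (hn : 4 ≤ n) (hP : Nat.card P ≤ (k + 1) * n) (hA : Nat.card A ≤ n) (hM : Nat.card M ≤ n) :
    ∃ D : LA A, D.toMach.Det ∧ (∀ cv, D.toMach.lang cv = Lk S k) ∧
      D.toMach.size ≤ 2 ^ (300 * (k + 1) ^ 2 * n) := by
  have nP : Nonempty P := ⟨S.p0⟩
  have hP0 : 0 < Nat.card P := Nat.card_pos
  have hK : 2 * Nat.card P ≤ 2 * ((k + 1) * n) := by omega
  obtain ⟨κ, hκ, hsz⟩ := num_main (k := k) (n := n) (K := 2 * Nat.card P) (a := Nat.card A)
    (μ := Nat.card M) hn hK hA hM
  obtain ⟨ρ, π, h1, h2, h3⟩ := exists_enum P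
  obtain ⟨info, h4, h5⟩ := exists_info P k
  obtain ⟨dec, h6⟩ := exists_codes M (2 * BK (3 * ((k + 1) * n)) (2 * Nat.card P)) k
  let Z : Par A P M := ⟨S, k, 3 * ((k + 1) * n), 2 * Nat.card P, ρ, π, info, dec, κ, Nat.card M⟩
  have hZ : Z.Ok := ⟨by show 0 < 2 * Nat.card P; omega, h1, h2, h3, h4, h5, h6, hκ, num_N hn hK⟩
  obtain ⟨D, hD, hL, hs⟩ := Par.exists_det hZ
  exact ⟨D, hD, hL, hs.trans hsz⟩

/-- A machine of size at most `n` that changes at most `k` cells has an equivalent deterministic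
1-limited automaton of size at most `2 ^ (300 (k + 1) ^ 2 n)`. -/
theorem upper_few {A : Type} [Finite A] (M : LA A) (cv : Bool) (k n : ℕ)
    (hM : FewWrites M.toMach cv k) (hn : 4 ≤ n) (hs : M.toMach.size ≤ n) :
    ∃ D : LA A, D.toMach.Det ∧ (∀ cv', D.toMach.lang cv' = M.toMach.lang cv) ∧
      D.toMach.size ≤ 2 ^ (300 * (k + 1) ^ 2 * n) := by
  have fQ := M.finQ
  have fW := M.finW
  have hc := card_sym A M.W
  have hsize : Nat.card M.Q + Nat.card A + Nat.card (Sym A M.W) ≤ n := by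
    refine le_trans ?_ hs
    unfold Mach.size
    omega
  have hQ : Nat.card M.Q ≤ n := by omega
  obtain ⟨D, hD, hL, hsz⟩ := upper_ls (ls M.toMach k) k n hn (by
      rw [Nat.card_prod, Nat.card_eq_fintype_card (α := Fin (k + 1)), Fintype.card_fin,
        Nat.mul_comm]
      exact Nat.mul_le_mul_left _ hQ) (by omega) (by
      rw [Nat.card_sum]
      omega)
  exact ⟨D, hD, fun cv' => by rw [hL cv', mach_lang M.toMach cv k hM], hsz⟩

theorem costsFew_le {cv : Bool} {k n s : ℕ} (hn : 4 ≤ n)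
    (h : s ∈ costsFor (fun _ M => FewWrites M cv k) cv n) : s ≤ 2 ^ (300 * (k + 1) ^ 2 * n) := by
  obtain ⟨A, fA, M, hM, hs, hl⟩ := h
  obtain ⟨D, hD, hL, hsz⟩ := upper_few M cv k n hM hn hs
  exact (hl.2 ⟨D, hD, hL cv, rfl⟩).trans hsz

theorem exists_costFew {A : Type} [Finite A] (M : LA A) (cv : Bool) {k n : ℕ} (hn : 4 ≤ n)
    (hM : FewWrites M.toMach cv k) (hs : M.toMach.size ≤ n) :
    ∃ s ∈ costsFor (fun _ M => FewWrites M cv k) cv n, ∃ D : LA A, D.toMach.Det ∧
      D.toMach.lang cv = M.toMach.lang cv ∧ D.toMach.size = s := by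
  have hne : {t | ∃ D : LA A, D.toMach.Det ∧ D.toMach.lang cv = M.toMach.lang cv ∧
      D.toMach.size = t}.Nonempty := by
    obtain ⟨D, hD, hL, _⟩ := upper_few M cv k n hM hn hs
    exact ⟨_, D, hD, hL cv, rfl⟩
  exact ⟨sInf _, ⟨A, ‹_›, M, hM, hs, Nat.sInf_mem hne, fun t ht => Nat.sInf_le ht⟩,
    Nat.sInf_mem hne⟩

theorem fewWrites_trivial (cv : Bool) (k : ℕ) :
    FewWrites (⟨Unit, Empty, fun _ _ => ∅, (), ∅⟩ : Mach Empty) cv k := by
  intro w c hc
  have h : c = (⟨Unit, Empty, fun _ _ => ∅, (), ∅⟩ : Mach Empty).init w := by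
    induction hc with
    | refl => rfl
    | tail _ h2 _ =>
      obtain ⟨-, x, d, h3, -⟩ := h2
      exact absurd h3 (Set.notMem_empty _)
  subst h
  have h0 : {j | ((⟨Unit, Empty, fun _ _ => ∅, (), ∅⟩ : Mach Empty).init w).tape j ≠
      (⟨Unit, Empty, fun _ _ => ∅, (), ∅⟩ : Mach Empty).initTape w j} = ∅ := by
    ext j
    simp [Mach.init]
  rw [h0]
  refine ⟨Set.finite_empty, ?_, ?_⟩
  · rw [Set.ncard_empty]
    exact Nat.zero_le _
  · intro h1
    exact absurd h1 (Set.notMem_empty _)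

theorem finite_WA : Finite WA := by
  refine Finite.of_injective (β := Option (Option Bool))
    (fun a => match a with
      | .b c => some (some c)
      | .s => some none
      | .h => none) ?_
  rintro (_ | _ | _) (_ | _ | _) h <;> simp_all

/-- The cost of determinising 1-limited automata that change at most `k` cells. -/
theorem main_few (cv : Bool) (k n : ℕ) (hn : 4 ≤ n) :
    ∃ d, IsGreatest (costsFor (fun _ M => FewWrites M cv k) cv n) d ∧
      d ≤ 2 ^ (300 * (k + 1) ^ 2 * n) ∧ (1 ≤ k → 2 ^ (n / 2000) ≤ d) := by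
  have hbdd : BddAbove (costsFor (fun _ M => FewWrites M cv k) cv n) :=
    ⟨_, fun s hs => costsFew_le hn hs⟩
  have hne : (costsFor (fun _ M => FewWrites M cv k) cv n).Nonempty := by
    let M : LA Empty := ⟨⟨Unit, Empty, fun _ _ => ∅, (), ∅⟩, inferInstance, inferInstance⟩
    have hM : M.toMach.size ≤ n := by
      have h1 : Nat.card M.toMach.Q = 1 := Nat.card_unique (α := Unit)
      have h2 : Nat.card (Sym Empty M.toMach.W) = 2 := by
        have := card_sym Empty Empty
        simpa using this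
      have h3 : Nat.card {t : (M.toMach.Q × Sym Empty M.toMach.W) ×
          (M.toMach.Q × (Empty ⊕ M.toMach.W) × Bool) // t.2 ∈ M.toMach.δ t.1.1 t.1.2} = 0 := by
        have : IsEmpty {t : (M.toMach.Q × Sym Empty M.toMach.W) ×
          (M.toMach.Q × (Empty ⊕ M.toMach.W) × Bool) // t.2 ∈ M.toMach.δ t.1.1 t.1.2} :=
          ⟨fun t => t.2⟩
        exact Nat.card_of_isEmpty
      have h4 : M.toMach.F.ncard = 0 := Set.ncard_empty _
      unfold Mach.size
      rw [h1, h2, h3, h4]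
      simp
      omega
    obtain ⟨s, hs, _⟩ := exists_costFew M cv (k := k) hn (fewWrites_trivial cv k) hM
    exact ⟨s, hs⟩
  have hmem := Nat.sSup_mem hne hbdd
  refine ⟨sSup _, ⟨hmem, fun s hs => le_csSup hbdd hs⟩, costsFew_le hn hmem, fun hk => ?_⟩
  rcases Nat.lt_or_ge n 2000 with hlt | hge
  · rw [Nat.div_eq_of_lt hlt, pow_zero]
    obtain ⟨A, fA, M, hM, hs', ⟨D, hD, hL, hs⟩, _⟩ := hmem
    rw [← hs]
    unfold Mach.size
    omega
  · have fWA := finite_WA
    have h1 : 1 ≤ n / 1000 := by omega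
    obtain ⟨M, hL, hsz, hF⟩ := kexists_small (n / 1000) h1
    obtain ⟨s, hs, D, hD, hL', hsize⟩ := exists_costFew M cv (k := k) (n := n) hn (hF cv k hk)
      (by omega)
    have h2 := kdet_lower (n / 1000) h1 D hD cv (by rw [hL', hL cv])
    have h3 : 2 ^ (n / 2000) ≤ s := by
      rw [hsize] at h2
      have h4 : (2 ^ (n / 2000)) ^ 2 ≤ s ^ 2 := by
        rw [← pow_mul]
        refine le_trans (Nat.pow_le_pow_right (by norm_num) ?_) h2
        omega
      exact (Nat.pow_le_pow_iff_left (by norm_num)).1 h4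
    exact h3.trans (le_csSup hbdd hs)

end Pool.Agent.P0036f5k
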