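import Pool.Agent.Lib.P0036f5k.Match

/-!
# K2a: tables and frontiers of segments, simple facts

Recall: nodes `Nd P = ℕ × Bool × P` (boundary, direction, state); `EC v i x y` is one move in the cell
`i` (from `x` to `y`); `RB v a b` = reflexive transitive closure of the moves in the cells
`a, …, b - 1`; `TB v a b x y = RB v a b (ent a b x) (ext a b y)`.

* `tb_single`: a move in the cell `i` starts at a boundary/direction `(i, true)` or `(i + 1, false)`
  and ends at `(i + 1, true)` or `(i, false)`; so no second move in the cell `i` can follow, and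
  `ent i (i+1) x ≠ ext i (i+1) y`; hence exactly one move.
* `rb_mono`: `ReflTransGen.mono`.
* `tb_congr`, `pm_congr`: the moves in `[a, b)` are the same.  (`rb_congr` for `RB` first.)
* `tb_shift`: the map `(i, d, p) ↦ (a + i, d, p)` on nodes is injective and maps moves of
  `fun i => v (a + i)` in `[b, c)` onto the moves of `v` in `[a + b, a + c)`; a path of `v` in
  `[a + b, a + c)` that starts at a boundary `≥ a` stays at boundaries `≥ a`.
* `pm_shift`: from `tb_shift` (same `src`, `tgt`); `HasPM` with an equivalent relation.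
-/

set_option autoImplicit false

namespace Pool.Agent.P0036f5k

open Relation

variable {P : Type}

namespace LocAAux

/-- shift of a node -/
def sh (a : ℕ) (x : Nd P) : Nd P := (a + x.1, x.2)

theorem sh_inj (a : ℕ) : Function.Injective (sh (P := P) a) := by
  rintro ⟨i, x⟩ ⟨j, y⟩ h
  simp only [sh, Prod.mk.injEq] at h
  obtain ⟨h1, h2⟩ := h
  have : i = j := by omega
  rw [this, h2]

theorem sh_ent (a b c : ℕ) (x : Bool × P) : sh a (ent b c x) = ent (a + b) (a + c) x := by
  unfold sh ent
  split_ifs <;> rfl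

theorem sh_ext (a b c : ℕ) (x : Bool × P) : sh a (ext b c x) = ext (a + b) (a + c) x := by
  unfold sh ext
  split_ifs <;> rfl

theorem ec_shift {v : ℕ → CR P} {a i : ℕ} {x y : Nd P} :
    EC (fun i => v (a + i)) i x y ↔ EC v (a + i) (sh a x) (sh a y) := by
  unfold EC sh
  constructor
  · rintro ⟨h1, h2, h3⟩
    refine ⟨?_, h2, ?_⟩
    · simp only
      rw [h1]
      split_ifs <;> omega
    · simp only
      rw [h3]
      split_ifs <;> omega
  · rintro ⟨h1, h2, h3⟩
    refine ⟨?_, h2, ?_⟩
    · simp only at h1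
      split_ifs at h1 ⊢ <;> omega
    · simp only at h3
      split_ifs at h3 ⊢ <;> omega

theorem rb_shift_mp {v : ℕ → CR P} {a b c : ℕ} {x y : Nd P}
    (h : RB (fun i => v (a + i)) b c x y) : RB v (a + b) (a + c) (sh a x) (sh a y) := by
  refine ReflTransGen.lift (sh a) ?_ _ _ h
  rintro x y ⟨i, h1, h2, h3⟩
  exact ⟨a + i, by omega, by omega, ec_shift.1 h3⟩

theorem rb_shift_mpr {v : ℕ → CR P} {a b c : ℕ} {x : Nd P} {z : Nd P}
    (h : RB v (a + b) (a + c) (sh a x) z) :
    ∃ y, z = sh a y ∧ RB (fun i => v (a + i)) b c x y := by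
  induction h with
  | refl => exact ⟨x, rfl, ReflTransGen.refl⟩
  | @tail z w _ hs ih =>
    obtain ⟨y, rfl, hy⟩ := ih
    obtain ⟨j, h1, h2, h3⟩ := hs
    obtain ⟨i, rfl⟩ : ∃ i, j = a + i := ⟨j - a, by omega⟩
    have hw : w = sh a (w.1 - a, w.2) := by
      unfold sh
      have h4 := h3.2.2
      have : a + (w.1 - a) = w.1 := by
        split_ifs at h4 <;> omega
      simp only [this]
    refine ⟨(w.1 - a, w.2), hw, hy.tail ⟨i, by omega, by omega, ?_⟩⟩
    rw [ec_shift, ← hw]
    exact h3

theorem rb_congr {v v' : ℕ → CR P} {a b : ℕ} (h : ∀ i, a ≤ i → i < b → v i = v' i)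
    {x y : Nd P} (hr : RB v a b x y) : RB v' a b x y := by
  refine ReflTransGen.mono ?_ _ _ hr
  rintro x y ⟨i, h1, h2, h3⟩
  refine ⟨i, h1, h2, ?_⟩
  unfold EC at h3 ⊢
  rw [← h i h1 h2]
  exact h3

end LocAAux

open LocAAux

theorem tb_single {v : ℕ → CR P} {i : ℕ} {x y : Bool × P} :
    TB v i (i + 1) x y ↔ v i x.2 y.1 y.2 := by
  unfold TB RB
  constructor
  · intro h
    rcases h.cases_head with h0 | ⟨z, ⟨j, hj1, hj2, hz⟩, hr⟩
    · exfalso
      unfold ent ext at h0
      rw [Prod.mk.injEq] at h0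
      obtain ⟨h1, h2⟩ := h0
      subst h2
      split_ifs at h1 <;> omega
    · have hji : j = i := by omega
      subst hji
      rcases hr.cases_head with h0 | ⟨z', ⟨j', hj1', hj2', hz'⟩, _⟩
      · have h1 : z.2 = y := by rw [h0]; rfl
        have h2 := hz.2.1
        rw [h1] at h2
        exact h2
      · exfalso
        have hji' : j' = j := by omega
        subst hji'
        have h1 := hz.2.2
        have h2 := hz'.1
        rw [h1] at h2
        split_ifs at h2 <;> omega
  · intro h
    refine ReflTransGen.single ⟨i, le_rfl, by omega, ?_⟩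
    refine ⟨rfl, h, rfl⟩

theorem rb_mono {v : ℕ → CR P} {a b a' b' : ℕ} (ha : a' ≤ a) (hb : b ≤ b') {x y : Nd P}
    (h : RB v a b x y) : RB v a' b' x y := by
  refine ReflTransGen.mono ?_ _ _ h
  rintro x y ⟨i, h1, h2, h3⟩
  exact ⟨i, by omega, by omega, h3⟩

theorem tb_congr {v v' : ℕ → CR P} {a b : ℕ} (h : ∀ i, a ≤ i → i < b → v i = v' i)
    {x y : Bool × P} : TB v a b x y ↔ TB v' a b x y :=
  ⟨fun hr => rb_congr h hr, fun hr => rb_congr (fun i h1 h2 => (h i h1 h2).symm) hr⟩

theorem pm_congr {v v' : ℕ → CR P} {a b : ℕ} (h : ∀ i, a ≤ i → i < b → v i = v' i) {X Y : Fr P} :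
    PM v a b X Y ↔ PM v' a b X Y := by
  have : TB v a b = TB v' a b := by
    funext x y
    exact propext (tb_congr h)
  unfold PM
  rw [this]

theorem tb_shift {v : ℕ → CR P} {a b c : ℕ} {x y : Bool × P} :
    TB (fun i => v (a + i)) b c x y ↔ TB v (a + b) (a + c) x y := by
  unfold TB
  rw [← sh_ent, ← sh_ext]
  constructor
  · exact rb_shift_mp
  · intro h
    obtain ⟨y', h1, h2⟩ := rb_shift_mpr h
    rw [sh_inj a h1]
    exact h2

theorem pm_shift {v : ℕ → CR P} {a b c : ℕ} {X Y : Fr P} :
    PM (fun i => v (a + i)) b c X Y ↔ PM v (a + b) (a + c) X Y := by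
  have : TB (fun i => v (a + i)) b c = TB v (a + b) (a + c) := by
    funext x y
    exact propext tb_shift
  unfold PM
  rw [this]

end Pool.Agent.P0036f5k
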