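import Pool.Agent.Lib.P0036f5k.Defs

/-!
# K5: decompositions into pieces

`pcs α ℓ lim h s u` decomposes `[u ℓ, (u + 2 ^ s) ℓ) ∩ [0, lim)`.

* Chain: `u * ℓ ≤ lim → Chn ℓ h (pcs α ℓ lim h s u) (u * ℓ) (min lim ((u + 2 ^ s) * ℓ))` by induction on
  `s` (`0 < ℓ`); with `Chn` of an appended list and of the singleton cells
  `raw (u ℓ), raw (u ℓ + 1), …`.  If `lim < (u + 2 ^ s) ℓ` the second half is `[]`.
  `chn_finP`: `min h (2 * 2 ^ mx * ℓ) = h`, then `rnd` from `h` to `h + 1`; if `h ≤ 2 ^ mx * ℓ` the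
  second list is `[]`.
* Validity (for `2 ^ s ∣ u`, `s ≤ mx`, `lim ≤ h`, `ℓ = (mx + 1) * (K * K)`): for `blk s (u + 2 ^ s)`:
  `2 ^ s ∣ u + 2 ^ s`, and `(u + 2 ^ s) ℓ + (s + 1) K ^ 2 ≤ (u + 2 ^ s + 1) ℓ ≤ h` by `gd`.
* Length.  Let `nb s u` be the number of `v ∈ [u, u + 2 ^ s)` with `v ℓ < lim` and `¬ gd α ℓ lim h 0 v`
  (bad slots).  Suppose (H) every `v < U` with `v ℓ < lim` that is not bad has `(v + 1) ℓ < lim` or
  `v + 1 = U` (here `U = 2 ^ mx` for `blkP` and `U = 2 * 2 ^ mx` for `finP`).  Then for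
  `u + 2 ^ s ≤ U`: `(pcs … s u).length ≤ 1 + nb s u * (s + ℓ)`.
  Induction: `s = 0`: length `0`, `1`, or (bad) `≤ ℓ`.  Step: if not `gd` (and `u ℓ < lim`) then
  `nb (s + 1) u ≥ 1`: otherwise all slots of the interval are active by (H) and not bad, so there are
  no annotations in `[u ℓ, (u + 2 ^ (s+1)) ℓ)` and the last slot gives the two inequalities of `gd`,
  a contradiction.  So the length is
  `≤ 1 + nb₁ (s + ℓ) + 1 + nb₂ (s + ℓ) ≤ 1 + nb (s + 1 + ℓ)`.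
  `blkP`: (H) is clear, `lim = 2 ^ mx ℓ`; `v < 2 ^ mx` is bad only if one of the cells of the slot
  is annotated (`(v + 1) ℓ ≤ lim` and `(v + 2) ℓ ≤ (2 ^ mx + 1) ℓ ≤ h`), so `nb ≤ cnt α (2 ^ mx ℓ) ≤ k`
  (choose an annotated cell in every bad slot: an injection).
  `finP` (`lim = h`): (H) holds since `¬` bad gives `(v + 2) ℓ ≤ h`.  A bad active slot `v` contains an
  annotated cell `o < h`, or `(v + 2) ℓ > h > v ℓ`, which holds for at most two `v`; so the two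
  numbers of bad slots add up to at most `k + 2`, and the length is
  `≤ 2 + (k + 2) (mx + ℓ) + 1`.
-/

set_option autoImplicit false

namespace Pool.Agent.P0036f5k

variable {M : Type}

namespace PiecesAux

private theorem chn_append {ℓ h : ℕ} : ∀ (l1 : List Pc) {l2 : List Pc} {a b c : ℕ},
    Chn ℓ h l1 a b → Chn ℓ h l2 b c → Chn ℓ h (l1 ++ l2) a c
  | [], _, _, _, _, h1, h2 => by
    have h3 : _ = _ := h1
    subst h3
    exact h2
  | _ :: l1, _, _, _, _, h1, h2 => ⟨h1.1, h1.2.1, chn_append l1 h1.2.2 h2⟩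

private theorem chn_raw (ℓ h a : ℕ) : ∀ n : ℕ,
    Chn ℓ h ((List.range n).map fun c => Pc.raw (a + c)) a (a + n)
  | 0 => rfl
  | n + 1 => by
    rw [List.range_succ, List.map_append]
    refine chn_append _ (chn_raw ℓ h a n) ?_
    exact ⟨rfl, Nat.lt_succ_self _, rfl⟩

private theorem pcs_nil (α : ℕ → Option M) {ℓ lim h s u : ℕ} (hu : lim ≤ u * ℓ) :
    pcs α ℓ lim h s u = [] := by
  cases s with
  | zero => rw [pcs, if_pos hu]
  | succ s => rw [pcs, if_pos hu]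

private theorem chn_blk {α : ℕ → Option M} {ℓ lim h s u : ℕ} (hℓ : 0 < ℓ)
    (hg : gd α ℓ lim h s u) :
    Chn ℓ h [Pc.blk s (u + 2 ^ s)] (u * ℓ) (min lim ((u + 2 ^ s) * ℓ)) := by
  refine ⟨?_, ?_, ?_⟩
  · change (u + 2 ^ s - 2 ^ s) * ℓ = u * ℓ
    rw [Nat.add_sub_cancel]
  · change u * ℓ < (u + 2 ^ s) * ℓ
    exact Nat.mul_lt_mul_of_pos_right (Nat.lt_add_of_pos_right (by positivity)) hℓ
  · change (u + 2 ^ s) * ℓ = min lim ((u + 2 ^ s) * ℓ)
    rw [min_eq_right hg.2.1]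

private theorem chn_pcs (α : ℕ → Option M) {ℓ lim h : ℕ} (hℓ : 0 < ℓ) : ∀ s u : ℕ, u * ℓ ≤ lim →
    Chn ℓ h (pcs α ℓ lim h s u) (u * ℓ) (min lim ((u + 2 ^ s) * ℓ)) := by
  intro s
  induction s with
  | zero =>
    intro u hu
    rw [pcs]
    split_ifs with h1 h2
    · change u * ℓ = min lim ((u + 2 ^ 0) * ℓ)
      have h3 : u * ℓ ≤ (u + 2 ^ 0) * ℓ := Nat.mul_le_mul_right _ (Nat.le_add_right _ _)
      have h4 : lim = u * ℓ := le_antisymm h1 hu
      rw [min_eq_left (h1.trans h3), h4]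
    · exact chn_blk hℓ h2
    · have h3 := chn_raw ℓ h (u * ℓ) (min ℓ (lim - u * ℓ))
      have h4 : u * ℓ + min ℓ (lim - u * ℓ) = min lim ((u + 2 ^ 0) * ℓ) := by
        rw [pow_zero, add_mul, one_mul]
        omega
      rw [h4] at h3
      exact h3
  | succ s ih =>
    intro u hu
    rw [pcs]
    split_ifs with h1 h2
    · change u * ℓ = min lim ((u + 2 ^ (s + 1)) * ℓ)
      have h3 : u * ℓ ≤ (u + 2 ^ (s + 1)) * ℓ := Nat.mul_le_mul_right _ (Nat.le_add_right _ _)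
      have h4 : lim = u * ℓ := le_antisymm h1 hu
      rw [min_eq_left (h1.trans h3), h4]
    · exact chn_blk hℓ h2
    · have h3 := ih u hu
      have e : u + 2 ^ (s + 1) = u + 2 ^ s + 2 ^ s := by rw [pow_succ]; ring
      by_cases h4 : (u + 2 ^ s) * ℓ ≤ lim
      · rw [min_eq_right h4] at h3
        have h5 := ih (u + 2 ^ s) h4
        rw [e]
        exact chn_append _ h3 h5
      · rw [not_le] at h4
        rw [pcs_nil α h4.le, List.append_nil]
        rw [min_eq_left h4.le] at h3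
        have h5 : (u + 2 ^ s) * ℓ ≤ (u + 2 ^ (s + 1)) * ℓ := by
          rw [e]
          exact Nat.mul_le_mul_right _ (Nat.le_add_right _ _)
        rw [min_eq_left (h4.le.trans h5)]
        exact h3

private theorem val_blk {α : ℕ → Option M} {ℓ K mx lim h s u : ℕ} (hℓ : ℓ = (mx + 1) * (K * K))
    (hs : s ≤ mx) (hu : 2 ^ s ∣ u) (hg : gd α ℓ lim h s u) :
    Val α ℓ K mx h (Pc.blk s (u + 2 ^ s)) := by
  refine ⟨hs, ?_, ?_, ?_, ?_⟩
  · exact Nat.dvd_add hu dvd_rfl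
  · have : 0 < 2 ^ s := by positivity
    omega
  · have h1 := hg.2.2
    have h2 : (s + 1) * (K * K) ≤ ℓ := by
      rw [hℓ]
      exact Nat.mul_le_mul_right _ (Nat.succ_le_succ hs)
    have h3 : (u + 2 ^ s + 1) * ℓ = (u + 2 ^ s) * ℓ + ℓ := by rw [add_mul, one_mul]
    rw [h3] at h1
    omega
  · intro o h1 h2
    rw [Nat.add_sub_cancel] at h1
    exact hg.1 o h1 h2

private theorem val_pcs (α : ℕ → Option M) {ℓ K mx lim h : ℕ} (hℓ : ℓ = (mx + 1) * (K * K))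
    (hl : lim ≤ h) : ∀ s u : ℕ, s ≤ mx → 2 ^ s ∣ u →
    ∀ p ∈ pcs α ℓ lim h s u, Val α ℓ K mx h p := by
  intro s
  induction s with
  | zero =>
    intro u hs hu p hp
    rw [pcs] at hp
    split_ifs at hp with h1 h2
    · exact absurd hp (List.not_mem_nil)
    · rw [List.mem_singleton] at hp
      rw [hp]
      exact val_blk hℓ hs hu h2
    · obtain ⟨c, hc, rfl⟩ := List.mem_map.1 hp
      rw [List.mem_range] at hc
      change u * ℓ + c < h
      omega
  | succ s ih =>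
    intro u hs hu p hp
    rw [pcs] at hp
    split_ifs at hp with h1 h2
    · exact absurd hp (List.not_mem_nil)
    · rw [List.mem_singleton] at hp
      rw [hp]
      exact val_blk hℓ hs hu h2
    · have h3 : 2 ^ s ∣ u := (pow_dvd_pow 2 (Nat.le_succ s)).trans hu
      rcases List.mem_append.1 hp with h4 | h4
      · exact ih u ((Nat.le_succ s).trans hs) h3 p h4
      · exact ih (u + 2 ^ s) ((Nat.le_succ s).trans hs) (Nat.dvd_add h3 dvd_rfl) p h4

open Classical in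
/-- the bad slots -/
private noncomputable def bad (α : ℕ → Option M) (ℓ lim h s u : ℕ) : Finset ℕ :=
  (Finset.Ico u (u + 2 ^ s)).filter fun v => v * ℓ < lim ∧ ¬ gd α ℓ lim h 0 v

private theorem mem_bad {α : ℕ → Option M} {ℓ lim h s u v : ℕ} :
    v ∈ bad α ℓ lim h s u ↔ (u ≤ v ∧ v < u + 2 ^ s) ∧ v * ℓ < lim ∧ ¬ gd α ℓ lim h 0 v := by
  classical
  unfold bad
  rw [Finset.mem_filter, Finset.mem_Ico]

private theorem bad_add (α : ℕ → Option M) (ℓ lim h s u : ℕ) :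
    (bad α ℓ lim h s u).card + (bad α ℓ lim h s (u + 2 ^ s)).card
      = (bad α ℓ lim h (s + 1) u).card := by
  classical
  have e : u + 2 ^ (s + 1) = u + 2 ^ s + 2 ^ s := by rw [pow_succ]; ring
  rw [← Finset.card_union_of_disjoint]
  · congr 1
    ext v
    rw [Finset.mem_union, mem_bad, mem_bad, mem_bad, e]
    constructor
    · rintro (⟨⟨h1, h2⟩, h3⟩ | ⟨⟨h1, h2⟩, h3⟩)
      · exact ⟨⟨h1, by omega⟩, h3⟩
      · exact ⟨⟨by omega, h2⟩, h3⟩
    · rintro ⟨⟨h1, h2⟩, h3⟩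
      by_cases h4 : v < u + 2 ^ s
      · exact Or.inl ⟨⟨h1, h4⟩, h3⟩
      · exact Or.inr ⟨⟨by omega, h2⟩, h3⟩
  · rw [Finset.disjoint_left]
    intro v h1 h2
    rw [mem_bad] at h1 h2
    omega

private theorem gd_of_bad {α : ℕ → Option M} {ℓ lim h U s u : ℕ} (hℓ : 0 < ℓ)
    (H : ∀ v, v < U → v * ℓ < lim → gd α ℓ lim h 0 v → (v + 1) * ℓ < lim ∨ v + 1 = U)
    (hU : u + 2 ^ s ≤ U) (hu : u * ℓ < lim) (hb : (bad α ℓ lim h s u).card = 0) :
    gd α ℓ lim h s u := by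
  rw [Finset.card_eq_zero] at hb
  have hg : ∀ v, u ≤ v → v < u + 2 ^ s → v * ℓ < lim → gd α ℓ lim h 0 v := by
    intro v h1 h2 h3
    by_contra h4
    have h5 : v ∈ bad α ℓ lim h s u := mem_bad.2 ⟨⟨h1, h2⟩, h3, h4⟩
    rw [hb] at h5
    exact absurd h5 (Finset.notMem_empty v)
  have hact : ∀ i, i < 2 ^ s → (u + i) * ℓ < lim := by
    intro i
    induction i with
    | zero => intro _; exact hu
    | succ i ih =>
      intro hi
      have h1 := ih (by omega)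
      rcases H (u + i) (by omega) h1 (hg (u + i) (by omega) (by omega) h1) with h2 | h2
      · exact h2
      · omega
  have hpos : 0 < 2 ^ s := by positivity
  refine ⟨?_, ?_, ?_⟩
  · intro o h1 h2
    have h3 : u ≤ o / ℓ := (Nat.le_div_iff_mul_le hℓ).2 h1
    have h4 : o / ℓ < u + 2 ^ s := (Nat.div_lt_iff_lt_mul hℓ).2 h2
    have h5 := hact (o / ℓ - u) (by omega)
    have h6 : u + (o / ℓ - u) = o / ℓ := by omega
    rw [h6] at h5
    refine (hg (o / ℓ) h3 h4 h5).1 o (Nat.div_mul_le_self o ℓ) ?_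
    rw [pow_zero, add_mul, one_mul]
    have h7 := Nat.div_add_mod o ℓ
    have h8 := Nat.mod_lt o hℓ
    rw [mul_comm] at h7
    omega
  · have h1 := hact (2 ^ s - 1) (by omega)
    have h2 := (hg (u + (2 ^ s - 1)) (by omega) (by omega) h1).2.1
    have h3 : u + (2 ^ s - 1) + 2 ^ 0 = u + 2 ^ s := by rw [pow_zero]; omega
    rwa [h3] at h2
  · have h1 := hact (2 ^ s - 1) (by omega)
    have h2 := (hg (u + (2 ^ s - 1)) (by omega) (by omega) h1).2.2
    have h3 : u + (2 ^ s - 1) + 2 ^ 0 + 1 = u + 2 ^ s + 1 := by rw [pow_zero]; omega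
    rwa [h3] at h2

private theorem length_pcs {α : ℕ → Option M} {ℓ lim h U : ℕ} (hℓ : 0 < ℓ)
    (H : ∀ v, v < U → v * ℓ < lim → gd α ℓ lim h 0 v → (v + 1) * ℓ < lim ∨ v + 1 = U) :
    ∀ s u : ℕ, u + 2 ^ s ≤ U →
      (pcs α ℓ lim h s u).length ≤ 1 + (bad α ℓ lim h s u).card * (s + ℓ) := by
  intro s
  induction s with
  | zero =>
    intro u hU
    rw [pcs]
    split_ifs with h1 h2
    · rw [List.length_nil]
      exact Nat.zero_le _
    · rw [List.length_singleton]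
      exact Nat.le_add_right _ _
    · rw [List.length_map, List.length_range, zero_add]
      have h3 : u ∈ bad α ℓ lim h 0 u := mem_bad.2 ⟨⟨le_rfl, by simp⟩, not_le.1 h1, h2⟩
      have h4 : 0 < (bad α ℓ lim h 0 u).card := Finset.card_pos.2 ⟨u, h3⟩
      have h5 : 1 * ℓ ≤ (bad α ℓ lim h 0 u).card * ℓ := Nat.mul_le_mul_right _ h4
      have h6 : min ℓ (lim - u * ℓ) ≤ ℓ := min_le_left _ _
      omega
  | succ s ih =>
    intro u hU
    have e : u + 2 ^ (s + 1) = u + 2 ^ s + 2 ^ s := by rw [pow_succ]; ring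
    rw [pcs]
    split_ifs with h1 h2
    · rw [List.length_nil]
      exact Nat.zero_le _
    · rw [List.length_singleton]
      exact Nat.le_add_right _ _
    · rw [List.length_append]
      have hp : 0 < 2 ^ s := by positivity
      have h3 := ih u (by omega)
      have h4 := ih (u + 2 ^ s) (by omega)
      have h5 := bad_add α ℓ lim h s u
      have h6 : 1 ≤ (bad α ℓ lim h (s + 1) u).card := by
        by_contra h7
        exact h2 (gd_of_bad hℓ H hU (not_le.1 h1) (by omega))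
      have h7 : (bad α ℓ lim h s u).card * (s + ℓ) + (bad α ℓ lim h s (u + 2 ^ s)).card * (s + ℓ)
          = (bad α ℓ lim h (s + 1) u).card * (s + ℓ) := by
        rw [← add_mul, h5]
      have h8 : (bad α ℓ lim h (s + 1) u).card * (s + 1 + ℓ)
          = (bad α ℓ lim h (s + 1) u).card * (s + ℓ) + (bad α ℓ lim h (s + 1) u).card := by
        ring
      omega

private theorem slot {ℓ v o : ℕ} (hℓ : 0 < ℓ) (h1 : v * ℓ ≤ o) (h2 : o < (v + 1) * ℓ) :
    o / ℓ = v := by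
  have h3 : v ≤ o / ℓ := (Nat.le_div_iff_mul_le hℓ).2 h1
  have h4 : o / ℓ < v + 1 := (Nat.div_lt_iff_lt_mul hℓ).2 h2
  omega

/-- a slot which is bad and not close to the right end contains an annotated cell -/
private theorem ann_of_bad {α : ℕ → Option M} {ℓ lim h v : ℕ} (hℓ : 0 < ℓ)
    (hg : ¬ gd α ℓ lim h 0 v) (h1 : (v + 1) * ℓ ≤ lim) (h2 : (v + 2) * ℓ ≤ h) :
    v ∈ ((Finset.range lim).filter fun o => (α o).isSome).image fun o => o / ℓ := by
  have h3 : ∃ o, v * ℓ ≤ o ∧ o < (v + 1) * ℓ ∧ α o ≠ none := by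
    by_contra h4
    refine hg ⟨?_, ?_, ?_⟩
    · intro o h5 h6
      by_contra h7
      exact h4 ⟨o, h5, h6, h7⟩
    · exact h1
    · exact h2
  obtain ⟨o, h4, h5, h6⟩ := h3
  rw [Finset.mem_image]
  refine ⟨o, ?_, slot hℓ h4 h5⟩
  rw [Finset.mem_filter, Finset.mem_range]
  refine ⟨h5.trans_le h1, ?_⟩
  cases hα : α o with
  | none => exact absurd hα h6
  | some m => rfl

private theorem bad_blk {α : ℕ → Option M} {ℓ mx h : ℕ} (hℓ : 0 < ℓ)
    (hh : (2 ^ mx + 1) * ℓ ≤ h) :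
    (bad α ℓ (2 ^ mx * ℓ) h mx 0).card ≤ cnt α (2 ^ mx * ℓ) := by
  unfold cnt
  refine (Finset.card_le_card ?_).trans (Finset.card_image_le (f := fun o => o / ℓ))
  intro v hv
  rw [mem_bad] at hv
  obtain ⟨⟨_, h1⟩, _, h3⟩ := hv
  rw [zero_add] at h1
  refine ann_of_bad hℓ h3 (Nat.mul_le_mul_right _ h1) ?_
  refine le_trans (Nat.mul_le_mul_right _ ?_) hh
  omega

private theorem bad_fin {α : ℕ → Option M} {ℓ h s u : ℕ} (hℓ : 0 < ℓ) :
    (bad α ℓ h h s u).card ≤ cnt α h + 2 := by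
  classical
  have h0 : bad α ℓ h h s u ⊆
      (((Finset.range h).filter fun o => (α o).isSome).image fun o => o / ℓ) ∪
        {h / ℓ - 1, h / ℓ} := by
    intro v hv
    rw [mem_bad] at hv
    obtain ⟨_, h2, h3⟩ := hv
    rw [Finset.mem_union]
    by_cases h4 : (v + 2) * ℓ ≤ h
    · left
      refine ann_of_bad hℓ h3 ?_ h4
      exact le_trans (Nat.mul_le_mul_right _ (by omega)) h4
    · right
      have h5 : h / ℓ < v + 2 := (Nat.div_lt_iff_lt_mul hℓ).2 (not_le.1 h4)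
      have h6 : v ≤ h / ℓ := (Nat.le_div_iff_mul_le hℓ).2 h2.le
      rw [Finset.mem_insert, Finset.mem_singleton]
      omega
  refine (Finset.card_le_card h0).trans ((Finset.card_union_le _ _).trans ?_)
  unfold cnt
  exact Nat.add_le_add Finset.card_image_le Finset.card_le_two

end PiecesAux

open PiecesAux

theorem chn_blkP (α : ℕ → Option M) {ℓ mx h : ℕ} (hℓ : 0 < ℓ) :
    Chn ℓ h (blkP α ℓ mx h) 0 (2 ^ mx * ℓ) := by
  have h1 := chn_pcs α (lim := 2 ^ mx * ℓ) (h := h) hℓ mx 0 (by rw [zero_mul]; exact Nat.zero_le _)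
  rw [zero_mul, zero_add, min_self] at h1
  exact h1

theorem chn_finP (α : ℕ → Option M) {ℓ mx h : ℕ} (hℓ : 0 < ℓ) (hh : h < 2 * (2 ^ mx * ℓ)) :
    Chn ℓ h (finP α ℓ mx h) 0 (h + 1) := by
  have h1 := chn_pcs α (lim := h) (h := h) hℓ mx 0 (by rw [zero_mul]; exact Nat.zero_le _)
  rw [zero_mul, zero_add] at h1
  have h2 : Chn ℓ h (pcs α ℓ h h mx 0 ++ pcs α ℓ h h mx (2 ^ mx)) 0 h := by
    by_cases h3 : 2 ^ mx * ℓ ≤ h
    · rw [min_eq_right h3] at h1
      have h4 := chn_pcs α (lim := h) (h := h) hℓ mx (2 ^ mx) h3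
      have h5 : h ≤ (2 ^ mx + 2 ^ mx) * ℓ := by
        rw [add_mul]
        omega
      rw [min_eq_left h5] at h4
      exact chn_append _ h1 h4
    · rw [not_le] at h3
      rw [min_eq_left h3.le] at h1
      rw [pcs_nil α h3.le, List.append_nil]
      exact h1
  exact chn_append _ h2 ⟨rfl, Nat.lt_succ_self _, rfl⟩

theorem val_blkP (α : ℕ → Option M) {ℓ K mx h : ℕ} (hℓ : ℓ = (mx + 1) * (K * K))
    (hh : (2 ^ mx + 1) * ℓ ≤ h) : ∀ p ∈ blkP α ℓ mx h, Val α ℓ K mx h p :=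
  val_pcs α hℓ (le_trans (Nat.mul_le_mul_right _ (Nat.le_succ _)) hh) mx 0 le_rfl (dvd_zero _)

theorem val_finP (α : ℕ → Option M) {ℓ K mx h : ℕ} (hℓ : ℓ = (mx + 1) * (K * K)) :
    ∀ p ∈ finP α ℓ mx h, Val α ℓ K mx h p := by
  intro p hp
  rcases List.mem_append.1 hp with h1 | h1
  · rcases List.mem_append.1 h1 with h2 | h2
    · exact val_pcs α hℓ le_rfl mx 0 le_rfl (dvd_zero _) p h2
    · exact val_pcs α hℓ le_rfl mx (2 ^ mx) le_rfl dvd_rfl p h2
  · rw [List.mem_singleton] at h1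
    rw [h1]
    exact trivial

theorem length_blkP {α : ℕ → Option M} {ℓ mx h k : ℕ} (hℓ : 0 < ℓ)
    (hα : cnt α (2 ^ mx * ℓ) ≤ k) (hh : (2 ^ mx + 1) * ℓ ≤ h) :
    (blkP α ℓ mx h).length ≤ 3 + 2 * (k + 2) * (mx + ℓ) := by
  have h1 := length_pcs (α := α) (lim := 2 ^ mx * ℓ) (h := h) (U := 2 ^ mx) hℓ (by
    intro v h1 _ _
    rcases Nat.lt_or_ge (v + 1) (2 ^ mx) with h2 | h2
    · exact Or.inl (Nat.mul_lt_mul_of_pos_right h2 hℓ)
    · exact Or.inr (by omega)) mx 0 (by rw [zero_add])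
  have h2 := (bad_blk (α := α) hℓ hh).trans hα
  refine h1.trans (Nat.add_le_add (by norm_num) (Nat.mul_le_mul_right _ ?_))
  omega

theorem length_finP {α : ℕ → Option M} {ℓ mx h k : ℕ} (hℓ : 0 < ℓ)
    (hα : cnt α h ≤ k) : (finP α ℓ mx h).length ≤ 3 + 2 * (k + 2) * (mx + ℓ) := by
  have H : ∀ v, v < 2 * 2 ^ mx → v * ℓ < h → gd α ℓ h h 0 v → (v + 1) * ℓ < h ∨
      v + 1 = 2 * 2 ^ mx := by
    intro v _ _ hg
    left
    have h1 := hg.2.2
    have h2 : (v + 1) * ℓ < (v + 2 ^ 0 + 1) * ℓ :=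
      Nat.mul_lt_mul_of_pos_right (by rw [pow_zero]; omega) hℓ
    omega
  have h1 := length_pcs (α := α) (lim := h) (h := h) hℓ H mx 0 (by omega)
  have h2 := length_pcs (α := α) (lim := h) (h := h) hℓ H mx (2 ^ mx) (by omega)
  have h3 : (bad α ℓ h h mx 0).card * (mx + ℓ) ≤ (k + 2) * (mx + ℓ) :=
    Nat.mul_le_mul_right _ ((bad_fin hℓ).trans (by omega))
  have h4 : (bad α ℓ h h mx (2 ^ mx)).card * (mx + ℓ) ≤ (k + 2) * (mx + ℓ) :=
    Nat.mul_le_mul_right _ ((bad_fin hℓ).trans (by omega))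
  have h5 : (finP α ℓ mx h).length
      = (pcs α ℓ h h mx 0).length + (pcs α ℓ h h mx (2 ^ mx)).length + 1 := by
    unfold finP
    rw [List.length_append, List.length_append, List.length_singleton]
  have h6 : 2 * (k + 2) * (mx + ℓ) = (k + 2) * (mx + ℓ) + (k + 2) * (mx + ℓ) := by ring
  rw [h5, h6]
  omega

end Pool.Agent.P0036f5k
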