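import Pool.Agent.Lib.P0036f5k.Defs

/-!
# K1: bijections along a relation

`HasPM R S T`: there is `σ` with `Set.BijOn σ S T` and `R x (σ x)` for `x ∈ S`.

* `mono`, `hasPM_singleton`: immediate (`Set.BijOn`).
* `union`: `σ'' x = if x ∈ S then σ x else σ' x` (classical).
* `map`: `σ'' z = if h : ∃ x ∈ S, f x = z then g (σ (choose)) else arbitrary`; uses injectivity of `f`
  on `S` and of `g` on `T`.
* `diff`: induction over the finite set `D`; one element `m ∈ S ∩ T` is removed as follows.  Let
  `a ∈ S` with `σ a = m`.  If `a = m` then `σ` maps `S \ {m}` onto `T \ {m}`.  Otherwise take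
  `σ' = Function.update σ a (σ m)`.
* `hasPM_iff_hall` (for a finite type): Hall's theorem.
-/

set_option autoImplicit false

namespace Pool.Agent.P0036f5k

theorem HasPM.mono {α β : Type} {R R' : α → β → Prop} {S : Set α} {T : Set β}
    (h : HasPM R S T) (hR : ∀ x ∈ S, ∀ y ∈ T, R x y → R' x y) : HasPM R' S T := by
  obtain ⟨σ, hσ, h1⟩ := h
  exact ⟨σ, hσ, fun x hx => hR x hx (σ x) (hσ.mapsTo hx) (h1 x hx)⟩

theorem HasPM.union {α β : Type} {R : α → β → Prop} {S S' : Set α} {T T' : Set β}
    (h : HasPM R S T) (h' : HasPM R S' T') (hS : Disjoint S S') (hT : Disjoint T T') :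
    HasPM R (S ∪ S') (T ∪ T') := by
  classical
  obtain ⟨σ, hσ, h1⟩ := h
  obtain ⟨τ, hτ, h2⟩ := h'
  have e1 : Set.EqOn (fun x => if x ∈ S then σ x else τ x) σ S := by
    intro x hx
    simp [hx]
  have e2 : Set.EqOn (fun x => if x ∈ S then σ x else τ x) τ S' := by
    intro x hx
    have : x ∉ S := fun h => Set.disjoint_left.1 hS h hx
    simp [this]
  refine ⟨fun x => if x ∈ S then σ x else τ x, ?_, ?_⟩
  · refine Set.BijOn.union (hσ.congr e1.symm) (hτ.congr e2.symm) ?_
    rw [Set.injOn_union hS]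
    refine ⟨hσ.injOn.congr e1.symm, hτ.injOn.congr e2.symm, ?_⟩
    intro a ha b hb hab
    have ea := e1 ha
    have eb := e2 hb
    simp only at ea eb hab
    rw [ea, eb] at hab
    exact Set.disjoint_left.1 hT (hσ.mapsTo ha) (hab ▸ hτ.mapsTo hb)
  · intro x hx
    rcases hx with hx | hx
    · have := e1 hx
      simp only at this ⊢
      rw [this]
      exact h1 x hx
    · have := e2 hx
      simp only at this ⊢
      rw [this]
      exact h2 x hx

theorem HasPM.map {α β γ δ : Type} {R : α → β → Prop} {R' : γ → δ → Prop} {S : Set α} {T : Set β}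
    (h : HasPM R S T) (f : α → γ) (g : β → δ) (hf : Set.InjOn f S) (hg : Set.InjOn g T)
    [Nonempty δ]
    (hR : ∀ x ∈ S, ∀ y ∈ T, R x y → R' (f x) (g y)) : HasPM R' (f '' S) (g '' T) := by
  classical
  obtain ⟨σ, hσ, h1⟩ := h
  let τ : γ → δ := fun z => if h : ∃ x ∈ S, f x = z then g (σ h.choose) else Classical.arbitrary δ
  have hτ : ∀ x ∈ S, τ (f x) = g (σ x) := by
    intro x hx
    have hex : ∃ x' ∈ S, f x' = f x := ⟨x, hx, rfl⟩
    have hc := hex.choose_spec
    have : hex.choose = x := hf hc.1 hx hc.2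
    simp only [τ, dif_pos hex]
    rw [this]
  refine ⟨τ, ⟨?_, ?_, ?_⟩, ?_⟩
  · rintro z ⟨x, hx, rfl⟩
    rw [hτ x hx]
    exact ⟨σ x, hσ.mapsTo hx, rfl⟩
  · rintro z ⟨x, hx, rfl⟩ z' ⟨x', hx', rfl⟩ he
    rw [hτ x hx, hτ x' hx'] at he
    have := hσ.injOn hx hx' (hg (hσ.mapsTo hx) (hσ.mapsTo hx') he)
    rw [this]
  · rintro w ⟨y, hy, rfl⟩
    obtain ⟨x, hx, rfl⟩ := hσ.surjOn hy
    exact ⟨f x, ⟨x, hx, rfl⟩, hτ x hx⟩
  · rintro z ⟨x, hx, rfl⟩
    rw [hτ x hx]
    exact hR x hx (σ x) (hσ.mapsTo hx) (h1 x hx)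

namespace MatchAux

/-- one element is removed -/
theorem diff_one {N : Type} {R : N → N → Prop} (hR : ∀ x y z, R x y → R y z → R x z)
    {S T : Set N} (h : HasPM R S T) {m : N} (h1 : m ∈ S) (h2 : m ∈ T) :
    HasPM R (S \ {m}) (T \ {m}) := by
  classical
  obtain ⟨σ, hσ, hr⟩ := h
  obtain ⟨a, ha, ham⟩ := hσ.surjOn h2
  by_cases hm : a = m
  · subst hm
    refine ⟨σ, ⟨?_, ?_, ?_⟩, fun x hx => hr x hx.1⟩
    · intro x hx
      refine ⟨hσ.mapsTo hx.1, ?_⟩
      intro hxm
      have hxm' : σ x = a := hxm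
      exact hx.2 (hσ.injOn hx.1 h1 (hxm'.trans ham.symm))
    · exact hσ.injOn.mono Set.diff_subset
    · intro y hy
      obtain ⟨x, hx, rfl⟩ := hσ.surjOn hy.1
      refine ⟨x, ⟨hx, ?_⟩, rfl⟩
      intro hxm
      have hxm' : x = a := hxm
      exact hy.2 (by rw [hxm', ham]; rfl)
  · have hsm : σ m ≠ m := by
      intro h
      exact hm (hσ.injOn ha h1 (ham.trans h.symm))
    refine ⟨Function.update σ a (σ m), ⟨?_, ?_, ?_⟩, ?_⟩
    · intro x hx
      by_cases hxa : x = a
      · subst hxa
        rw [Function.update_self]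
        exact ⟨hσ.mapsTo h1, hsm⟩
      · rw [Function.update_of_ne hxa]
        refine ⟨hσ.mapsTo hx.1, ?_⟩
        intro hxm
        have hxm' : σ x = m := hxm
        exact hxa (hσ.injOn hx.1 ha (hxm'.trans ham.symm))
    · intro x hx y hy he
      by_cases hxa : x = a
      · by_cases hya : y = a
        · rw [hxa, hya]
        · rw [hxa, Function.update_self, Function.update_of_ne hya] at he
          exact absurd (hσ.injOn h1 hy.1 he).symm hy.2
      · by_cases hya : y = a
        · rw [hya, Function.update_self, Function.update_of_ne hxa] at he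
          exact absurd (hσ.injOn hx.1 h1 he) hx.2
        · rw [Function.update_of_ne hxa, Function.update_of_ne hya] at he
          exact hσ.injOn hx.1 hy.1 he
    · intro y hy
      obtain ⟨x, hx, rfl⟩ := hσ.surjOn hy.1
      by_cases hxm : x = m
      · refine ⟨a, ⟨ha, hm⟩, ?_⟩
        rw [Function.update_self, hxm]
      · refine ⟨x, ⟨hx, hxm⟩, ?_⟩
        have hxa : x ≠ a := by
          intro hxa
          exact hy.2 (by rw [hxa, ham]; rfl)
        rw [Function.update_of_ne hxa]
    · intro x hx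
      by_cases hxa : x = a
      · subst hxa
        rw [Function.update_self]
        have e1 := hr x ha
        rw [ham] at e1
        exact hR _ _ _ e1 (hr m h1)
      · rw [Function.update_of_ne hxa]
        exact hr x hx.1

end MatchAux

theorem HasPM.diff {N : Type} {R : N → N → Prop} (hR : ∀ x y z, R x y → R y z → R x z)
    {S T D : Set N} (h : HasPM R S T) (hD : D.Finite) (h1 : D ⊆ S) (h2 : D ⊆ T) :
    HasPM R (S \ D) (T \ D) := by
  induction D, hD using Set.Finite.induction_on with
  | empty => simpa using h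
  | @insert a D ha hD ih =>
    have e1 := ih ((Set.subset_insert a D).trans h1) ((Set.subset_insert a D).trans h2)
    have haS : a ∈ S \ D := ⟨h1 (Set.mem_insert a D), ha⟩
    have haT : a ∈ T \ D := ⟨h2 (Set.mem_insert a D), ha⟩
    have e2 := MatchAux.diff_one hR e1 haS haT
    have k : ∀ U : Set N, U \ insert a D = (U \ D) \ {a} := by
      intro U
      ext x
      simp only [Set.mem_diff, Set.mem_insert_iff, Set.mem_singleton_iff, not_or]
      tauto
    rw [k S, k T]
    exact e2

theorem hasPM_singleton {N : Type} {R : N → N → Prop} {x y : N} :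
    HasPM R {x} {y} ↔ R x y := by
  constructor
  · rintro ⟨σ, hσ, h⟩
    have h1 : σ x = y := hσ.mapsTo (Set.mem_singleton x)
    have h2 := h x (Set.mem_singleton x)
    rwa [h1] at h2
  · intro h
    refine ⟨fun _ => y, ⟨?_, ?_, ?_⟩, ?_⟩
    · intro z _
      rfl
    · intro a ha b hb _
      rw [Set.mem_singleton_iff.1 ha, Set.mem_singleton_iff.1 hb]
    · intro z hz
      exact ⟨x, Set.mem_singleton x, (Set.mem_singleton_iff.1 hz).symm⟩
    · intro z hz
      rw [Set.mem_singleton_iff.1 hz]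
      exact h

theorem hasPM_iff_hall {α : Type} [Finite α] (R : α → α → Prop) (S T : Set α) :
    HasPM R S T ↔ S.ncard = T.ncard ∧
      ∀ X, X ⊆ S → ∃ Y, Y ⊆ T ∧ X.ncard ≤ Y.ncard ∧ ∀ y ∈ Y, ∃ x ∈ X, R x y := by
  classical
  constructor
  · rintro ⟨σ, hσ, h⟩
    refine ⟨?_, ?_⟩
    · rw [← hσ.image_eq, Set.ncard_image_of_injOn hσ.injOn]
    · intro X hX
      refine ⟨σ '' X, ?_, ?_, ?_⟩
      · rintro y ⟨x, hx, rfl⟩
        exact hσ.mapsTo (hX hx)
      · rw [Set.ncard_image_of_injOn (hσ.injOn.mono hX)]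
      · rintro y ⟨x, hx, rfl⟩
        exact ⟨x, hx, h x (hX hx)⟩
  · rintro ⟨hc, hX⟩
    have := Fintype.ofFinite α
    let N : S → Finset α := fun x => Finset.univ.filter fun y => y ∈ T ∧ R x.1 y
    have hN : ∀ s : Finset S, s.card ≤ (s.biUnion N).card := by
      intro s
      obtain ⟨Y, hY, hcard, hYX⟩ := hX (Subtype.val '' (s : Set S)) (by
        rintro _ ⟨x, _, rfl⟩
        exact x.2)
      have e1 : (Subtype.val '' (s : Set S)).ncard = s.card := by
        rw [Set.ncard_image_of_injective _ Subtype.val_injective, Set.ncard_coe_finset]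
      have e2 : Y ⊆ ((s.biUnion N : Finset α) : Set α) := by
        intro y hy
        obtain ⟨x, ⟨x', hx', rfl⟩, hxy⟩ := hYX y hy
        rw [Finset.mem_coe, Finset.mem_biUnion]
        refine ⟨x', hx', ?_⟩
        simp only [N, Finset.mem_filter, Finset.mem_univ, true_and]
        exact ⟨hY hy, hxy⟩
      have e3 : Y.ncard ≤ (s.biUnion N).card := by
        rw [← Set.ncard_coe_finset]
        exact Set.ncard_le_ncard e2 (Finset.finite_toSet _)
      omega
    obtain ⟨f, hf, hfN⟩ := (Finset.all_card_le_biUnion_card_iff_exists_injective N).1 hN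
    have hfT : ∀ x : S, f x ∈ T ∧ R x.1 (f x) := by
      intro x
      have := hfN x
      simp only [N, Finset.mem_filter, Finset.mem_univ, true_and] at this
      exact this
    let σ : α → α := fun x => if h : x ∈ S then f ⟨x, h⟩ else x
    have hσ : ∀ x (h : x ∈ S), σ x = f ⟨x, h⟩ := by
      intro x h
      simp only [σ, dif_pos h]
    have hmaps : Set.MapsTo σ S T := by
      intro x hx
      rw [hσ x hx]
      exact (hfT ⟨x, hx⟩).1
    have hinj : Set.InjOn σ S := by
      intro x hx y hy he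
      rw [hσ x hx, hσ y hy] at he
      have := hf he
      exact congrArg Subtype.val this
    refine ⟨σ, ⟨hmaps, hinj, ?_⟩, ?_⟩
    · have himg : σ '' S = T := by
        apply Set.eq_of_subset_of_ncard_le
        · rintro y ⟨x, hx, rfl⟩
          exact hmaps hx
        · rw [Set.ncard_image_of_injOn hinj, hc]
        · exact Set.toFinite T
      intro y hy
      rw [← himg] at hy
      exact hy
    · intro x hx
      rw [hσ x hx]
      exact (hfT ⟨x, hx⟩).2

end Pool.Agent.P0036f5k
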