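import Pool.Agent.Lib.P0036f5k.TDefs
import Pool.Agent.Lib.P0036f5k.Match

/-!
# K7b: the matching test

* `eval_andN`, `nd_andN_le`, `within_andN`: as `DT.eval_orN`, `DT.nd_orN_le`, `DT.within_orN` in
  `Pool.Agent.Lib.P0036f5v2.Tree`.
* `eval_hallT`: `hasPM_iff_hall` for the finite type `Bool × P`; every set of ports `X` is `Z.sub c` for
  some `c < 2 ^ K`, because `π` is injective with values `< K` and `π (ρ i) = i`;
  every port is `ρ i` with `i < K`.
* `nd_hallT_le`, `within_hallT`: bounds for `orN`, `andN` through the four levels.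
-/

set_option autoImplicit false

namespace Pool.Agent.P0036f5k

open Relation Pool.Agent.P0036f5v2 Pool.Agent.P0036f5w Pool.Agent.P0036f5g Classical

variable {A P M : Type}

theorem eval_andN {α : Type} (v : ℕ → α) (f : ℕ → DT α) (n : ℕ) :
    (andN f n).eval v = true ↔ ∀ x < n, (f x).eval v = true := by
  induction n with
  | zero => simp [andN, DT.eval]
  | succ n ih =>
    rw [andN, DT.eval_and, Bool.and_eq_true, ih]
    constructor
    · rintro ⟨h1, h2⟩ x hx
      by_cases hxn : x = n
      · rw [hxn]; exact h1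
      · exact h2 x (by omega)
    · intro h
      exact ⟨h n (by omega), fun x hx => h x (by omega)⟩

theorem nd_andN_le {α : Type} [Finite α] (f : ℕ → DT α) (n c : ℕ) (h : ∀ x < n, (f x).nd ≤ c) :
    (andN f n).nd ≤ n * c := by
  induction n with
  | zero => simp [andN, DT.nd_ret]
  | succ n ih =>
    rw [andN]
    refine (DT.nd_and_le _ _).trans ?_
    have h1 := h n (by omega)
    have h2 := ih fun x hx => h x (by omega)
    rw [Nat.succ_mul]
    omega

theorem within_andN {α : Type} {m : ℕ} (f : ℕ → DT α) (n : ℕ) (h : ∀ x < n, (f x).Within m) :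
    (andN f n).Within m := by
  induction n with
  | zero => trivial
  | succ n ih => exact DT.within_and (h n (by omega)) (ih fun x hx => h x (by omega))

namespace HallAux

theorem exists_code {Z : Par A P M} (hZ : Z.Ok) (X : Set (Bool × P)) :
    ∃ c < 2 ^ Z.K, Z.sub c = X := by
  refine ⟨Nat.ofBits fun i : Fin Z.K => decide (Z.ρ i ∈ X), Nat.ofBits_lt_two_pow _, ?_⟩
  ext x
  have h1 := Nat.testBit_ofBits_lt (fun i : Fin Z.K => decide (Z.ρ i ∈ X)) (Z.π x) (hZ.hπ x)
  show (Nat.ofBits fun i : Fin Z.K => decide (Z.ρ i ∈ X)).testBit (Z.π x) = true ↔ x ∈ X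
  rw [h1]
  simp only [decide_eq_true_eq]
  rw [hZ.hρ x]

end HallAux

namespace Par

theorem eval_hallT [Finite P] {Z : Par A P M} (hZ : Z.Ok) (S T : Set (Bool × P))
    (tab : Bool × P → Bool × P → DT (Sy A)) (v : ℕ → Sy A) :
    (Z.hallT S T tab).eval v = true ↔ HasPM (fun x y => (tab x y).eval v = true) S T := by
  rw [hasPM_iff_hall]
  unfold hallT
  by_cases hc : S.ncard = T.ncard
  · rw [if_pos hc, eval_andN]
    simp only [hc, true_and]
    constructor
    · intro h X hX
      obtain ⟨c, hcK, rfl⟩ := HallAux.exists_code hZ X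
      have h1 := h c hcK
      rw [if_pos hX, DT.eval_orN] at h1
      obtain ⟨c', hc'K, h2⟩ := h1
      by_cases h3 : Z.sub c' ⊆ T ∧ (Z.sub c).ncard ≤ (Z.sub c').ncard
      · rw [if_pos h3, eval_andN] at h2
        refine ⟨Z.sub c', h3.1, h3.2, ?_⟩
        intro y hy
        have h4 := h2 (Z.π y) (hZ.hπ y)
        rw [hZ.hρ y, if_pos hy, DT.eval_orN] at h4
        obtain ⟨x, _, h5⟩ := h4
        by_cases h6 : Z.ρ x ∈ Z.sub c
        · rw [if_pos h6] at h5
          exact ⟨Z.ρ x, h6, h5⟩
        · rw [if_neg h6] at h5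
          exact absurd h5 (by simp [DT.eval])
      · rw [if_neg h3] at h2
        exact absurd h2 (by simp [DT.eval])
    · intro h c _
      by_cases hX : Z.sub c ⊆ S
      · rw [if_pos hX, DT.eval_orN]
        obtain ⟨Y, hY, hcard, hYX⟩ := h (Z.sub c) hX
        obtain ⟨c', hc'K, rfl⟩ := HallAux.exists_code hZ Y
        refine ⟨c', hc'K, ?_⟩
        rw [if_pos ⟨hY, hcard⟩, eval_andN]
        intro y _
        by_cases hy : Z.ρ y ∈ Z.sub c'
        · rw [if_pos hy, DT.eval_orN]
          obtain ⟨x, hx, hxy⟩ := hYX _ hy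
          refine ⟨Z.π x, hZ.hπ x, ?_⟩
          rw [hZ.hρ x, if_pos hx]
          exact hxy
        · rw [if_neg hy]
          rfl
      · rw [if_neg hX]
        rfl
  · rw [if_neg hc]
    constructor
    · intro h
      exact absurd h (by simp [DT.eval])
    · intro h
      exact absurd h.1 hc

theorem nd_hallT_le [Finite A] (Z : Par A P M) (S T : Set (Bool × P))
    (tab : Bool × P → Bool × P → DT (Sy A)) {c : ℕ} (h : ∀ x y, (tab x y).nd ≤ c) :
    (Z.hallT S T tab).nd ≤ 2 ^ Z.K * (2 ^ Z.K * (Z.K * (Z.K * c))) := by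
  unfold hallT
  split_ifs
  · refine nd_andN_le _ _ _ fun c1 _ => ?_
    split_ifs
    · refine DT.nd_orN_le _ _ _ fun c2 _ => ?_
      split_ifs
      · refine nd_andN_le _ _ _ fun y _ => ?_
        split_ifs
        · refine DT.nd_orN_le _ _ _ fun x _ => ?_
          split_ifs
          · exact h _ _
          · rw [DT.nd_ret]; exact Nat.zero_le _
        · rw [DT.nd_ret]; exact Nat.zero_le _
      · rw [DT.nd_ret]; exact Nat.zero_le _
    · rw [DT.nd_ret]; exact Nat.zero_le _
  · rw [DT.nd_ret]; exact Nat.zero_le _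

theorem within_hallT (Z : Par A P M) (S T : Set (Bool × P))
    (tab : Bool × P → Bool × P → DT (Sy A)) {D : ℕ} (h : ∀ x y, (tab x y).Within D) :
    (Z.hallT S T tab).Within D := by
  unfold hallT
  split_ifs
  · refine within_andN _ _ fun c1 _ => ?_
    split_ifs
    · refine DT.within_orN _ _ fun c2 _ => ?_
      split_ifs
      · refine within_andN _ _ fun y _ => ?_
        split_ifs
        · refine DT.within_orN _ _ fun x _ => ?_
          split_ifs
          · exact h _ _
          · trivial
        · trivial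
      · trivial
    · trivial
  · trivial

end Par

end Pool.Agent.P0036f5k
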