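import Pool.Agent.Lib.P0036f5k.LocA

/-!
# K3: the table of a segment from the tables of its pieces

`Chn ℓ h l a b`: the pieces `l[0], l[1], …` are consecutive segments `[lo, hi)`, `lo < hi`, from `a`
to `b`; let `c 0 = a < c 1 < … < c l.length = b` be the boundaries between them, so `l[i]` is
`[c i, c (i + 1))`.  Nodes of the coarse graph: `(i, d, p)` stands for the node `(c i, d, p)`.

(←) By induction on the coarse path: `RB v a b (c 0-node) (c i-node)` for every coarse node reached;
an edge of `CE` is a path in `[c i, c (i + 1)) ⊆ [a, b)` between the corresponding real nodes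
(`rb_mono`).

(→) Call the nodes `(c i, d, p)` with `i ≤ l.length` cut nodes.  Invariant along a path in `[a, b)` from
`ent a b x`: for the current node `z` there are a coarse node `u` reachable in the coarse graph from
`ent 0 l.length x`, such that either `z` is the real node of `u`, or: `u` enters the piece `i` (i.e.
`u = ent i (i + 1) x'` for some `x'`), `RB v (c i) (c (i + 1))` leads from the real node of `u` to `z`,
and `z` lies strictly inside the piece `i` (`c i < z.1 < c (i + 1)`).  One more move from `z` in a cell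
`j ∈ [a, b)`: in the second case `j ∈ [c i, c (i + 1))` and the target is inside again or one of
`(c (i + 1), true, p)`, `(c i, false, p)`, i.e. an exit of the piece, which gives an edge of `CE`; in
the first case (real node of `u = (i, d, p)`) the move is in the cell `c i` if `d = true` (the piece
`i`) and in the cell `c i - 1` if `d = false` (the piece `i - 1`), so `u` enters that piece, and the
same case distinction applies.  At the end `z = ext a b y` is a cut node, so it is in the first case
(it is not strictly inside a piece; use that a cut node determines its coarse node since `c` is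
strictly increasing).
-/

set_option autoImplicit false

namespace Pool.Agent.P0036f5k

open Relation

variable {P : Type}

namespace CoarseAux

/-- the coarse graph of the boundaries `c 0, …, c n` -/
def CG (v : ℕ → CR P) (n : ℕ) (c : ℕ → ℕ) (X Y : Nd P) : Prop :=
  ∃ (i : ℕ) (x y : Bool × P), i < n ∧ X = ent i (i + 1) x ∧ Y = ext i (i + 1) y ∧
    TB v (c i) (c (i + 1)) x y

/-- the real node of a coarse node -/
def rl (c : ℕ → ℕ) (X : Nd P) : Nd P := (c X.1, X.2)

theorem rl_ent (c : ℕ → ℕ) (a b : ℕ) (x : Bool × P) :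
    rl c (ent a b x) = ent (c a) (c b) x := by
  unfold rl ent
  by_cases h : x.1 = true <;> simp [h]

theorem rl_ext (c : ℕ → ℕ) (a b : ℕ) (x : Bool × P) :
    rl c (ext a b x) = ext (c a) (c b) x := by
  unfold rl ext
  by_cases h : x.1 = true <;> simp [h]

theorem mono_of {n : ℕ} {c : ℕ → ℕ} (hc : ∀ i < n, c i < c (i + 1)) {i j : ℕ} (hij : i ≤ j)
    (hj : j ≤ n) : c i ≤ c j := by
  induction j, hij using Nat.le_induction with
  | base => exact le_rfl
  | succ j hij ih => exact (ih (by omega)).trans (hc j (by omega)).le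

theorem inj_of {n : ℕ} {c : ℕ → ℕ} (hc : ∀ i < n, c i < c (i + 1)) {i j : ℕ} (hi : i ≤ n)
    (hj : j ≤ n) (h : c i = c j) : i = j := by
  rcases lt_trichotomy i j with hlt | heq | hgt
  · have h1 := hc i (by omega)
    have h2 := mono_of hc (show i + 1 ≤ j by omega) hj
    omega
  · exact heq
  · have h1 := hc j (by omega)
    have h2 := mono_of hc (show j + 1 ≤ i by omega) hi
    omega

/-- the invariant along a path in the segment -/
def Inv (v : ℕ → CR P) (n : ℕ) (c : ℕ → ℕ) (X Z : Nd P) : Prop :=
  ∃ U : Nd P, ReflTransGen (CG v n c) X U ∧ U.1 ≤ n ∧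
    (Z = rl c U ∨ ∃ (i : ℕ) (x' : Bool × P), i < n ∧ U = ent i (i + 1) x' ∧
      RB v (c i) (c (i + 1)) (ent (c i) (c (i + 1)) x') Z ∧ c i < Z.1 ∧ Z.1 < c (i + 1))

theorem inv_step {v : ℕ → CR P} {n : ℕ} {c : ℕ → ℕ} (hc : ∀ i < n, c i < c (i + 1))
    {X Z Z' : Nd P} (h : Inv v n c X Z) {j : ℕ} (h0 : c 0 ≤ j) (hn : j < c n)
    (hE : EC v j Z Z') : Inv v n c X Z' := by
  obtain ⟨U, hU, hUn, hor⟩ := h
  obtain ⟨hE1, hE2, hE3⟩ := hE
  -- the piece
  have key : ∃ (i : ℕ) (x' : Bool × P), i < n ∧ U = ent i (i + 1) x' ∧
      RB v (c i) (c (i + 1)) (ent (c i) (c (i + 1)) x') Z ∧ c i ≤ j ∧ j < c (i + 1) := by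
    rcases hor with hZ | ⟨i, x', hi, hUe, hRB, hlo, hhi⟩
    · obtain ⟨u1, d, p⟩ := U
      have hZ1 : Z = (c u1, d, p) := hZ
      subst hZ1
      simp only at hUn
      cases d with
      | true =>
        simp only [if_true] at hE1
        have hun : u1 < n := by
          rcases Nat.lt_or_ge u1 n with h | h
          · exact h
          · have : u1 = n := le_antisymm hUn h
            subst this
            omega
        refine ⟨u1, (true, p), hun, ?_, ?_, ?_, ?_⟩
        · simp [ent]
        · have : ent (c u1) (c (u1 + 1)) (true, p) = (c u1, true, p) := by simp [ent]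
          rw [this]
          exact ReflTransGen.refl
        · omega
        · have := hc u1 hun
          omega
      | false =>
        simp only [Bool.false_eq_true, if_false] at hE1
        have hu0 : 0 < u1 := by
          rcases Nat.eq_zero_or_pos u1 with h | h
          · subst h
            omega
          · exact h
        obtain ⟨w, rfl⟩ : ∃ w, u1 = w + 1 := ⟨u1 - 1, by omega⟩
        refine ⟨w, (false, p), by omega, ?_, ?_, ?_, ?_⟩
        · simp [ent]
        · have : ent (c w) (c (w + 1)) (false, p) = (c (w + 1), false, p) := by simp [ent]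
          rw [this]
          exact ReflTransGen.refl
        · have := hc w (by omega)
          omega
        · omega
    · refine ⟨i, x', hi, hUe, hRB, ?_, ?_⟩
      · split_ifs at hE1 <;> omega
      · split_ifs at hE1 <;> omega
  obtain ⟨i, x', hi, hUe, hRB, hlo, hhi⟩ := key
  have hRB' : RB v (c i) (c (i + 1)) (ent (c i) (c (i + 1)) x') Z' :=
    ReflTransGen.tail hRB ⟨j, hlo, hhi, hE1, hE2, hE3⟩
  obtain ⟨z1, d, p⟩ := Z'
  cases d with
  | true =>
    simp only [if_true] at hE3
    by_cases hz : z1 = c (i + 1)
    · refine ⟨(i + 1, true, p), hU.tail ⟨i, x', (true, p), hi, hUe, ?_, ?_⟩, by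
        simp only; omega, Or.inl ?_⟩
      · simp [ext]
      · unfold TB
        have : ext (c i) (c (i + 1)) (true, p) = (z1, true, p) := by simp [ext, hz]
        rw [this]
        exact hRB'
      · simp [rl, hz]
    · refine ⟨U, hU, hUn, Or.inr ⟨i, x', hi, hUe, hRB', ?_, ?_⟩⟩
      · simp only
        omega
      · simp only
        omega
  | false =>
    simp only [Bool.false_eq_true, if_false] at hE3
    by_cases hz : z1 = c i
    · refine ⟨(i, false, p), hU.tail ⟨i, x', (false, p), hi, hUe, ?_, ?_⟩, by
        simp only; omega, Or.inl ?_⟩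
      · simp [ext]
      · unfold TB
        have : ext (c i) (c (i + 1)) (false, p) = (z1, false, p) := by simp [ext, hz]
        rw [this]
        exact hRB'
      · simp [rl, hz]
    · refine ⟨U, hU, hUn, Or.inr ⟨i, x', hi, hUe, hRB', ?_, ?_⟩⟩
      · simp only
        omega
      · simp only
        omega

theorem tb_cg {v : ℕ → CR P} {n : ℕ} {c : ℕ → ℕ} (hc : ∀ i < n, c i < c (i + 1))
    {x y : Bool × P} :
    TB v (c 0) (c n) x y ↔ ReflTransGen (CG v n c) (ent 0 n x) (ext 0 n y) := by
  constructor
  · intro h
    have key : ∀ Z, RB v (c 0) (c n) (ent (c 0) (c n) x) Z → Inv v n c (ent 0 n x) Z := by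
      intro Z hZ
      unfold RB at hZ
      induction hZ with
      | refl =>
        refine ⟨ent 0 n x, ReflTransGen.refl, ?_, Or.inl (rl_ent c 0 n x).symm⟩
        unfold ent
        split_ifs <;> simp
      | tail _ hs ih =>
        obtain ⟨j, h0, hn, hE⟩ := hs
        exact inv_step hc ih h0 hn hE
    obtain ⟨U, hU, hUn, hor⟩ := key _ h
    rcases hor with hZ | ⟨i, x', hi, hUe, hRB, hlo, hhi⟩
    · have h1 : U = ext 0 n y := by
        obtain ⟨u1, u2⟩ := U
        have hZ1 : ext (c 0) (c n) y = (c u1, u2) := hZ
        unfold ext at hZ1 ⊢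
        simp only at hUn
        by_cases hy : y.1 = true
        · simp only [hy, if_true, Prod.mk.injEq] at hZ1 ⊢
          exact ⟨inj_of hc hUn le_rfl hZ1.1.symm, hZ1.2.symm⟩
        · simp only [hy, Prod.mk.injEq] at hZ1 ⊢
          exact ⟨inj_of hc hUn (Nat.zero_le n) hZ1.1.symm, hZ1.2.symm⟩
      rw [← h1]
      exact hU
    · exfalso
      have h2 := mono_of hc (Nat.zero_le i) hi.le
      have h3 := mono_of hc (show i + 1 ≤ n by omega) le_rfl
      unfold ext at hlo hhi
      by_cases hy : y.1 = true
      · simp only [hy, if_true] at hlo hhi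
        omega
      · simp only [hy] at hlo hhi
        simp only [Bool.false_eq_true, if_false] at hlo hhi
        omega
  · intro h
    have key : ∀ Z, ReflTransGen (CG v n c) (ent 0 n x) Z →
        RB v (c 0) (c n) (ent (c 0) (c n) x) (rl c Z) := by
      intro Z hZ
      induction hZ with
      | refl =>
        rw [rl_ent]
        exact ReflTransGen.refl
      | tail _ hs ih =>
        obtain ⟨i, x', y', hi, rfl, rfl, hT⟩ := hs
        have h2 := mono_of hc (Nat.zero_le i) hi.le
        have h3 := mono_of hc (show i + 1 ≤ n by omega) le_rfl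
        rw [rl_ent] at ih
        rw [rl_ext]
        have hT' : RB v (c i) (c (i + 1)) (ent (c i) (c (i + 1)) x')
          (ext (c i) (c (i + 1)) y') := hT
        exact ReflTransGen.trans ih (rb_mono h2 h3 hT')
    have := key _ h
    rw [rl_ext] at this
    exact this

theorem chn_bd {ℓ h : ℕ} : ∀ (l : List Pc) (a b : ℕ), Chn ℓ h l a b →
    ∃ c : ℕ → ℕ, c 0 = a ∧ c l.length = b ∧ ∀ (i : ℕ) (hi : i < l.length),
      (l[i]).lo ℓ h = c i ∧ (l[i]).hi ℓ h = c (i + 1) ∧ c i < c (i + 1)
  | [], a, b, hl => ⟨fun _ => a, rfl, hl, fun i hi => absurd hi (by simp)⟩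
  | p :: l, a, b, hl => by
    obtain ⟨h1, h2, h3⟩ := hl
    obtain ⟨c, hc0, hcl, hc⟩ := chn_bd l _ _ h3
    refine ⟨fun i => match i with
      | 0 => a
      | i + 1 => c i, rfl, by simpa using hcl, ?_⟩
    intro i hi
    cases i with
    | zero =>
      refine ⟨by simpa using h1, by simpa using hc0.symm, ?_⟩
      change a < c 0
      rw [hc0]
      exact h2
    | succ i =>
      have hi' : i < l.length := by simpa using hi
      have := hc i hi'
      simpa using this

end CoarseAux

open CoarseAux

theorem tb_chn {v : ℕ → CR P} {ℓ h : ℕ} {l : List Pc} {a b : ℕ} (hl : Chn ℓ h l a b)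
    (hne : l ≠ []) {x y : Bool × P} :
    TB v a b x y ↔ ReflTransGen (CE v ℓ h l) (ent 0 l.length x) (ext 0 l.length y) := by
  obtain ⟨c, hc0, hcl, hc⟩ := chn_bd l a b hl
  have hCE : CE v ℓ h l = CG v l.length c := by
    funext X Y
    apply propext
    constructor
    · rintro ⟨i, hi, x, y, hX, hY, hT⟩
      refine ⟨i, x, y, hi, hX, hY, ?_⟩
      rw [← (hc i hi).1, ← (hc i hi).2.1]
      exact hT
    · rintro ⟨i, x, y, hi, hX, hY, hT⟩
      refine ⟨i, hi, x, y, hX, hY, ?_⟩
      rw [(hc i hi).1, (hc i hi).2.1]
      exact hT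
  rw [hCE, ← tb_cg (fun i hi => (hc i hi).2.2), hc0, hcl]

end Pool.Agent.P0036f5k
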