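import Pool.Agent.Lib.P0036f5k.TDefs
import Pool.Agent.Lib.P0036f5w.PathT

/-!
# K6b: cost and range of the table trees

* `nd_pcT_le`: the tree `ask d fun g => ret _` has exactly one inner subtree.
* `nd_lsT_le`: `nd_pathT_le` with `c = 1`: `(2 V) ^ κ` with `V = (l.length + 1) K ≤ VK`.
* `within_lsT`: `within_pathT`; the distances of a valid piece lie in `1, …, h`
  (`raw o`: `o < h`; `blk s u`: `s K² + (π x K + π y) < (s + 1) K²` as `π x, π y < K`).
-/

set_option autoImplicit false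

namespace Pool.Agent.P0036f5k

open Relation Pool.Agent.P0036f5v2 Pool.Agent.P0036f5w Pool.Agent.P0036f5g Classical

variable {A P M : Type}

namespace Par

private theorem nd_ask_ret (d : ℕ) (f : Sy A → Bool) :
    (DT.ask d fun g => DT.ret (f g)).nd ≤ 1 := by
  unfold DT.nd DT.asks
  simp [DT.asks]

private theorem nd_pcT_le (Z : Par A P M) (α : ℕ → Option M) (j h : ℕ) (p : Pc)
    (x y : Bool × P) : (Z.pcT α j h p x y).nd ≤ 1 := by
  unfold pcT
  cases p with
  | raw o => exact nd_ask_ret _ _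
  | blk s u => exact nd_ask_ret _ _
  | rnd => simp [DT.nd_ret]

private theorem nd_edT_le (Z : Par A P M) (α : ℕ → Option M) (j h : ℕ) (l : List Pc)
    (X Y : Nd P) : (Z.edT α j h l X Y).nd ≤ 1 := by
  unfold edT
  cases l[idx X]? with
  | none => simp [DT.nd_ret]
  | some p =>
    dsimp only
    split_ifs
    · exact nd_pcT_le _ _ _ _ _ _ _
    · simp [DT.nd_ret]

theorem nd_lsT_le [Finite A] (Z : Par A P M) (α : ℕ → Option M) (j h : ℕ) {l : List Pc}
    (hlen : l.length ≤ LK Z.k Z.mx Z.K) (x y : Bool × P) :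
    (Z.lsT α j h l x y).nd ≤ cK Z.k Z.mx Z.K Z.κ := by
  unfold lsT
  refine (nd_pathT_le (Z.edT α j h l) _ _ (c := 1) (fun X Y => nd_edT_le Z α j h l X Y) _ _
    _).trans ?_
  rw [Nat.mul_one]
  unfold cK VK
  exact Nat.pow_le_pow_left (Nat.mul_le_mul_left _ (Nat.mul_le_mul_right _
    (Nat.add_le_add_right hlen 1))) _

private theorem within_pcT {Z : Par A P M} (hZ : Z.Ok) {α : ℕ → Option M} {j h : ℕ} {p : Pc}
    (hp : Val α Z.sl Z.K Z.mx h p) (x y : Bool × P) : (Z.pcT α j h p x y).Within h := by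
  unfold pcT
  cases p with
  | raw o =>
    have ho : o < h := hp
    exact ⟨by omega, by omega, fun _ => trivial⟩
  | blk s u =>
    obtain ⟨-, -, -, h4, -⟩ := hp
    have h1 : Z.π x * Z.K + Z.π y < Z.K * Z.K := by
      have hx := hZ.hπ x
      have hy := hZ.hπ y
      calc Z.π x * Z.K + Z.π y < Z.π x * Z.K + Z.K := Nat.add_lt_add_left hy _
        _ = (Z.π x + 1) * Z.K := by ring
        _ ≤ Z.K * Z.K := Nat.mul_le_mul_right _ hx
    have h2 : (s + 1) * (Z.K * Z.K) = s * (Z.K * Z.K) + Z.K * Z.K := by ring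
    rw [h2] at h4
    exact ⟨by omega, Nat.sub_le _ _, fun _ => trivial⟩
  | rnd => trivial

private theorem within_edT {Z : Par A P M} (hZ : Z.Ok) {α : ℕ → Option M} {j h : ℕ}
    {l : List Pc} (hval : ∀ p ∈ l, Val α Z.sl Z.K Z.mx h p) (X Y : Nd P) :
    (Z.edT α j h l X Y).Within h := by
  unfold edT
  rcases hl : l[idx X]? with _ | p
  · trivial
  · dsimp only
    split_ifs
    · exact within_pcT hZ (hval p (List.mem_of_getElem? hl)) _ _
    · trivial

theorem within_lsT {Z : Par A P M} (hZ : Z.Ok) {α : ℕ → Option M} {j h : ℕ} {l : List Pc}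
    (hval : ∀ p ∈ l, Val α Z.sl Z.K Z.mx h p) (x y : Bool × P) :
    (Z.lsT α j h l x y).Within h := by
  unfold lsT
  exact within_pathT _ _ _ (fun X Y => within_edT hZ hval X Y) _ _ _

end Par

end Pool.Agent.P0036f5k
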