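import Pool.Agent.Lib.P0036f5k.LocA

/-!
# K2c: frontiers of a path 

`Full v E0 e` is the reflexive transitive closure of the relation `R` = (moves in the cells
`0, …, e - 1`, or reflections `(0, false, p) → (0, true, p')` with `E0 p p'`).

Take a path from `(0, true, p0)` to `(e, true, f)` of minimal length `T`: `n : ℕ → Nd P` with
`n 0 = (0, true, p0)`, `n T = (e, true, f)`, `R (n t) (n (t + 1))` for `t < T`.  By minimality
`n` is injective on `{0, …, T}` (cut out a cycle).  [One way: `Relation.ReflTransGen` to an
existential over a length `T`, `Nat.find` for the least `T`; if `n s = n t` with `s < t` then the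
sequence `fun u => if u ≤ s then n u else n (u + (t - s))` is a path of length `T - (t - s)`.]

Put `G b = ({p | ∃ t ≤ T, n t = (b, true, p)}, {p | ∃ t ≤ T, n t = (b, false, p)})`.

* A node `(e, false, p)` is never the target of `R`-steps (a move to `(·, false, ·)` ends at the
  boundary `i < e`) and is not the start; a node `(e, true, p)` has no outgoing `R`-step (a move from
  `(·, true, ·)` starts at the boundary `i < e`; reflections start at `(0, false, ·)`), so it can only
  be `n T`.  Hence `G e = ({f}, ∅)`.
* `R0 E0 p0 (G 0)`: `p0 ∈ (G 0).1`.  The matching `HasPM E0 (G 0).2 ((G 0).1 \ {p0})` sends `p` with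
  `n t = (0, false, p)` to the state of `n (t + 1)`: `t ≠ T` because `0 ≠ e` or the direction differs;
  the only `R`-step from `(0, false, p)` is a reflection (a move from `(·, false, ·)` starts at the
  boundary `i + 1`), to `(0, true, p')` with `E0 p p'`, and `p' ≠ p0` as `n 0 ≠ n (t + 1)`.  Injective
  and onto: every `(0, true, p')` on the path other than `n 0` is entered by a reflection (a move to
  `(·, true, ·)` ends at the boundary `i + 1`).
* `PM v i (i + 1) (G i) (G (i + 1))` for `i < e`: `src` consists of the `(true, p)` with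
  `(i, true, p)` on the path and the `(false, p)` with `(i + 1, false, p)` on the path.  None of these
  nodes is `n T`, and the step from it is a move in the cell `i` (from `(i, true, p)`: the cell is
  `i`; from `(i + 1, false, p)`: the cell is `i`, and it is no reflection as `i + 1 ≠ 0`).  Its target
  is `(i + 1, true, p')` or `(i, false, p')`, i.e. an element of `tgt`.  Injective because `n` is;
  onto because each such node is not `n 0` and is entered by a move in the cell `i`.  Use
  `tb_single` for `TB v i (i + 1) x y ↔ v i x.2 y.1 y.2`.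
-/

set_option autoImplicit false

namespace Pool.Agent.P0036f5k

open Relation

variable {P : Type}

namespace LocCAux

theorem exists_path {α : Type} {R : α → α → Prop} {a b : α} (h : ReflTransGen R a b) :
    ∃ T : ℕ, ∃ n : ℕ → α, n 0 = a ∧ n T = b ∧ ∀ t, t < T → R (n t) (n (t + 1)) := by
  induction h with
  | refl => exact ⟨0, fun _ => a, rfl, rfl, fun t ht => absurd ht (by omega)⟩
  | @tail b c _ hs ih =>
    obtain ⟨T, n, h0, hT, hst⟩ := ih
    refine ⟨T + 1, fun t => if t ≤ T then n t else c, ?_, ?_, ?_⟩
    · simp only [Nat.zero_le, if_true, h0]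
    · simp
    · intro t ht
      by_cases h1 : t < T
      · have h2 : t ≤ T := h1.le
        have h3 : t + 1 ≤ T := h1
        simp only [h2, h3, if_true]
        exact hst t h1
      · have h2 : t = T := by omega
        subst h2
        simp only [le_refl, if_true, Nat.not_succ_le_self, if_false, hT]
        exact hs

theorem exists_inj_path {α : Type} {R : α → α → Prop} {a b : α} (h : ReflTransGen R a b) :
    ∃ T : ℕ, ∃ n : ℕ → α, n 0 = a ∧ n T = b ∧ (∀ t, t < T → R (n t) (n (t + 1))) ∧
      ∀ s t, s ≤ T → t ≤ T → n s = n t → s = t := by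
  classical
  have H := exists_path h
  obtain ⟨n, h0, hT, hst⟩ := Nat.find_spec H
  refine ⟨Nat.find H, n, h0, hT, hst, ?_⟩
  have key : ∀ s t, s < t → t ≤ Nat.find H → n s ≠ n t := by
    intro s t h1 h2 h3
    have h4 : Nat.find H ≤ Nat.find H - (t - s) := by
      apply Nat.find_min' H
      refine ⟨fun u => if u ≤ s then n u else n (u + (t - s)), ?_, ?_, ?_⟩
      · simp only [Nat.zero_le, if_true, h0]
      · by_cases h5 : Nat.find H - (t - s) ≤ s
        · have h6 : Nat.find H = t := by omega
          have h7 : Nat.find H - (t - s) = s := by omega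
          simp only [h5, if_true]
          rw [h7, h3, ← h6, hT]
        · simp only [h5, if_false]
          rw [show Nat.find H - (t - s) + (t - s) = Nat.find H by omega, hT]
      · intro u hu
        by_cases h5 : u + 1 ≤ s
        · have h6 : u ≤ s := by omega
          simp only [h5, h6, if_true]
          exact hst u (by omega)
        · by_cases h6 : u ≤ s
          · have h7 : u = s := by omega
            subst h7
            simp only [le_refl, if_true, Nat.not_succ_le_self, if_false]
            rw [h3, show u + 1 + (t - u) = t + 1 by omega]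
            exact hst t (by omega)
          · simp only [h5, h6, if_false]
            rw [show u + 1 + (t - s) = u + (t - s) + 1 by omega]
            exact hst _ (by omega)
    omega
  intro s t hs ht hst'
  rcases lt_trichotomy s t with h1 | h1 | h1
  · exact absurd hst' (key s t h1 ht)
  · exact h1
  · exact absurd hst'.symm (key t s h1 hs)

open Classical in
/-- the successor of a node on the path -/
noncomputable def nx (T : ℕ) (n : ℕ → Nd P) (x : Nd P) : Nd P :=
  if h : ∃ t, t ≤ T ∧ n t = x then n (h.choose + 1) else x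

theorem nx_eq {T : ℕ} {n : ℕ → Nd P} (hinj : ∀ s t, s ≤ T → t ≤ T → n s = n t → s = t)
    {t : ℕ} (ht : t ≤ T) : nx T n (n t) = n (t + 1) := by
  have h : ∃ s, s ≤ T ∧ n s = n t := ⟨t, ht, rfl⟩
  unfold nx
  rw [dif_pos h]
  rw [hinj _ _ h.choose_spec.1 ht h.choose_spec.2]

theorem mem_src {T : ℕ} {n : ℕ → Nd P} {i : ℕ} {x : Bool × P} :
    x ∈ src (P := P) ({p | ∃ t, t ≤ T ∧ n t = (i, true, p)}, {p | ∃ t, t ≤ T ∧ n t = (i, false, p)})
      ({p | ∃ t, t ≤ T ∧ n t = (i + 1, true, p)}, {p | ∃ t, t ≤ T ∧ n t = (i + 1, false, p)}) ↔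
      ∃ t, t ≤ T ∧ n t = ent i (i + 1) x := by
  obtain ⟨d, p⟩ := x
  cases d <;> simp [src, ent]

theorem mem_tgt {T : ℕ} {n : ℕ → Nd P} {i : ℕ} {x : Bool × P} :
    x ∈ tgt (P := P) ({p | ∃ t, t ≤ T ∧ n t = (i, true, p)}, {p | ∃ t, t ≤ T ∧ n t = (i, false, p)})
      ({p | ∃ t, t ≤ T ∧ n t = (i + 1, true, p)}, {p | ∃ t, t ≤ T ∧ n t = (i + 1, false, p)}) ↔
      ∃ t, t ≤ T ∧ n t = ext i (i + 1) x := by
  obtain ⟨d, p⟩ := x
  cases d <;> simp [tgt, ext]

end LocCAux

open LocCAux

theorem pm_of_full {v : ℕ → CR P} {E0 : P → P → Prop} {p0 f : P} {e : ℕ} (he : 0 < e)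
    (h : Full v E0 e (0, true, p0) (e, true, f)) :
    ∃ G : ℕ → Fr P, R0 E0 p0 (G 0) ∧ G e = ({f}, ∅) ∧
      ∀ i, i < e → PM v i (i + 1) (G i) (G (i + 1)) := by
  obtain ⟨T, n, h0, hT, hst, hinj⟩ := exists_inj_path h
  refine ⟨fun b => ({p | ∃ t, t ≤ T ∧ n t = (b, true, p)}, {p | ∃ t, t ≤ T ∧ n t = (b, false, p)}),
    ⟨⟨0, Nat.zero_le _, h0⟩, ?_⟩, ?_, ?_⟩
  · -- reflections
    have key : ∀ p, (∃ t, t ≤ T ∧ n t = (0, false, p)) →
        ∃ t p', t < T ∧ n t = (0, false, p) ∧ n (t + 1) = (0, true, p') ∧ E0 p p' ∧
          (nx T n (0, false, p)).2.2 = p' := by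
      rintro p ⟨t, ht, htn⟩
      have h1 : t ≠ T := by
        rintro rfl
        rw [hT] at htn
        simp at htn
      have h2 : t < T := by omega
      rcases hst t h2 with ⟨j, _, h3, _⟩ | ⟨q, q', h3, h4, h5⟩
      · rw [htn] at h3
        simp at h3
      · rw [htn] at h3
        simp only [Prod.mk.injEq, true_and] at h3
        subst h3
        refine ⟨t, q', h2, htn, h4, h5, ?_⟩
        rw [← htn, nx_eq hinj ht, h4]
    refine ⟨fun p => (nx T n (0, false, p)).2.2, ⟨?_, ?_, ?_⟩, ?_⟩
    · intro p hp
      obtain ⟨t, p', h1, h2, h3, h4, h5⟩ := key p hp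
      refine ⟨?_, ?_⟩
      · simp only [Set.mem_setOf_eq]
        rw [h5]
        exact ⟨t + 1, h1, h3⟩
      · simp only [Set.mem_singleton_iff]
        rw [h5]
        rintro rfl
        rw [← h0] at h3
        have := hinj _ _ h1 (Nat.zero_le _) h3
        omega
    · intro p hp q hq hpq
      obtain ⟨t, p', h1, h2, h3, h4, h5⟩ := key p hp
      obtain ⟨s, q', g1, g2, g3, g4, g5⟩ := key q hq
      simp only [h5, g5] at hpq
      subst hpq
      rw [← g3] at h3
      have := hinj _ _ h1 g1 h3
      have hts : t = s := by omega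
      subst hts
      rw [h2] at g2
      simpa using g2
    · rintro p' ⟨⟨t, ht, htn⟩, hne⟩
      have h1 : t ≠ 0 := by
        rintro rfl
        rw [h0] at htn
        simp only [Prod.mk.injEq, true_and] at htn
        exact hne (by simp [htn])
      obtain ⟨s, rfl⟩ : ∃ s, t = s + 1 := ⟨t - 1, by omega⟩
      rcases hst s ht with ⟨j, _, _, _, h3⟩ | ⟨q, q', h3, h4, h5⟩
      · rw [htn] at h3
        simp at h3
      · refine ⟨q, ⟨s, by omega, h3⟩, ?_⟩
        simp only
        rw [← h3, nx_eq hinj (by omega), htn]
    · intro p hp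
      obtain ⟨t, p', h1, h2, h3, h4, h5⟩ := key p hp
      simp only [h5]
      exact h4
  · -- the right end
    have h1 : {p | ∃ t, t ≤ T ∧ n t = (e, true, p)} = {f} := by
      ext p
      simp only [Set.mem_setOf_eq, Set.mem_singleton_iff]
      constructor
      · rintro ⟨t, ht, htn⟩
        by_cases h2 : t = T
        · subst h2
          rw [hT] at htn
          simp only [Prod.mk.injEq, true_and] at htn
          exact htn.symm
        · exfalso
          rcases hst t (by omega) with ⟨j, hj, h3, _⟩ | ⟨q, q', h3, _, _⟩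
          · rw [htn] at h3
            simp at h3
            omega
          · rw [htn] at h3
            simp at h3
      · rintro rfl
        exact ⟨T, le_rfl, hT⟩
    have h2 : {p | ∃ t, t ≤ T ∧ n t = (e, false, p)} = ∅ := by
      ext p
      simp only [Set.mem_setOf_eq, Set.mem_empty_iff_false, iff_false]
      rintro ⟨t, ht, htn⟩
      have h3 : t ≠ 0 := by
        rintro rfl
        rw [h0] at htn
        simp at htn
      obtain ⟨s, rfl⟩ : ∃ s, t = s + 1 := ⟨t - 1, by omega⟩
      rcases hst s ht with ⟨j, hj, _, _, h4⟩ | ⟨q, q', _, h4, _⟩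
      · rw [htn] at h4
        simp at h4
        omega
      · rw [htn] at h4
        simp at h4
    simp only [h1, h2]
  · -- one cell
    intro i hi
    have key : ∀ x, (∃ t, t ≤ T ∧ n t = ent i (i + 1) x) →
        ∃ t y, t < T ∧ n t = ent i (i + 1) x ∧ n (t + 1) = ext i (i + 1) y ∧ v i x.2 y.1 y.2 ∧
          (nx T n (ent i (i + 1) x)).2 = y := by
      rintro x ⟨t, ht, htn⟩
      have h1 : t ≠ T := by
        rintro rfl
        rw [hT] at htn
        unfold ent at htn
        rw [Prod.mk.injEq] at htn
        obtain ⟨h1, h2⟩ := htn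
        rw [← h2] at h1
        simp at h1
        omega
      have h2 : t < T := by omega
      rcases hst t h2 with ⟨j, _, h3, h4, h5⟩ | ⟨q, q', h3, _, _⟩
      · rw [htn] at h3 h4
        have hji : j = i := by
          unfold ent at h3
          simp only at h3
          split_ifs at h3 <;> omega
        subst hji
        have h6 : n (t + 1) = ext j (j + 1) (n (t + 1)).2 := by
          unfold ext
          rw [← h5]
        refine ⟨t, (n (t + 1)).2, h2, htn, h6, h4, ?_⟩
        rw [← htn, nx_eq hinj ht]
      · exfalso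
        rw [htn] at h3
        unfold ent at h3
        rw [Prod.mk.injEq] at h3
        obtain ⟨h3, h4⟩ := h3
        rw [h4] at h3
        simp at h3
    refine ⟨fun x => (nx T n (ent i (i + 1) x)).2, ⟨?_, ?_, ?_⟩, ?_⟩
    · intro x hx
      obtain ⟨t, y, h1, h2, h3, h4, h5⟩ := key x (mem_src.1 hx)
      refine mem_tgt.2 ?_
      simp only [h5]
      exact ⟨t + 1, h1, h3⟩
    · intro x hx x' hx' hxx
      obtain ⟨t, y, h1, h2, h3, h4, h5⟩ := key x (mem_src.1 hx)
      obtain ⟨s, z, g1, g2, g3, g4, g5⟩ := key x' (mem_src.1 hx')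
      simp only [h5, g5] at hxx
      subst hxx
      rw [← g3] at h3
      have := hinj _ _ h1 g1 h3
      have hts : t = s := by omega
      subst hts
      rw [h2] at g2
      unfold ent at g2
      rw [Prod.mk.injEq] at g2
      exact g2.2
    · intro y hy
      obtain ⟨t, ht, htn⟩ := mem_tgt.1 hy
      have h1 : t ≠ 0 := by
        rintro rfl
        rw [h0] at htn
        unfold ext at htn
        rw [Prod.mk.injEq] at htn
        obtain ⟨h1, h2⟩ := htn
        rw [← h2] at h1
        simp at h1
      obtain ⟨s, rfl⟩ : ∃ s, t = s + 1 := ⟨t - 1, by omega⟩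
      rcases hst s ht with ⟨j, _, h3, h4, h5⟩ | ⟨q, q', _, h4, _⟩
      · rw [htn] at h5
        have hji : j = i := by
          unfold ext at h5
          simp only at h5
          split_ifs at h5 <;> omega
        subst hji
        have h6 : n s = ent j (j + 1) (n s).2 := by
          unfold ent
          rw [← h3]
        refine ⟨(n s).2, mem_src.2 ⟨s, by omega, h6⟩, ?_⟩
        simp only
        rw [← h6, nx_eq hinj (by omega), htn]
        rfl
      · exfalso
        rw [htn] at h4
        unfold ext at h4
        rw [Prod.mk.injEq] at h4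
        obtain ⟨h4, h5⟩ := h4
        rw [h5] at h4
        simp at h4
    · intro x hx
      obtain ⟨t, y, h1, h2, h3, h4, h5⟩ := key x (mem_src.1 hx)
      simp only [h5]
      exact tb_single.2 h4

end Pool.Agent.P0036f5k
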