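import Pool.Agent.Lib.P0036f5k.LocB
import Pool.Agent.Lib.P0036f5k.LocC

/-!
# K4: acceptance in terms of the block informations

(→) Let `α` be the annotation and `f` the final state from `w ∈ Lk S k`, and
`G` the frontiers from `pm_of_full` for `v = cr S w α 0`, `e = w.length + 1`.  With `pm_comp` and
induction on `b`: `PM v a b (G a) (G b)` for all `a < b ≤ e`.  Claim: for `t * B ≤ w.length`,
`(cnt α (t * B), G (t * B)) ∈ RT S k w B t`.  For `t = 0`: `cnt_zero` and `R0`.  Step: with
`α' i = if t * B ≤ i ∧ i < (t + 1) * B then α i else none` one has `Supp α' (t B) ((t + 1) B)`,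
`cnt α i = cnt α (t * B) + cnt α' i` for `t * B ≤ i ≤ (t + 1) * B`, so
`cr S w α' (cnt α (t * B)) i = cr S w α 0 i` for `t * B ≤ i < (t + 1) * B` and `pm_congr` applies;
`cnt α ((t + 1) * B) ≤ cnt α w.length ≤ k` as `cnt α` is monotone.  Finally
`fin S k w (t * B) (cnt α (t * B), G (t * B))` in the same way with
`α' i = if t * B ≤ i then α i else none` (`Supp α 0 w.length` gives `Supp α' (t * B) w.length`).

(←) Claim by induction on `t` (`t * B ≤ w.length`): every `x ∈ RT S k w B t` comes with `α` and `X0` such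
that `Supp α 0 (t * B)`, `cnt α (t * B) = x.1`, `R0 S.E0 S.p0 X0` and (`t = 0` and `X0 = x.2`, or
`0 < t` and `PM (cr S w α 0) 0 (t * B) X0 x.2`).  Step: glue `α` (before `t * B`) and the annotation
`α'` of `bst` (from `t * B` on): `β i = if i < t * B then α i else α' i`; `cr S w β 0` agrees with
`cr S w α 0` before `t * B` and with `cr S w α' x.1` on `[t * B, (t + 1) * B)`; use `pm_congr`,
`pm_comp`.  At the end glue with the annotation of `fin` and apply `full_of_pm`.
-/

set_option autoImplicit false

namespace Pool.Agent.P0036f5k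

open Relation

variable {A P M : Type}

namespace GlueAux

theorem cnt_succ (α : ℕ → Option M) (i : ℕ) :
    cnt α (i + 1) = cnt α i + (if (α i).isSome then 1 else 0) := by
  unfold cnt
  rw [Finset.range_add_one, Finset.filter_insert]
  split_ifs with h
  · rw [Finset.card_insert_of_notMem (by simp)]
  · simp

theorem cnt_mono (α : ℕ → Option M) {a b : ℕ} (h : a ≤ b) : cnt α a ≤ cnt α b := by
  unfold cnt
  exact Finset.card_le_card (Finset.filter_subset_filter _ (Finset.range_mono h))

theorem cnt_congr {α β : ℕ → Option M} {i : ℕ} (h : ∀ o, o < i → α o = β o) :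
    cnt α i = cnt β i := by
  unfold cnt
  congr 1
  refine Finset.filter_congr fun o ho => ?_
  rw [h o (Finset.mem_range.mp ho)]

theorem cnt_none {α : ℕ → Option M} {i : ℕ} (h : ∀ o, o < i → α o = none) : cnt α i = 0 := by
  unfold cnt
  rw [Finset.card_eq_zero, Finset.filter_eq_empty_iff]
  intro o ho
  rw [h o (Finset.mem_range.mp ho)]
  simp

/-- gluing of two annotations at the boundary `a` -/
def gl (a : ℕ) (α α' : ℕ → Option M) : ℕ → Option M := fun o => if o < a then α o else α' o

theorem cnt_gl {a : ℕ} {α α' : ℕ → Option M} (h : ∀ o, o < a → α' o = none) {i : ℕ} (hi : a ≤ i) :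
    cnt (gl a α α') i = cnt α a + cnt α' i := by
  induction i, hi using Nat.le_induction with
  | base =>
    rw [cnt_none h, Nat.add_zero]
    exact cnt_congr fun o ho => if_pos ho
  | succ n hn ih =>
    rw [cnt_succ, cnt_succ, ih]
    have : gl a α α' n = α' n := if_neg (by omega)
    rw [this]
    omega

theorem none_of_supp {α : ℕ → Option M} {a b : ℕ} (h : Supp α a b) {o : ℕ} (ho : o < a) :
    α o = none := by
  by_contra hc
  have := h o (Option.isSome_iff_ne_none.mpr hc)
  omega

theorem cr_eq (S : LS A P M) (w : List A) {α β : ℕ → Option M} {j j' i : ℕ}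
    (h : j + cnt α i = j' + cnt β i) (h' : α i = β i) : cr S w α j i = cr S w β j' i := by
  unfold cr
  rw [h, h']

theorem pm_range [Finite P] {v : ℕ → CR P} {e : ℕ} {G : ℕ → Fr P}
    (h : ∀ i, i < e → PM v i (i + 1) (G i) (G (i + 1))) {a b : ℕ} (hab : a < b) (hb : b ≤ e) :
    PM v a b (G a) (G b) := by
  induction b, (hab : a + 1 ≤ b) using Nat.le_induction with
  | base => exact h a (by omega)
  | succ n hn ih =>
    exact pm_comp (by omega) (by omega) (ih (by omega)) (h n (by omega))

theorem pm_gl_left [Finite P] (S : LS A P M) (w : List A) {a : ℕ} {α α' : ℕ → Option M} {j : ℕ}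
    {X Y : Fr P} (h : PM (cr S w α j) 0 a X Y) : PM (cr S w (gl a α α') j) 0 a X Y := by
  refine (pm_congr fun i _ hi => ?_).mp h
  refine cr_eq S w ?_ (if_pos hi).symm
  congr 1
  exact cnt_congr fun o ho => (if_pos (by omega)).symm

theorem pm_gl_right [Finite P] (S : LS A P M) (w : List A) {a b : ℕ} {α α' : ℕ → Option M}
    (hn : ∀ o, o < a → α' o = none) {X Y : Fr P} (h : PM (cr S w α' (cnt α a)) a b X Y) :
    PM (cr S w (gl a α α') 0) a b X Y := by
  refine (pm_congr fun i hi _ => ?_).mp h
  refine cr_eq S w ?_ (if_neg (by omega)).symm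
  rw [cnt_gl hn hi]
  omega

theorem rt_back [Finite P] (S : LS A P M) (k : ℕ) (w : List A) (B : ℕ) (hB : 0 < B) (t : ℕ) :
    ∀ x ∈ RT S k w B t, ∃ (α : ℕ → Option M) (X0 : Fr P), Supp α 0 (t * B) ∧
      cnt α (t * B) = x.1 ∧ R0 S.E0 S.p0 X0 ∧
      ((t = 0 ∧ X0 = x.2) ∨ (0 < t ∧ PM (cr S w α 0) 0 (t * B) X0 x.2)) := by
  induction t with
  | zero =>
    intro x hx
    have hx' : x.1 = 0 ∧ R0 S.E0 S.p0 x.2 := hx
    refine ⟨fun _ => none, x.2, ?_, ?_, hx'.2, Or.inl ⟨rfl, rfl⟩⟩
    · intro i hi
      simp at hi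
    · rw [hx'.1]
      exact cnt_none fun _ _ => rfl
  | succ t ih =>
    rintro y ⟨x, hx, α', hs', hy, -, hpm⟩
    obtain ⟨α, X0, hs, hc, hR, hor⟩ := ih x hx
    have hn : ∀ o, o < t * B → α' o = none := fun o ho => none_of_supp hs' ho
    have hlt : t * B < (t + 1) * B := by nlinarith
    have hpm2 : PM (cr S w (gl (t * B) α α') 0) (t * B) ((t + 1) * B) x.2 y.2 := by
      apply pm_gl_right S w hn
      rw [hc]
      exact hpm
    refine ⟨gl (t * B) α α', X0, ?_, ?_, hR, Or.inr ⟨Nat.succ_pos t, ?_⟩⟩
    · intro i hi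
      unfold gl at hi
      split_ifs at hi with h
      · exact ⟨Nat.zero_le _, by omega⟩
      · exact ⟨Nat.zero_le _, (hs' i hi).2⟩
    · rw [cnt_gl hn hlt.le, hc, hy]
    · rcases hor with ⟨h0, hX⟩ | ⟨h0, hP⟩
      · subst h0
        rw [hX]
        simpa using hpm2
      · exact pm_comp (Nat.mul_pos h0 hB) hlt (pm_gl_left S w hP) hpm2

end GlueAux

open GlueAux

theorem cnt_zero (α : ℕ → Option M) : cnt α 0 = 0 := by
  simp [cnt]

theorem mem_Lk_iff [Finite P] (S : LS A P M) (k : ℕ) (w : List A) (B : ℕ) (hB : 0 < B) (t : ℕ)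
    (ht : t * B ≤ w.length) :
    w ∈ Lk S k ↔ ∃ x ∈ RT S k w B t, fin S k w (t * B) x := by
  constructor
  · rintro ⟨α, hs, hk, f, hf, hfull⟩
    obtain ⟨G, hR, hGe, hG⟩ := pm_of_full (Nat.succ_pos _) hfull
    have hpm : ∀ a b, a < b → b ≤ w.length + 1 → PM (cr S w α 0) a b (G a) (G b) :=
      fun a b hab hb => pm_range hG hab hb
    have key : ∀ a (α' : ℕ → Option M), (∀ o, o < a → α' o = none) →
        ∀ b, a ≤ b → (∀ o, a ≤ o → o < b → α' o = α o) → cnt α b = cnt α a + cnt α' b := by
      intro a α' hn b hab hα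
      rw [← cnt_gl hn hab]
      refine cnt_congr fun o ho => ?_
      unfold gl
      split_ifs with h
      · rfl
      · exact (hα o (by omega) ho).symm
    refine ⟨(cnt α (t * B), G (t * B)), ?_, ?_⟩
    · have claim : ∀ s, s * B ≤ w.length → (cnt α (s * B), G (s * B)) ∈ RT S k w B s := by
        intro s
        induction s with
        | zero =>
          intro _
          show cnt α (0 * B) = 0 ∧ R0 S.E0 S.p0 (G (0 * B))
          rw [Nat.zero_mul]
          exact ⟨cnt_zero α, hR⟩
        | succ s ih =>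
          intro hs1
          have hlt : s * B < (s + 1) * B := by nlinarith
          refine ⟨(cnt α (s * B), G (s * B)), ih (by omega),
            fun i => if s * B ≤ i ∧ i < (s + 1) * B then α i else none, ?_, ?_, ?_, ?_⟩
          · intro i hi
            by_contra hc
            simp only [if_neg hc] at hi
            simp at hi
          · refine key _ _ (fun o ho => if_neg (by omega)) _ hlt.le
              (fun o h1 h2 => if_pos ⟨h1, h2⟩)
          · exact (cnt_mono α hs1).trans hk
          · refine (pm_congr fun i h1 h2 => ?_).mp (hpm (s * B) ((s + 1) * B) hlt (by omega))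
            refine cr_eq S w ?_ (if_pos ⟨h1, h2⟩).symm
            have := key (s * B) (fun i => if s * B ≤ i ∧ i < (s + 1) * B then α i else none)
              (fun o ho => if_neg (by omega)) i h1 (fun o h3 h4 => if_pos ⟨h3, by omega⟩)
            simp only [Nat.zero_add]
            exact this
      exact claim t ht
    · have hkey : ∀ i, t * B ≤ i →
          cnt α i = cnt α (t * B) + cnt (fun i => if t * B ≤ i then α i else none) i := by
        intro i hi
        exact key (t * B) (fun i => if t * B ≤ i then α i else none)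
          (fun o ho => if_neg (by omega)) i hi (fun o h1 _ => if_pos h1)
      refine ⟨fun i => if t * B ≤ i then α i else none, ?_, ?_, f, hf, ?_⟩
      · intro i hi
        by_cases hc : t * B ≤ i
        · simp only [if_pos hc] at hi
          exact ⟨hc, (hs i hi).2⟩
        · simp only [if_neg hc] at hi
          simp at hi
      · show cnt α (t * B) + _ ≤ k
        rw [← hkey _ ht]
        exact hk
      · show PM _ (t * B) (w.length + 1) (G (t * B)) ({f}, ∅)
        rw [← hGe]
        refine (pm_congr fun i h1 h2 => ?_).mp (hpm (t * B) (w.length + 1) (by omega) le_rfl)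
        refine cr_eq S w ?_ (if_pos h1).symm
        simp only [Nat.zero_add]
        exact hkey i h1
  · rintro ⟨x, hx, α', hs', hk, f, hf, hpm⟩
    obtain ⟨α, X0, hs, hc, hR, hor⟩ := rt_back S k w B hB t x hx
    have hn : ∀ o, o < t * B → α' o = none := fun o ho => none_of_supp hs' ho
    have hpm2 : PM (cr S w (gl (t * B) α α') 0) (t * B) (w.length + 1) x.2 ({f}, ∅) := by
      apply pm_gl_right S w hn
      rw [hc]
      exact hpm
    refine ⟨gl (t * B) α α', ?_, ?_, f, hf, ?_⟩
    · intro i hi
      unfold gl at hi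
      split_ifs at hi with h
      · exact ⟨Nat.zero_le _, by omega⟩
      · exact ⟨Nat.zero_le _, (hs' i hi).2⟩
    · rw [cnt_gl hn ht, hc]
      exact hk
    · refine full_of_pm (Nat.succ_pos _) hR (X := X0) ?_
      rcases hor with ⟨h0, hX⟩ | ⟨h0, hP⟩
      · subst h0
        rw [hX]
        simpa using hpm2
      · exact pm_comp (Nat.mul_pos h0 hB) (by omega) (pm_gl_left S w hP) hpm2

end Pool.Agent.P0036f5k
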