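import Pool.Agent.Lib.P0036f5k.StepB
import Pool.Agent.Lib.P0036f5k.Glue

/-!
# K8a: the frontier bits and acceptance
-/

set_option autoImplicit false

namespace Pool.Agent.P0036f5k

open Relation Pool.Agent.P0036f5v2 Pool.Agent.P0036f5w Pool.Agent.P0036f5g Classical

variable {A P M : Type}

namespace BitsAAux

theorem sl_pos {Z : Par A P M} (hZ : Z.Ok) : 0 < Z.sl := by
  have := hZ.hK
  show 0 < (Z.mx + 1) * (Z.K * Z.K)
  positivity

theorem sl_add {Z : Par A P M} (hZ : Z.Ok) : Z.sl + NK Z.k Z.K ≤ Z.bl := by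
  have h1 := sl_pos hZ
  have h2 : (NK Z.k Z.K + 1) * Z.sl ≤ 2 ^ Z.mx * Z.sl := Nat.mul_le_mul_right _ hZ.hN
  have h3 : NK Z.k Z.K * 1 ≤ NK Z.k Z.K * Z.sl := Nat.mul_le_mul_left _ h1
  have h4 : (NK Z.k Z.K + 1) * Z.sl = NK Z.k Z.K * Z.sl + Z.sl := by ring
  show Z.sl + NK Z.k Z.K ≤ 2 ^ Z.mx * Z.sl
  omega

theorem RT_le (S : LS A P M) (k : ℕ) (w : List A) (B : ℕ) : ∀ (t : ℕ) (x : ℕ × Fr P),
    x ∈ RT S k w B t → x.1 ≤ k
  | 0, x, h => by
    have h1 : x.1 = 0 := h.1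
    omega
  | t + 1, x, h => by
    obtain ⟨_, _, _, _, _, h1, _⟩ := h
    exact h1

/-- reading a frontier bit -/
theorem eval_aR {Z : Par A P M} (hZ : Z.Ok) {w : List A} {t r : ℕ} {v : ℕ → Sy A}
    (hr : Z.bl ≤ r) (hv : Z.Vw w (t * Z.bl) r v) {x : ℕ} (hx : x < NK Z.k Z.K) :
    (Par.aR (r - (Z.sl + x)) : DT (Sy A)).eval v = true ↔
      Z.info x ∈ RT Z.S Z.k w Z.bl t := by
  have h1 := sl_add hZ
  obtain ⟨c, -, h2⟩ := hv (Z.sl + x) (by omega)
  have h3 : (Par.aR (r - (Z.sl + x)) : DT (Sy A)).eval v =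
      (Z.note w (t * Z.bl + (Z.sl + x))).1 := by
    show (DT.ret (match v (r - (Z.sl + x)) with
      | some (_, b) => b.1
      | none => false)).eval v = _
    rw [h2]
    rfl
  rw [h3]
  have h4 : (t * Z.bl + (Z.sl + x)) % Z.bl = Z.sl + x := by
    rw [Nat.mul_comm, Nat.mul_add_mod]
    exact Nat.mod_eq_of_lt (by omega)
  have h5 : (t * Z.bl + (Z.sl + x)) / Z.bl = t := by
    rw [Nat.mul_comm, Nat.mul_add_div (by omega)]
    rw [Nat.div_eq_of_lt (by omega), Nat.add_zero]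
  show decide (rbit Z.S Z.k w Z.sl Z.bl (NK Z.k Z.K) Z.info (t * Z.bl + (Z.sl + x))) = true ↔ _
  rw [decide_eq_true_iff]
  unfold rbit
  rw [h4, h5]
  have h6 : Z.sl + x - Z.sl = x := by omega
  rw [h6]
  constructor
  · exact fun h => h.2.2
  · exact fun h => ⟨by omega, hx, h⟩

end BitsAAux

open BitsAAux

namespace Par

theorem eval_rT [Finite P] {Z : Par A P M} (hZ : Z.Ok) {w : List A} {t r : ℕ} {v : ℕ → Sy A}
    (hr : r < 2 * Z.bl) (ht : t = 0 ∨ Z.bl ≤ r) (hv : Z.Vw w (t * Z.bl) r v) :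
    (Z.rT r).eval v = true ↔
      rbit Z.S Z.k w Z.sl Z.bl (NK Z.k Z.K) Z.info (t * Z.bl + r) := by
  have hadd := sl_add hZ
  have hsl := sl_pos hZ
  unfold rT
  by_cases h1 : r < Z.bl
  · rw [if_pos h1]
    have h0 : t = 0 := ht.resolve_right (by omega)
    subst h0
    show decide _ = true ↔ _
    rw [decide_eq_true_iff]
    unfold rbit
    rw [Nat.zero_mul, Nat.zero_add, Nat.mod_eq_of_lt h1, Nat.div_eq_of_lt h1]
    rfl
  · rw [if_neg h1]
    have h4 : (t * Z.bl + r) % Z.bl = r - Z.bl := by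
      rw [show t * Z.bl + r = Z.bl * (t + 1) + (r - Z.bl) by
        rw [Nat.mul_add, Nat.mul_comm Z.bl t]; omega, Nat.mul_add_mod]
      exact Nat.mod_eq_of_lt (by omega)
    have h5 : (t * Z.bl + r) / Z.bl = t + 1 := by
      rw [show t * Z.bl + r = Z.bl * (t + 1) + (r - Z.bl) by
        rw [Nat.mul_add, Nat.mul_comm Z.bl t]; omega, Nat.mul_add_div (by omega),
        Nat.div_eq_of_lt (by omega), Nat.add_zero]
    unfold rbit
    rw [h4, h5]
    by_cases h2 : Z.sl ≤ r - Z.bl ∧ r - Z.bl - Z.sl < NK Z.k Z.K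
    · rw [if_pos h2, DT.eval_orN]
      constructor
      · rintro ⟨x, hx, h3⟩
        rw [DT.eval_and, Bool.and_eq_true] at h3
        refine ⟨h2.1, h2.2, Z.info x, (eval_aR hZ (by omega) hv hx).1 h3.1, ?_⟩
        exact (eval_stT hZ hv (by omega) _ _).1 h3.2
      · rintro ⟨-, -, y, hy, h3⟩
        obtain ⟨x, hx, rfl⟩ := hZ.hinfo y (RT_le _ _ _ _ _ _ hy)
        refine ⟨x, hx, ?_⟩
        rw [DT.eval_and, Bool.and_eq_true]
        exact ⟨(eval_aR hZ (by omega) hv hx).2 hy, (eval_stT hZ hv (by omega) _ _).2 h3⟩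
    · rw [if_neg h2]
      constructor
      · intro h
        exact absurd h (by simp [DT.eval])
      · rintro ⟨h3, h4, -⟩
        exact absurd ⟨h3, h4⟩ h2

theorem eval_fT [Finite P] {Z : Par A P M} (hZ : Z.Ok) {w : List A} {t r : ℕ} {v : ℕ → Sy A}
    (hr : r < 2 * Z.bl) (ht : t = 0 ∨ Z.bl ≤ r) (hv : Z.Vw w (t * Z.bl) r v)
    (hw : w.length = t * Z.bl + r) :
    (Z.fT r).eval v = true ↔ w ∈ Lk Z.S Z.k := by
  have hadd := sl_add hZ
  have hsl := sl_pos hZ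
  rw [mem_Lk_iff Z.S Z.k w Z.bl (by omega) t (by omega)]
  unfold fT
  by_cases h1 : r < Z.bl
  · rw [if_pos h1, DT.eval_orN]
    have h0 : t = 0 := ht.resolve_right (by omega)
    subst h0
    constructor
    · rintro ⟨x, hx, h3⟩
      by_cases h4 : Z.st0 x
      · rw [if_pos h4] at h3
        exact ⟨Z.info x, h4, (eval_acT hZ hv hr hw _).1 h3⟩
      · rw [if_neg h4] at h3
        exact absurd h3 (by simp [DT.eval])
    · rintro ⟨y, hy, h3⟩
      obtain ⟨x, hx, rfl⟩ := hZ.hinfo y (RT_le _ _ _ _ _ _ hy)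
      refine ⟨x, hx, ?_⟩
      rw [if_pos (show Z.st0 x from hy)]
      exact (eval_acT hZ hv hr hw _).2 h3
  · rw [if_neg h1, DT.eval_orN]
    constructor
    · rintro ⟨x, hx, h3⟩
      rw [DT.eval_and, Bool.and_eq_true] at h3
      exact ⟨Z.info x, (eval_aR hZ (by omega) hv hx).1 h3.1, (eval_acT hZ hv hr hw _).1 h3.2⟩
    · rintro ⟨y, hy, h3⟩
      obtain ⟨x, hx, rfl⟩ := hZ.hinfo y (RT_le _ _ _ _ _ _ hy)
      refine ⟨x, hx, ?_⟩
      rw [DT.eval_and, Bool.and_eq_true]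
      exact ⟨(eval_aR hZ (by omega) hv hx).2 hy, (eval_acT hZ hv hr hw _).2 h3⟩

end Par

end Pool.Agent.P0036f5k
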