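import Pool.Agent.Lib.P0036f5k.TreeA

/-!
# K8b: the table bits

The region starts at `a = t * B`, `n = a + r` letters have been visited, `r < 2 B`, and `t = 0` or
`B ≤ r`.  With `u = r / ℓ`: `n / ℓ = t 2 ^ mx + u`, `n % ℓ = r % ℓ`, `s = r % ℓ / K² ≤ mx`,
`2 ^ s ∣ t 2 ^ mx + u ↔ 2 ^ s ∣ u`, and `0 < u ↔ 0 < t 2 ^ mx + u` as `t = 0` or `B ≤ r`.  The table of
`[(u - 2 ^ s) ℓ, u ℓ)` (relative) is computed by `eval_lsT` from the pieces: `s = 0`: the `ℓ` cells
of the slot `u - 1`, all visited; `s + 1`: the two halves, valid because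
`2 ^ s ∣ u`, `2 ^ s ∣ u - 2 ^ s`, `0 < u - 2 ^ s` (as `2 ^ (s + 1) ∣ u`, `0 < u`),
`(u - 2 ^ s) ℓ + (s + 1) K² ≤ u ℓ ≤ r`, and `u ℓ + (s + 1) K² ≤ r` because
`r % ℓ / K² = s + 1`.  Then shift by `a` (`tb_shift`, `tb_congr`:
`cr S (w.drop a) none 0 o = cr S w none 0 (a + o)`, as `cnt` of the constant `none` is `0`).
The number of pieces is `ℓ ≤ LK` or `2 ≤ LK`; `rnd` does not occur.
-/

set_option autoImplicit false

namespace Pool.Agent.P0036f5k

open Relation Pool.Agent.P0036f5v2 Pool.Agent.P0036f5w Pool.Agent.P0036f5g Classical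

variable {A P M : Type}

namespace BitsBAux

private theorem chn_append {ℓ h : ℕ} : ∀ (l1 : List Pc) {l2 : List Pc} {a b c : ℕ},
    Chn ℓ h l1 a b → Chn ℓ h l2 b c → Chn ℓ h (l1 ++ l2) a c
  | [], _, _, _, _, h1, h2 => by
    have h3 : _ = _ := h1
    subst h3
    exact h2
  | _ :: l1, _, _, _, _, h1, h2 => ⟨h1.1, h1.2.1, chn_append l1 h1.2.2 h2⟩

private theorem chn_raw (ℓ h a : ℕ) : ∀ n : ℕ,
    Chn ℓ h ((List.range n).map fun c => Pc.raw (a + c)) a (a + n)
  | 0 => rfl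
  | n + 1 => by
    rw [List.range_succ, List.map_append]
    refine chn_append _ (chn_raw ℓ h a n) ?_
    exact ⟨rfl, Nat.lt_succ_self _, rfl⟩

private theorem cr_drop (S : LS A P M) (w : List A) (a o : ℕ) :
    cr S (w.drop a) (fun _ => none) 0 o = cr S w (fun _ => none) 0 (a + o) := by
  unfold cr
  rw [List.getElem?_drop]
  cases w[a + o]? <;> rfl

end BitsBAux

namespace Par

open BitsBAux

theorem eval_tT {Z : Par A P M} (hZ : Z.Ok) {w : List A} {t r : ℕ} {v : ℕ → Sy A}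
    (hr : r < 2 * Z.bl) (ht : t = 0 ∨ Z.bl ≤ r) (hv : Z.Vw w (t * Z.bl) r v) :
    (Z.tT r).eval v = true ↔ tbit Z.S w Z.sl Z.K Z.ρ (t * Z.bl + r) := by
  have hKK : 0 < Z.K * Z.K := Nat.mul_pos hZ.hK hZ.hK
  have hsl : Z.sl = (Z.mx + 1) * (Z.K * Z.K) := rfl
  have hbl : Z.bl = 2 ^ Z.mx * Z.sl := rfl
  have hℓ : 0 < Z.sl := by rw [hsl]; positivity
  have hn : t * Z.bl + r = r + Z.sl * (t * 2 ^ Z.mx) := by rw [hbl]; ring
  have hdiv : (t * Z.bl + r) / Z.sl = t * 2 ^ Z.mx + r / Z.sl := by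
    rw [hn, Nat.add_mul_div_left _ _ hℓ, add_comm]
  have hmod : (t * Z.bl + r) % Z.sl = r % Z.sl := by
    rw [hn, Nat.add_mul_mod_self_left]
  have hrm : r % Z.sl < Z.sl := Nat.mod_lt _ hℓ
  have hs : r % Z.sl / (Z.K * Z.K) ≤ Z.mx := by
    have : r % Z.sl / (Z.K * Z.K) < Z.mx + 1 := by
      rw [Nat.div_lt_iff_lt_mul hKK]
      exact lt_of_lt_of_eq hrm hsl
    omega
  have hur : r / Z.sl * Z.sl + r % Z.sl = r := by
    have := Nat.div_add_mod r Z.sl
    rw [mul_comm] at this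
    exact this
  have hdvd : 2 ^ (r % Z.sl / (Z.K * Z.K)) ∣ t * 2 ^ Z.mx + r / Z.sl ↔
      2 ^ (r % Z.sl / (Z.K * Z.K)) ∣ r / Z.sl :=
    (Nat.dvd_add_right (Dvd.dvd.mul_left (pow_dvd_pow 2 hs) t))
  have hpos : 0 < t * 2 ^ Z.mx + r / Z.sl ↔ 0 < r / Z.sl := by
    rcases ht with rfl | ht
    · simp
    · have h1 : 2 ^ Z.mx ≤ r / Z.sl := by
        rw [Nat.le_div_iff_mul_le hℓ]
        exact ht
      have h2 : 0 < 2 ^ Z.mx := by positivity
      constructor
      · intro _; omega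
      · intro _; omega
  unfold tT tbit
  rw [hdiv, hmod]
  by_cases hc : 0 < r / Z.sl ∧ 2 ^ (r % Z.sl / (Z.K * Z.K)) ∣ r / Z.sl
  · rw [if_pos hc]
    obtain ⟨hu, hd⟩ := hc
    have hle : 2 ^ (r % Z.sl / (Z.K * Z.K)) ≤ r / Z.sl := Nat.le_of_dvd hu hd
    -- the chain
    have key : ∀ (l : List Pc),
        l = (match r % Z.sl / (Z.K * Z.K) with
          | 0 => (List.range Z.sl).map fun c => Pc.raw ((r / Z.sl - 1) * Z.sl + c)
          | s + 1 => [Pc.blk s (r / Z.sl - 2 ^ s), Pc.blk s (r / Z.sl)]) →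
        Chn Z.sl r l ((r / Z.sl - 2 ^ (r % Z.sl / (Z.K * Z.K))) * Z.sl) (r / Z.sl * Z.sl) ∧
          l ≠ [] ∧ (∀ p ∈ l, Val (fun _ => (none : Option M)) Z.sl Z.K Z.mx r p) ∧
          l.length ≤ LK Z.k Z.mx Z.K ∧ Pc.rnd ∉ l := by
      intro l hl
      generalize hsdef : r % Z.sl / (Z.K * Z.K) = s at hl hs hd hle ⊢
      have hLK : 2 ≤ LK Z.k Z.mx Z.K ∧ Z.sl ≤ LK Z.k Z.mx Z.K := by
        have h1 : Z.sl = ℓK Z.mx Z.K := rfl
        have h2 : ℓK Z.mx Z.K ≤ 2 * (Z.k + 2) * (Z.mx + ℓK Z.mx Z.K) := by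
          calc ℓK Z.mx Z.K ≤ Z.mx + ℓK Z.mx Z.K := Nat.le_add_left _ _
            _ = 1 * (Z.mx + ℓK Z.mx Z.K) := (one_mul _).symm
            _ ≤ _ := Nat.mul_le_mul_right _ (by omega)
        unfold LK
        rw [h1]
        omega
      cases s with
      | zero =>
        have hu1 : (r / Z.sl - 1) * Z.sl + Z.sl = r / Z.sl * Z.sl := by
          obtain ⟨u, hu'⟩ := Nat.exists_eq_succ_of_ne_zero hu.ne'
          rw [hu', Nat.succ_eq_add_one, Nat.add_sub_cancel, add_mul, one_mul]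
        change l = (List.range Z.sl).map fun c => Pc.raw ((r / Z.sl - 1) * Z.sl + c) at hl
        subst hl
        refine ⟨?_, ?_, ?_, ?_, ?_⟩
        · have h1 := chn_raw Z.sl r ((r / Z.sl - 1) * Z.sl) Z.sl
          rw [hu1] at h1
          rw [pow_zero]
          exact h1
        · intro h1
          rw [List.map_eq_nil_iff, List.range_eq_nil] at h1
          omega
        · intro p hp
          obtain ⟨c, hc, rfl⟩ := List.mem_map.1 hp
          rw [List.mem_range] at hc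
          change (r / Z.sl - 1) * Z.sl + c < r
          omega
        · rw [List.length_map, List.length_range]
          exact hLK.2
        · intro h1
          obtain ⟨c, hc, h2⟩ := List.mem_map.1 h1
          cases h2
      | succ s =>
        change l = [Pc.blk s (r / Z.sl - 2 ^ s), Pc.blk s (r / Z.sl)] at hl
        subst hl
        have h2s : 0 < 2 ^ s := by positivity
        have hps : 2 ^ (s + 1) = 2 ^ s + 2 ^ s := by rw [pow_succ]; ring
        have hd' : 2 ^ s ∣ r / Z.sl := (pow_dvd_pow 2 (Nat.le_succ s)).trans hd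
        have hmods : (s + 1) * (Z.K * Z.K) ≤ r % Z.sl := by
          rw [← Nat.le_div_iff_mul_le hKK]
          exact hsdef.ge
        have hstep : (r / Z.sl - 2 ^ s) * Z.sl + Z.sl ≤ r / Z.sl * Z.sl := by
          have h1 : (r / Z.sl - 2 ^ s) + 1 ≤ r / Z.sl := by omega
          have h3 := Nat.mul_le_mul_right Z.sl h1
          rw [add_mul, one_mul] at h3
          exact h3
        have hsK : (s + 1) * (Z.K * Z.K) ≤ Z.sl := by
          rw [hsl]
          exact Nat.mul_le_mul_right _ (by omega)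
        refine ⟨?_, by simp, ?_, ?_, by simp⟩
        · refine ⟨?_, ?_, rfl, ?_, rfl⟩
          · change (r / Z.sl - 2 ^ s - 2 ^ s) * Z.sl = _
            rw [Nat.sub_sub, ← hps]
          · change _ < (r / Z.sl - 2 ^ s) * Z.sl
            refine Nat.mul_lt_mul_of_pos_right ?_ hℓ
            omega
          · change (r / Z.sl - 2 ^ s) * Z.sl < r / Z.sl * Z.sl
            omega
        · intro p hp
          rw [List.mem_cons, List.mem_singleton] at hp
          rcases hp with rfl | rfl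
          · refine ⟨by omega, Nat.dvd_sub hd' dvd_rfl, by omega, ?_, fun _ _ _ => rfl⟩
            omega
          · refine ⟨by omega, hd', hu, ?_, fun _ _ _ => rfl⟩
            omega
        · exact hLK.1
    obtain ⟨h1, h2, h3, h4, h5⟩ := key _ rfl
    refine (eval_lsT hZ hv h1 h2 h3 h4 (fun h => absurd h h5) _ _).trans ?_
    rw [hdvd, hpos]
    have e1 : t * Z.bl + (r / Z.sl - 2 ^ (r % Z.sl / (Z.K * Z.K))) * Z.sl =
        (t * 2 ^ Z.mx + r / Z.sl - 2 ^ (r % Z.sl / (Z.K * Z.K))) * Z.sl := by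
      rw [Nat.add_sub_assoc hle, add_mul, hbl]
      ring
    have e2 : t * Z.bl + r / Z.sl * Z.sl = (t * 2 ^ Z.mx + r / Z.sl) * Z.sl := by
      rw [add_mul, hbl]
      ring
    have e3 : (cr Z.S (w.drop (t * Z.bl)) (fun _ => none) 0) =
        fun i => cr Z.S w (fun _ => none) 0 (t * Z.bl + i) := by
      funext i
      exact cr_drop _ _ _ _
    rw [e3, tb_shift, e1, e2]
    exact ⟨fun h => ⟨hu, hd, h⟩, fun h => h.2.2⟩
  · rw [if_neg hc]
    constructor
    · intro h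
      cases h
    · rintro ⟨h1, h2, -⟩
      exact absurd ⟨hpos.1 h1, hdvd.1 h2⟩ hc

end Par

end Pool.Agent.P0036f5k
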