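import Pool.Agent.Lib.P0036f5g.GFin

/-!
# 1-limited automata that change few cells: definitions (project K, MP_0036f5)

Everything about the two-way behaviour on a fixed annotated word is expressed by local systems: the
cell with index `i` has a behaviour `v i : CR P` (`v i p d p'`: with the head on this cell in the state
`p` one can leave it in the direction `d`, `d = true` to the right, in the state `p'`).  Nodes are
crossings `(b, d, p)` of the boundary `b` (between the cells `b - 1` and `b`) in the direction `d` in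
the state `p`.
-/

set_option autoImplicit false

namespace Pool.Agent.P0036f5k

open Relation Pool.Agent.P0036f5v2 Pool.Agent.P0036f5w Pool.Agent.P0036f5g

/-! ### Matchings -/

/-- there is a bijection from `S` to `T` along `R` -/
def HasPM {α β : Type} (R : α → β → Prop) (S : Set α) (T : Set β) : Prop :=
  ∃ σ : α → β, Set.BijOn σ S T ∧ ∀ x ∈ S, R x (σ x)

/-! ### Crossing graphs -/

/-- behaviour of a cell -/
abbrev CR (P : Type) : Type := P → Bool → P → Prop

/-- crossings: boundary, direction (`true` = to the right), state -/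
abbrev Nd (P : Type) : Type := ℕ × Bool × P

/-- frontiers: the states of the crossings to the right and to the left -/
abbrev Fr (P : Type) : Type := Set P × Set P

variable {P : Type}

/-- one move in the cell `i`, from the crossing before it to the crossing after it -/
def EC (v : ℕ → CR P) (i : ℕ) (x y : Nd P) : Prop :=
  x.1 = (if x.2.1 = true then i else i + 1) ∧ v i x.2.2 y.2.1 y.2.2 ∧
    y.1 = (if y.2.1 = true then i + 1 else i)

/-- reachability by moves in the cells `a, …, b - 1` -/
def RB (v : ℕ → CR P) (a b : ℕ) : Nd P → Nd P → Prop :=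
  ReflTransGen fun x y => ∃ i, a ≤ i ∧ i < b ∧ EC v i x y

/-- the entry of the segment `[a, b)` with direction and state `x` -/
def ent (a b : ℕ) (x : Bool × P) : Nd P := (if x.1 = true then a else b, x)

/-- the exit of the segment `[a, b)` with direction and state `x` -/
def ext (a b : ℕ) (x : Bool × P) : Nd P := (if x.1 = true then b else a, x)

/-- the two-sided table of the segment `[a, b)` -/
def TB (v : ℕ → CR P) (a b : ℕ) (x y : Bool × P) : Prop := RB v a b (ent a b x) (ext a b y)

/-- the entries used by a path with the frontier `X` at the left and `Y` at the right end -/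
def src (X Y : Fr P) : Set (Bool × P) := {x | if x.1 = true then x.2 ∈ X.1 else x.2 ∈ Y.2}

/-- the exits used by a path with the frontier `X` at the left and `Y` at the right end -/
def tgt (X Y : Fr P) : Set (Bool × P) := {x | if x.1 = true then x.2 ∈ Y.1 else x.2 ∈ X.2}

/-- the frontiers `X` at the boundary `a` and `Y` at the boundary `b` are compatible -/
def PM (v : ℕ → CR P) (a b : ℕ) (X Y : Fr P) : Prop := HasPM (TB v a b) (src X Y) (tgt X Y)

/-- moves in the cells `0, …, e - 1` and reflections at the left end -/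
def Full (v : ℕ → CR P) (E0 : P → P → Prop) (e : ℕ) : Nd P → Nd P → Prop :=
  ReflTransGen fun x y => (∃ i, i < e ∧ EC v i x y) ∨
    ∃ p p', x = (0, false, p) ∧ y = (0, true, p') ∧ E0 p p'

/-- the possible frontiers at the boundary `0` of a path that starts there in the state `p0` -/
def R0 (E0 : P → P → Prop) (p0 : P) (X : Fr P) : Prop :=
  p0 ∈ X.1 ∧ HasPM E0 X.2 (X.1 \ {p0})

/-! ### Annotated words -/

/-- a local system over the letters `A` with marks `M` -/
structure LS (A P M : Type) where
  L0 : A → CR P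
  L1 : ℕ → M → A → CR P
  Lr : CR P
  E0 : P → P → Prop
  p0 : P
  F : Set P

variable {A M : Type}

/-- the number of annotated cells before `i` -/
def cnt (α : ℕ → Option M) (i : ℕ) : ℕ := ((Finset.range i).filter fun o => (α o).isSome).card

/-- only cells in `[a, b)` are annotated -/
def Supp (α : ℕ → Option M) (a b : ℕ) : Prop := ∀ i, (α i).isSome → a ≤ i ∧ i < b

/-- the behaviour of a letter cell: `j` marks before, annotation `m` -/
def lc (S : LS A P M) (j : ℕ) (m : Option M) (a : A) : CR P :=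
  match m with
  | none => S.L0 a
  | some μ => S.L1 j μ a

/-- the behaviour of the cell `i` of the annotated word, if `j` marks come before; the cell
`w.length` is the right end-marker -/
def cr (S : LS A P M) (w : List A) (α : ℕ → Option M) (j i : ℕ) : CR P :=
  match w[i]? with
  | some a => lc S (j + cnt α i) (α i) a
  | none => S.Lr

/-- the words accepted with at most `k` annotations -/
def Lk (S : LS A P M) (k : ℕ) : Language A :=
  {w | ∃ α, Supp α 0 w.length ∧ cnt α w.length ≤ k ∧ ∃ f ∈ S.F,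
    Full (cr S w α 0) S.E0 (w.length + 1) (0, true, S.p0) (w.length + 1, true, f)}

/-- one block: from the information at the boundary `a` to the information at the boundary `b` -/
def bst (S : LS A P M) (k : ℕ) (w : List A) (a b : ℕ) (x y : ℕ × Fr P) : Prop :=
  ∃ α, Supp α a b ∧ y.1 = x.1 + cnt α b ∧ y.1 ≤ k ∧ PM (cr S w α x.1) a b x.2 y.2

/-- the information (number of marks, frontier) that can occur after `t` blocks of length `B` -/
def RT (S : LS A P M) (k : ℕ) (w : List A) (B : ℕ) : ℕ → Set (ℕ × Fr P)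
  | 0 => {x | x.1 = 0 ∧ R0 S.E0 S.p0 x.2}
  | t + 1 => {y | ∃ x ∈ RT S k w B t, bst S k w (t * B) ((t + 1) * B) x y}

/-- acceptance from the information at the boundary `a` -/
def fin (S : LS A P M) (k : ℕ) (w : List A) (a : ℕ) (x : ℕ × Fr P) : Prop :=
  ∃ α, Supp α a w.length ∧ x.1 + cnt α w.length ≤ k ∧ ∃ f ∈ S.F,
    PM (cr S w α x.1) a (w.length + 1) x.2 ({f}, ∅)

/-! ### Pieces

Offsets are relative to the boundary `a` of a block.  Slots have `ℓ` cells. -/

/-- a piece of a region: the cell with offset `o`; the `2 ^ s` slots before the slot `u` (no marks, its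
table is stored in the slot `u`); the right end-marker (with offset `h`) -/
inductive Pc : Type
  | raw (o : ℕ)
  | blk (s u : ℕ)
  | rnd
  deriving DecidableEq

/-- left boundary of a piece -/
def Pc.lo (ℓ h : ℕ) : Pc → ℕ
  | .raw o => o
  | .blk s u => (u - 2 ^ s) * ℓ
  | .rnd => h

/-- right boundary of a piece -/
def Pc.hi (ℓ h : ℕ) : Pc → ℕ
  | .raw o => o + 1
  | .blk _ u => u * ℓ
  | .rnd => h + 1

/-- consecutive pieces from `a` to `b` -/
def Chn (ℓ h : ℕ) : List Pc → ℕ → ℕ → Prop
  | [], a, b => a = b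
  | p :: l, a, b => p.lo ℓ h = a ∧ a < p.hi ℓ h ∧ Chn ℓ h l (p.hi ℓ h) b

/-- the table bit written in the cell with index `i` (slots of `ℓ` cells, `K` ports enumerated by
`ρ`) -/
def tbit (S : LS A P M) (w : List A) (ℓ K : ℕ) (ρ : ℕ → Bool × P) (i : ℕ) : Prop :=
  0 < i / ℓ ∧ 2 ^ (i % ℓ / (K * K)) ∣ i / ℓ ∧
    TB (cr S w (fun _ => none) 0) ((i / ℓ - 2 ^ (i % ℓ / (K * K))) * ℓ) (i / ℓ * ℓ)
      (ρ (i % ℓ % (K * K) / K)) (ρ (i % ℓ % K))

/-- the frontier bit written in the cell with index `i` (blocks of `B` cells; the information is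
enumerated by `info`) -/
def rbit (S : LS A P M) (k : ℕ) (w : List A) (ℓ B N : ℕ) (info : ℕ → ℕ × Fr P) (i : ℕ) : Prop :=
  ℓ ≤ i % B ∧ i % B - ℓ < N ∧ info (i % B - ℓ) ∈ RT S k w B (i / B)

/-- the edges of the coarse graph of a list of pieces -/
def CE (v : ℕ → CR P) (ℓ h : ℕ) (l : List Pc) (X Y : Nd P) : Prop :=
  ∃ (i : ℕ) (_ : i < l.length) (x y : Bool × P), X = ent i (i + 1) x ∧ Y = ext i (i + 1) y ∧
    TB v ((l[i]).lo ℓ h) ((l[i]).hi ℓ h) x y

/-- the table of the `2 ^ s` slots from the slot `u` on can be used -/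
def gd (α : ℕ → Option M) (ℓ lim h s u : ℕ) : Prop :=
  (∀ o, u * ℓ ≤ o → o < (u + 2 ^ s) * ℓ → α o = none) ∧ (u + 2 ^ s) * ℓ ≤ lim ∧
    (u + 2 ^ s + 1) * ℓ ≤ h

open Classical in
/-- pieces of the region `[u ℓ, (u + 2 ^ s) ℓ) ∩ [0, lim)` -/
noncomputable def pcs (α : ℕ → Option M) (ℓ lim h : ℕ) : ℕ → ℕ → List Pc
  | 0, u => if lim ≤ u * ℓ then [] else if gd α ℓ lim h 0 u then [.blk 0 (u + 1)]
      else (List.range (min ℓ (lim - u * ℓ))).map fun c => .raw (u * ℓ + c)
  | s + 1, u => if lim ≤ u * ℓ then [] else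
      if gd α ℓ lim h (s + 1) u then [.blk (s + 1) (u + 2 ^ (s + 1))]
      else pcs α ℓ lim h s u ++ pcs α ℓ lim h s (u + 2 ^ s)

/-- valid pieces: `mx` = maximal level, `h` = number of visited cells of the region -/
def Val (α : ℕ → Option M) (ℓ K mx h : ℕ) : Pc → Prop
  | .raw o => o < h
  | .blk s u => s ≤ mx ∧ 2 ^ s ∣ u ∧ 0 < u ∧ u * ℓ + (s + 1) * (K * K) ≤ h ∧
      ∀ o, (u - 2 ^ s) * ℓ ≤ o → o < u * ℓ → α o = none
  | .rnd => True

/-- the pieces of a block of `2 ^ mx` slots -/
noncomputable def blkP (α : ℕ → Option M) (ℓ mx h : ℕ) : List Pc := pcs α ℓ (2 ^ mx * ℓ) h mx 0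

/-- the pieces of a final region of `h < 2 * 2 ^ mx * ℓ` cells and the right end-marker -/
noncomputable def finP (α : ℕ → Option M) (ℓ mx h : ℕ) : List Pc :=
  pcs α ℓ h h mx 0 ++ pcs α ℓ h h mx (2 ^ mx) ++ [.rnd]

/-! ### Machines that change few cells -/

/-- In every computation at most `k` cells are changed, and no transition that would change a frozen
cell is ever used. -/
def FewWrites {A : Type} (M : Mach A) (cv : Bool) (k : ℕ) : Prop :=
  ∀ (w : List A) (c : M.Cfg), Reach M cv w c →
    {j | c.tape j ≠ M.initTape w j}.Finite ∧ {j | c.tape j ≠ M.initTape w j}.ncard ≤ k ∧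
    (c.pos ∈ c.seen → 1 ≤ c.pos → c.pos ≤ w.length → ∀ (q : M.Q) (x : A ⊕ M.W) (d : Bool),
      (q, x, d) ∈ M.δ c.st (c.tape c.pos) → OkW cv (c.tape c.pos) x → Sym.ofW x = c.tape c.pos)

/-- the local system of a machine (at most `k` marks): the second component of a state is the number
of marks made so far -/
def ls {A : Type} (M : Mach A) (k : ℕ) : LS A (M.Q × Fin (k + 1)) (A ⊕ M.W) where
  L0 := fun a p d p' => p'.2 = p.2 ∧ (p'.1, Sum.inl a, d) ∈ M.δ p.1 (Sym.inp a)
  L1 := fun j μ a p d p' =>
    (p.2.val = j ∧ p'.2.val = j + 1 ∧ (p'.1, μ, d) ∈ M.δ p.1 (Sym.inp a)) ∨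
      (j < p.2.val ∧ p'.2 = p.2 ∧ (p'.1, μ, d) ∈ M.δ p.1 (Sym.ofW μ))
  Lr := fun p d p' => p'.2 = p.2 ∧ ∃ x, (p'.1, x, d) ∈ M.δ p.1 Sym.rend
  E0 := fun p p' => p'.2 = p.2 ∧ ∃ x, (p'.1, x, true) ∈ M.δ p.1 Sym.lend
  p0 := (M.qI, 0)
  F := {p | p.1 ∈ M.F}

end Pool.Agent.P0036f5k
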