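import Pool.Agent.Lib.P0036f5k.LocA

/-!
# K2b: gluing compatible frontiers

`PM v a b X Y = HasPM (TB v a b) (src X Y) (tgt X Y)`.  First pass to nodes (for `a < b`, with
`HasPM.map` for `f = ent a b`, `g = ext a b`, both injective): `PM v a b X Y` gives
`HasPM (RB v a b) S T` with
`S = {(a, true, p) | p ∈ X.1} ∪ {(b, false, p) | p ∈ Y.2}` and
`T = {(b, true, p) | p ∈ Y.1} ∪ {(a, false, p) | p ∈ X.2}`, and conversely (map back with
`Prod.snd : Nd P → Bool × P`, which is injective on these sets).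

* `pm_comp`: let `S, T` be the sets for `(a, b, X, Y)` and `S', T'` for `(b, c, Y, Z)`.  `RB v a b` and
  `RB v b c` are contained in the transitive relation `RB v a c` (`rb_mono`), so by `HasPM.union`
  `HasPM (RB v a c) (S ∪ S') (T ∪ T')` (`S, S'` are disjoint and `T, T'` are disjoint because
  `a < b < c`).  Remove `D = {(b, true, p) | p ∈ Y.1} ∪ {(b, false, p) | p ∈ Y.2}`, which is finite and
  contained in both, with `HasPM.diff`: what remains is exactly the pair of sets for `(a, c, X, Z)`.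
* `full_of_pm`: the same with `HasPM (RB v 0 e) S T`, `S = {(0, true, p) | p ∈ X.1}`,
  `T = {(e, true, f)} ∪ {(0, false, p) | p ∈ X.2}` and the matching of
  `S' = {(0, false, p) | p ∈ X.2}` with `T' = {(0, true, p) | p ∈ X.1 \ {p0}}` given by `R0`; both
  relations are contained in the transitive relation `Full v E0 e`; remove
  `D = S' ∪ T'`; what remains is `{(0, true, p0)}` and `{(e, true, f)}` (`0 ≠ e`); finish with
  `hasPM_singleton`.
-/

set_option autoImplicit false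

namespace Pool.Agent.P0036f5k

open Relation

variable {P : Type}

namespace LocBAux

/-- the nodes at which the paths of a segment start -/
def sN (a b : ℕ) (X Y : Fr P) : Set (Nd P) :=
  {z | (z.2.1 = true ∧ z.1 = a ∧ z.2.2 ∈ X.1) ∨ (z.2.1 = false ∧ z.1 = b ∧ z.2.2 ∈ Y.2)}

/-- the nodes at which the paths of a segment end -/
def tN (a b : ℕ) (X Y : Fr P) : Set (Nd P) :=
  {z | (z.2.1 = true ∧ z.1 = b ∧ z.2.2 ∈ Y.1) ∨ (z.2.1 = false ∧ z.1 = a ∧ z.2.2 ∈ X.2)}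

theorem ent_inj (a b : ℕ) : Function.Injective (ent (P := P) a b) := by
  intro x y h
  exact congrArg Prod.snd h

theorem ext_inj (a b : ℕ) : Function.Injective (ext (P := P) a b) := by
  intro x y h
  exact congrArg Prod.snd h

theorem ent_image (a b : ℕ) (X Y : Fr P) : ent a b '' src X Y = sN a b X Y := by
  ext ⟨n, d, p⟩
  constructor
  · rintro ⟨⟨d', p'⟩, hx, he⟩
    cases he
    cases d with
    | true => left; exact ⟨rfl, rfl, by simpa [src] using hx⟩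
    | false => right; exact ⟨rfl, rfl, by simpa [src] using hx⟩
  · rintro (⟨h1, h2, h3⟩ | ⟨h1, h2, h3⟩)
    · simp only at h1 h2 h3
      subst h1 h2
      exact ⟨(true, p), by simpa [src] using h3, rfl⟩
    · simp only at h1 h2 h3
      subst h1 h2
      exact ⟨(false, p), by simpa [src] using h3, rfl⟩

theorem ext_image (a b : ℕ) (X Y : Fr P) : ext a b '' tgt X Y = tN a b X Y := by
  ext ⟨n, d, p⟩
  constructor
  · rintro ⟨⟨d', p'⟩, hx, he⟩
    cases he
    cases d with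
    | true => left; exact ⟨rfl, rfl, by simpa [tgt] using hx⟩
    | false => right; exact ⟨rfl, rfl, by simpa [tgt] using hx⟩
  · rintro (⟨h1, h2, h3⟩ | ⟨h1, h2, h3⟩)
    · simp only at h1 h2 h3
      subst h1 h2
      exact ⟨(true, p), by simpa [tgt] using h3, rfl⟩
    · simp only at h1 h2 h3
      subst h1 h2
      exact ⟨(false, p), by simpa [tgt] using h3, rfl⟩

theorem toNode {v : ℕ → CR P} {a b : ℕ} {X Y : Fr P} (h : PM v a b X Y) [Nonempty (Nd P)] :
    HasPM (RB v a b) (sN a b X Y) (tN a b X Y) := by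
  have h' := HasPM.map (R' := RB v a b) h (ent a b) (ext a b) (ent_inj a b).injOn
    (ext_inj a b).injOn (fun x _ y _ hxy => hxy)
  rwa [ent_image, ext_image] at h'

theorem ofNode {v : ℕ → CR P} {a b : ℕ} {X Y : Fr P} [Nonempty (Bool × P)]
    (h : HasPM (RB v a b) (sN a b X Y) (tN a b X Y)) : PM v a b X Y := by
  rw [← ent_image, ← ext_image] at h
  have h' := HasPM.map (R' := TB v a b) h Prod.snd Prod.snd
    (by
      rintro _ ⟨x, _, rfl⟩ _ ⟨y, _, rfl⟩ hxy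
      have : x = y := hxy
      rw [this])
    (by
      rintro _ ⟨x, _, rfl⟩ _ ⟨y, _, rfl⟩ hxy
      have : x = y := hxy
      rw [this])
    (by
      rintro _ ⟨x, _, rfl⟩ _ ⟨y, _, rfl⟩ hxy
      exact hxy)
  have e1 : Prod.snd '' (ent a b '' src X Y) = src X Y := by
    rw [Set.image_image]
    exact Set.image_id' _
  have e2 : Prod.snd '' (ext a b '' tgt X Y) = tgt X Y := by
    rw [Set.image_image]
    exact Set.image_id' _
  rw [e1, e2] at h'
  exact h'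

theorem finite_level [Finite P] (b : ℕ) (D : Set (Nd P)) (h : ∀ z ∈ D, z.1 = b) : D.Finite := by
  refine Set.Finite.subset ((Set.finite_singleton b).prod (Set.toFinite (Set.univ : Set (Bool × P)))) ?_
  intro z hz
  exact ⟨h z hz, trivial⟩

/-- there are no matchings if there are no states -/
theorem pm_empty [IsEmpty P] {v : ℕ → CR P} {a b : ℕ} {X Y : Fr P} : PM v a b X Y := by
  refine ⟨id, ⟨fun x _ => isEmptyElim x.2, fun x _ => isEmptyElim x.2, fun x _ => isEmptyElim x.2⟩,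
    fun x _ => isEmptyElim x.2⟩

end LocBAux

open LocBAux

theorem pm_comp [Finite P] {v : ℕ → CR P} {a b c : ℕ} (hab : a < b) (hbc : b < c) {X Y Z : Fr P}
    (h1 : PM v a b X Y) (h2 : PM v b c Y Z) : PM v a c X Z := by
  rcases isEmpty_or_nonempty P with hP | hP
  · exact pm_empty
  have k1 : HasPM (RB v a c) (sN a b X Y) (tN a b X Y) :=
    (toNode h1).mono fun x _ y _ hxy => rb_mono le_rfl hbc.le hxy
  have k2 : HasPM (RB v a c) (sN b c Y Z) (tN b c Y Z) :=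
    (toNode h2).mono fun x _ y _ hxy => rb_mono hab.le le_rfl hxy
  have k3 := k1.union k2
    (by
      rw [Set.disjoint_left]
      rintro ⟨n, d, p⟩ (⟨h1, h2, _⟩ | ⟨h1, h2, _⟩) (⟨h3, h4, _⟩ | ⟨h3, h4, _⟩) <;>
        simp_all)
    (by
      rw [Set.disjoint_left]
      rintro ⟨n, d, p⟩ (⟨h1, h2, _⟩ | ⟨h1, h2, _⟩) (⟨h3, h4, _⟩ | ⟨h3, h4, _⟩) <;>
        simp_all)
  let D : Set (Nd P) := {z | z.1 = b ∧ ((z.2.1 = true ∧ z.2.2 ∈ Y.1) ∨ (z.2.1 = false ∧ z.2.2 ∈ Y.2))}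
  have htr : ∀ x y z : Nd P, RB v a c x y → RB v a c y z → RB v a c x z :=
    fun x y z hxy hyz => ReflTransGen.trans hxy hyz
  have k4 := k3.diff (D := D) htr
    (finite_level b D fun z hz => hz.1)
    (by
      rintro ⟨n, d, p⟩ ⟨h1, ⟨h2, h3⟩ | ⟨h2, h3⟩⟩
      · right; left; exact ⟨h2, h1, h3⟩
      · left; right; exact ⟨h2, h1, h3⟩)
    (by
      rintro ⟨n, d, p⟩ ⟨h1, ⟨h2, h3⟩ | ⟨h2, h3⟩⟩
      · left; left; exact ⟨h2, h1, h3⟩
      · right; right; exact ⟨h2, h1, h3⟩)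
  have e1 : (sN a b X Y ∪ sN b c Y Z) \ D = sN a c X Z := by
    ext ⟨n, d, p⟩
    constructor
    · rintro ⟨(⟨h1, h2, h3⟩ | ⟨h1, h2, h3⟩) | (⟨h1, h2, h3⟩ | ⟨h1, h2, h3⟩), h4⟩
      · exact Or.inl ⟨h1, h2, h3⟩
      · exact absurd ⟨h2, Or.inr ⟨h1, h3⟩⟩ h4
      · exact absurd ⟨h2, Or.inl ⟨h1, h3⟩⟩ h4
      · exact Or.inr ⟨h1, h2, h3⟩
    · rintro (⟨h1, h2, h3⟩ | ⟨h1, h2, h3⟩)
      · refine ⟨Or.inl (Or.inl ⟨h1, h2, h3⟩), ?_⟩
        rintro ⟨h5, _⟩
        simp only at h2 h5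
        omega
      · refine ⟨Or.inr (Or.inr ⟨h1, h2, h3⟩), ?_⟩
        rintro ⟨h5, _⟩
        simp only at h2 h5
        omega
  have e2 : (tN a b X Y ∪ tN b c Y Z) \ D = tN a c X Z := by
    ext ⟨n, d, p⟩
    constructor
    · rintro ⟨(⟨h1, h2, h3⟩ | ⟨h1, h2, h3⟩) | (⟨h1, h2, h3⟩ | ⟨h1, h2, h3⟩), h4⟩
      · exact absurd ⟨h2, Or.inl ⟨h1, h3⟩⟩ h4
      · exact Or.inr ⟨h1, h2, h3⟩
      · exact Or.inl ⟨h1, h2, h3⟩
      · exact absurd ⟨h2, Or.inr ⟨h1, h3⟩⟩ h4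
    · rintro (⟨h1, h2, h3⟩ | ⟨h1, h2, h3⟩)
      · refine ⟨Or.inr (Or.inl ⟨h1, h2, h3⟩), ?_⟩
        rintro ⟨h5, _⟩
        simp only at h2 h5
        omega
      · refine ⟨Or.inl (Or.inr ⟨h1, h2, h3⟩), ?_⟩
        rintro ⟨h5, _⟩
        simp only at h2 h5
        omega
  rw [e1, e2] at k4
  exact ofNode k4

theorem full_of_pm [Finite P] {v : ℕ → CR P} {E0 : P → P → Prop} {p0 f : P} {e : ℕ} (he : 0 < e)
    {X : Fr P} (h0 : R0 E0 p0 X) (h : PM v 0 e X ({f}, ∅)) :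
    Full v E0 e (0, true, p0) (e, true, f) := by
  have : Nonempty P := ⟨f⟩
  have k1 : HasPM (Full v E0 e) (sN 0 e X ({f}, ∅)) (tN 0 e X ({f}, ∅)) := by
    refine (toNode h).mono fun x _ y _ hxy => ?_
    have hstep : ∀ x y : Nd P, (∃ i, 0 ≤ i ∧ i < e ∧ EC v i x y) → ((∃ i, i < e ∧ EC v i x y) ∨
        ∃ p p', x = (0, false, p) ∧ y = (0, true, p') ∧ E0 p p') := by
      rintro x y ⟨i, _, hi, hE⟩
      exact Or.inl ⟨i, hi, hE⟩
    exact ReflTransGen.mono hstep _ _ hxy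
  have k2 : HasPM (Full v E0 e) ((fun p : P => ((0, false, p) : Nd P)) '' X.2)
      ((fun p : P => ((0, true, p) : Nd P)) '' (X.1 \ {p0})) := by
    refine h0.2.map _ _ ?_ ?_ ?_
    · intro x _ y _ hxy
      exact congrArg (fun z : Nd P => z.2.2) hxy
    · intro x _ y _ hxy
      exact congrArg (fun z : Nd P => z.2.2) hxy
    · intro x _ y _ hxy
      exact ReflTransGen.single (Or.inr ⟨x, y, rfl, rfl, hxy⟩)
  have k3 := k1.union k2
    (by
      rw [Set.disjoint_left]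
      rintro ⟨n, d, p⟩ (⟨h1, h2, _⟩ | ⟨h1, h2, h3⟩) ⟨q, hq, he'⟩
      · cases he'
        exact absurd h1 (by simp)
      · exact absurd h3 (by simp))
    (by
      rw [Set.disjoint_left]
      rintro ⟨n, d, p⟩ (⟨h1, h2, _⟩ | ⟨h1, h2, h3⟩) ⟨q, hq, he'⟩
      · cases he'
        simp only at h2
        omega
      · cases he'
        exact absurd h1 (by simp))
  let D : Set (Nd P) := {z | z.1 = 0 ∧ ((z.2.1 = true ∧ z.2.2 ∈ X.1 \ {p0}) ∨
    (z.2.1 = false ∧ z.2.2 ∈ X.2))}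
  have htr : ∀ x y z : Nd P, Full v E0 e x y → Full v E0 e y z → Full v E0 e x z :=
    fun x y z hxy hyz => ReflTransGen.trans hxy hyz
  have k4 := k3.diff (D := D) htr
    (finite_level 0 D fun z hz => hz.1)
    (by
      rintro ⟨n, d, p⟩ ⟨h1, ⟨h2, h3⟩ | ⟨h2, h3⟩⟩
      · left; left; exact ⟨h2, h1, h3.1⟩
      · right
        simp only at h1 h2 h3
        subst h1 h2
        exact ⟨p, h3, rfl⟩)
    (by
      rintro ⟨n, d, p⟩ ⟨h1, ⟨h2, h3⟩ | ⟨h2, h3⟩⟩
      · right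
        simp only at h1 h2 h3
        subst h1 h2
        exact ⟨p, h3, rfl⟩
      · left; right; exact ⟨h2, h1, h3⟩)
  have e1 : (sN 0 e X ({f}, ∅) ∪ (fun p : P => ((0, false, p) : Nd P)) '' X.2) \ D =
      {(0, true, p0)} := by
    ext ⟨n, d, p⟩
    constructor
    · rintro ⟨(⟨h1, h2, h3⟩ | ⟨h1, h2, h3⟩) | ⟨q, hq, he'⟩, h4⟩
      · simp only at h1 h2 h3
        subst h1 h2
        have : p = p0 := by
          by_contra hne
          exact h4 ⟨rfl, Or.inl ⟨rfl, h3, hne⟩⟩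
        rw [this]
        rfl
      · exact absurd h3 (by simp)
      · cases he'
        exact absurd ⟨rfl, Or.inr ⟨rfl, hq⟩⟩ h4
    · intro hz
      cases hz
      refine ⟨Or.inl (Or.inl ⟨rfl, rfl, h0.1⟩), ?_⟩
      rintro ⟨_, ⟨_, _, h3⟩ | ⟨h2, _⟩⟩
      · exact h3 rfl
      · exact absurd h2 (by simp)
  have e2 : (tN 0 e X ({f}, ∅) ∪ (fun p : P => ((0, true, p) : Nd P)) '' (X.1 \ {p0})) \ D =
      {(e, true, f)} := by
    ext ⟨n, d, p⟩
    constructor
    · rintro ⟨(⟨h1, h2, h3⟩ | ⟨h1, h2, h3⟩) | ⟨q, hq, he'⟩, h4⟩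
      · simp only at h1 h2 h3
        subst h1 h2
        have : p = f := h3
        rw [this]
        rfl
      · exact absurd ⟨h2, Or.inr ⟨h1, h3⟩⟩ h4
      · cases he'
        exact absurd ⟨rfl, Or.inl ⟨rfl, hq⟩⟩ h4
    · intro hz
      cases hz
      refine ⟨Or.inl (Or.inl ⟨rfl, rfl, rfl⟩), ?_⟩
      rintro ⟨h1, _⟩
      simp only at h1
      omega
  rw [e1, e2] at k4
  exact hasPM_singleton.1 k4

end Pool.Agent.P0036f5k
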