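import Pool.Agent.Lib.P0036f5k.BitsA
import Pool.Agent.Lib.P0036f5k.BitsB
import Pool.Agent.Lib.P0036f5k.BitsC
import Pool.Agent.Lib.P0036f5g.GDet

/-!
# The program
-/

set_option autoImplicit false

namespace Pool.Agent.P0036f5k

open Relation Pool.Agent.P0036f5v2 Pool.Agent.P0036f5w Pool.Agent.P0036f5g Classical

variable {A P M : Type}

namespace Par

theorem Ok.sl_pos {Z : Par A P M} (hZ : Z.Ok) : 0 < Z.sl := by
  have := hZ.hK
  show 0 < (Z.mx + 1) * (Z.K * Z.K)
  positivity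

theorem Ok.bl_pos {Z : Par A P M} (hZ : Z.Ok) : 0 < Z.bl := by
  have := hZ.sl_pos
  show 0 < 2 ^ Z.mx * Z.sl
  positivity

theorem ph_prog {Z : Par A P M} (hZ : Z.Ok) : ∀ n : ℕ,
    ∃ t r, Z.prog.ph n = r ∧ n = t * Z.bl + r ∧ r < 2 * Z.bl ∧ (t = 0 ∨ Z.bl ≤ r)
  | 0 => by
    have := hZ.bl_pos
    exact ⟨0, 0, rfl, by omega, by omega, Or.inl rfl⟩
  | n + 1 => by
    obtain ⟨t, r, h1, h2, h3, h4⟩ := ph_prog hZ n
    have h5 : Z.prog.ph (n + 1) = if r + 1 < 2 * Z.bl then r + 1 else Z.bl := by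
      show (if Z.prog.ph n + 1 < 2 * Z.bl then Z.prog.ph n + 1 else Z.bl) = _
      rw [h1]
    have hB := hZ.bl_pos
    by_cases h6 : r + 1 < 2 * Z.bl
    · rw [if_pos h6] at h5
      exact ⟨t, r + 1, h5, by omega, h6, h4.imp_right fun h => by omega⟩
    · rw [if_neg h6] at h5
      refine ⟨t + 1, Z.bl, h5, ?_, by omega, Or.inr le_rfl⟩
      rw [Nat.add_mul]
      omega

theorem vw_view {Z : Par A P M} {w : List A} {t r : ℕ} (h : t * Z.bl + r ≤ w.length) :
    Z.Vw w (t * Z.bl) r (GProg.view w (Z.note w) (t * Z.bl + r)) := by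
  intro o ho
  have h1 : t * Z.bl + o < w.length := by omega
  refine ⟨w[t * Z.bl + o], List.getElem?_eq_getElem h1, ?_⟩
  unfold GProg.view GProg.cellv
  rw [show t * Z.bl + r - (r - o) = t * Z.bl + o by omega, List.getElem?_eq_getElem h1]
  rfl

theorem note_zero {Z : Par A P M} (hZ : Z.Ok) (w : List A) : Z.note w 0 = (false, false) := by
  have h1 := hZ.sl_pos
  have h2 : ¬ rbit Z.S Z.k w Z.sl Z.bl (NK Z.k Z.K) Z.info 0 := by
    rintro ⟨h, -, -⟩
    rw [Nat.zero_mod] at h
    omega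
  have h3 : ¬ tbit Z.S w Z.sl Z.K Z.ρ 0 := by
    rintro ⟨h, -, -⟩
    rw [Nat.zero_div] at h
    omega
  unfold note
  rw [decide_eq_false h2, decide_eq_false h3]

/-- the language of the program -/
theorem prog_lang [Finite P] {Z : Par A P M} (hZ : Z.Ok) (cv : Bool) :
    Z.prog.mach.lang cv = Lk Z.S Z.k := by
  ext w
  obtain ⟨t, r, h1, h2, h3, h4⟩ := Z.ph_prog hZ w.length
  have hv := Z.vw_view (w := w) (t := t) (r := r) (by omega)
  rw [← h2] at hv
  have key := GProg.mem_lang Z.prog cv w (Z.note w) (note_zero hZ w) (fun i hi => by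
    obtain ⟨t', r', g1, g2, g3, g4⟩ := Z.ph_prog hZ (i + 1)
    rw [g1]
    refine ⟨?_, ?_⟩
    · show (DTo.lift (Z.rT r') fun b => DTo.lift (Z.tT r') fun b' =>
        DTo.ret (Sum.inl (b, b'))).Within (i + 1)
      refine DTo.within_lift ((within_rT hZ g3).mono (by omega)) fun b => ?_
      exact DTo.within_lift ((within_tT hZ g3).mono (by omega)) fun b' => trivial
    · have hv' := Z.vw_view (w := w) (t := t') (r := r') (by omega)
      rw [← g2] at hv'
      show (DTo.lift (Z.rT r') fun b => DTo.lift (Z.tT r') fun b' =>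
        DTo.ret (Sum.inl (b, b'))).eval _ = _
      rw [DTo.eval_lift, DTo.eval_lift, DTo.eval]
      have e1 := eval_rT hZ g3 g4 hv'
      have e2 := eval_tT hZ g3 g4 hv'
      rw [← g2] at e1 e2
      refine congrArg Sum.inl (Prod.ext ?_ ?_)
      · show (Z.rT r').eval (GProg.view w (Z.note w) (i + 1)) = decide _
        rw [Bool.eq_iff_iff, e1]
        simp
      · show (Z.tT r').eval (GProg.view w (Z.note w) (i + 1)) = decide _
        rw [Bool.eq_iff_iff, e2]
        simp) (by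
    rw [h1]
    show (DTo.lift (Z.fT r) fun b => DTo.ret (Sum.inr b)).Within w.length
    exact DTo.within_lift ((within_fT hZ h3).mono (by omega)) fun b => trivial)
    (decide (w ∈ Lk Z.S Z.k)) (by
    rw [h1]
    show (DTo.lift (Z.fT r) fun b => DTo.ret (Sum.inr b)).eval _ = _
    rw [DTo.eval_lift, DTo.eval]
    congr 1
    rw [Bool.eq_iff_iff, eval_fT hZ h3 h4 hv h2]
    simp)
  rw [key]
  simp

/-- the deterministic automaton of the program -/
theorem exists_det [Finite A] [Finite P] {Z : Par A P M} (hZ : Z.Ok) :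
    ∃ D : LA A, D.toMach.Det ∧ (∀ cv, D.toMach.lang cv = Lk Z.S Z.k) ∧
      D.toMach.size ≤ szK Z.k Z.mx Z.K Z.κ (Nat.card A) Z.μ := by
  obtain ⟨D, hD, hL, hs⟩ := exists_det_of_gprog Z.prog (2 * Z.bl) (2 * Z.bl)
    (TK Z.k Z.mx Z.K Z.κ Z.μ) (by have := hZ.bl_pos; omega)
    (fun r hr => by
      show (if r + 1 < 2 * Z.bl then r + 1 else Z.bl) < 2 * Z.bl
      split_ifs with h
      · exact h
      · omega)
    (fun r hr => by
      show (DTo.lift (Z.rT r) fun b => DTo.lift (Z.tT r) fun b' =>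
        DTo.ret (Sum.inl (b, b'))).Within (2 * Z.bl)
      refine DTo.within_lift ((within_rT hZ hr).mono (by omega)) fun b => ?_
      exact DTo.within_lift ((within_tT hZ hr).mono (by omega)) fun b' => trivial)
    (fun r hr => by
      show (DTo.lift (Z.fT r) fun b => DTo.ret (Sum.inr b)).Within (2 * Z.bl)
      exact DTo.within_lift ((within_fT hZ hr).mono (by omega)) fun b => trivial)
    (fun r hr => nd_upd_acc hZ hr)
  refine ⟨D, hD, fun cv => by rw [hL cv, prog_lang hZ], hs.trans (le_of_eq ?_)⟩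
  have h4 : Nat.card (Bool × Bool) = 4 := by simp
  rw [h4]
  rfl

end Par

end Pool.Agent.P0036f5k
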