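import Pool.Agent.Lib.P0036f5k.Defs

/-!
# K9a: annotated words are accepted by the machine

Tape cell `i + 1` carries the letter with index `i`; the boundary `b` lies between the letter cells
`b - 1` and `b`; the cell with index `w.length` is the right end-marker.  The head on the letter cell
`i` (tape position `i + 1`) corresponds to the nodes `(i, true, q)` (entered from the left) and
`(i + 1, false, q)` (entered from the right); the head on the left end-marker (position `0`) to
`(0, false, q)`; position `w.length + 2` to `(w.length + 1, true, q)`.  The second component of a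
state of `ls M k` is the number of changed cells so far.

Let `α` be an annotation, and take the path in `Full`.  By induction along the path: for every node
`(b, d, (q, j))` reached there is a configuration `c` reachable from `M.init w` with state `q`,
position as above, such that for every letter cell `i < w.length` with
`j' := cnt α i` marks before it: if `α i = some μ` then (`i + 1 ∈ c.seen ↔ j' < j`) and the tape symbol
is `Sym.ofW μ` if `j' < j` and the input letter otherwise; if `α i = none` then the tape symbol is the
input letter (visited or not); end-markers are unchanged.  Steps: an unannotated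
cell: the transition writes the letter itself, so nothing changes whether or not the cell is visited
for the first time (and `OkW` holds).  An annotated cell with `j' < j`: it is frozen, contains
`Sym.ofW μ`, the transition writes `μ` (`OkW` holds).  With `j' = j`: it has not been visited, the
step changes it and `j` becomes `j + 1`; the other annotated cells `i''` have `cnt α i'' ≠ j'`
(`cnt α` is strictly increasing at annotated cells), so their status does not change.  End-markers:
`S.Lr` and `S.E0` (a move in the cell `w.length` leads to the boundaries `w.length` and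
`w.length + 1`; `OkW` has no condition on end-markers).
-/

set_option autoImplicit false

namespace Pool.Agent.P0036f5k

open Relation Pool.Agent.P0036f5v2 Pool.Agent.P0036f5g

/-- the head position that belongs to a crossing -/
private def pos {P : Type} (x : Nd P) : ℕ := if x.2.1 = true then x.1 + 1 else x.1

/-- the invariant: the configuration `c` belongs to the node `x` -/
private structure Inv {A : Type} (M : Mach A) (k : ℕ) (w : List A) (α : ℕ → Option (A ⊕ M.W))
    (x : Nd (M.Q × Fin (k + 1))) (c : M.Cfg) : Prop where
  st : c.st = x.2.2.1
  ps : c.pos = pos x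
  t0 : c.tape 0 = Sym.lend
  te : c.tape (w.length + 1) = Sym.rend
  tn : ∀ (i : ℕ) (a : A), w[i]? = some a → α i = none → c.tape (i + 1) = Sym.inp a
  ts : ∀ (i : ℕ) (a : A) (μ : A ⊕ M.W), w[i]? = some a → α i = some μ →
    cnt α i < x.2.2.2.val → i + 1 ∈ c.seen ∧ c.tape (i + 1) = Sym.ofW μ
  tu : ∀ (i : ℕ) (a : A) (μ : A ⊕ M.W), w[i]? = some a → α i = some μ →
    ¬ cnt α i < x.2.2.2.val → i + 1 ∉ c.seen ∧ c.tape (i + 1) = Sym.inp a

private theorem cnt_lt {M : Type} (α : ℕ → Option M) {i j : ℕ} (h : i < j) (hi : (α i).isSome) :
    cnt α i < cnt α j := by
  classical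
  unfold cnt
  apply Finset.card_lt_card
  refine Finset.ssubset_iff_of_subset ?_ |>.2 ⟨i, ?_, ?_⟩
  · intro o ho
    rw [Finset.mem_filter, Finset.mem_range] at ho ⊢
    exact ⟨ho.1.trans h, ho.2⟩
  · rw [Finset.mem_filter, Finset.mem_range]
    exact ⟨h, hi⟩
  · rw [Finset.mem_filter, Finset.mem_range]
    exact fun h => absurd h.1 (lt_irrefl _)

private theorem cnt_inj {M : Type} (α : ℕ → Option M) {i j : ℕ} (hi : (α i).isSome)
    (hj : (α j).isSome) (h : cnt α i = cnt α j) : i = j := by
  rcases lt_trichotomy i j with hlt | heq | hgt
  · exact absurd h (cnt_lt α hlt hi).ne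
  · exact heq
  · exact absurd h (cnt_lt α hgt hj).ne'

private theorem inv_init {A : Type} (M : Mach A) (k : ℕ) (w : List A)
    (α : ℕ → Option (A ⊕ M.W)) : Inv M k w α (0, true, (ls M k).p0) (M.init w) where
  st := rfl
  ps := rfl
  t0 := rfl
  te := by simp [Mach.init, Mach.initTape]
  tn := by
    intro i a hi _
    simp [Mach.init, Mach.initTape, hi]
  ts := by
    intro i a μ _ _ h
    exact absurd h (Nat.not_lt_zero _)
  tu := by
    intro i a μ hi _ _
    refine ⟨fun h => h, ?_⟩
    simp [Mach.init, Mach.initTape, hi]

private theorem inv_step {A : Type} (M : Mach A) (cv : Bool) (k : ℕ) (w : List A)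
    (α : ℕ → Option (A ⊕ M.W)) {x y : Nd (M.Q × Fin (k + 1))} {c : M.Cfg}
    (hc : Inv M k w α x c)
    (h : (∃ i, i < w.length + 1 ∧ EC (cr (ls M k) w α 0) i x y) ∨
      ∃ p p', x = (0, false, p) ∧ y = (0, true, p') ∧ (ls M k).E0 p p') :
    ∃ c', M.Step cv w.length c c' ∧ Inv M k w α y c' := by
  obtain ⟨st, ps, t0, te, tn, ts, tu⟩ := hc
  rcases h with ⟨i, hi, hx, hv, hy⟩ | ⟨p, p', rfl, rfl, hp, s, hs⟩
  · obtain ⟨b, d, q, j⟩ := x
    obtain ⟨b', d', q', j'⟩ := y
    simp only at st ps ts tu hx hv hy
    have hpos : c.pos = i + 1 := by
      rw [ps]
      unfold pos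
      cases d
      · simpa using hx
      · simpa using hx
    have hpos' : ∀ n, n = (if d' = true then i + 1 + 1 else i + 1 - 1) →
        n = pos (b', d', q', j') := by
      intro n hn
      unfold pos
      rw [hn]
      simp only
      rw [hy]
      cases d' <;> simp
    unfold cr at hv
    rcases Nat.lt_or_ge i w.length with hiw | hiw
    · have hwi : w[i]? = some w[i] := List.getElem?_eq_getElem hiw
      generalize w[i] = a at hwi
      rw [hwi] at hv
      simp only at hv
      cases hα : α i with
      | none =>
        rw [hα] at hv
        unfold lc at hv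
        simp only at hv
        obtain ⟨hj, hδ⟩ := hv
        simp only at hj hδ
        subst hj
        have ht : c.tape (i + 1) = Sym.inp a := tn i a hwi hα
        refine ⟨⟨q', if d' = true then i + 1 + 1 else i + 1 - 1, c.tape, insert c.pos c.seen⟩,
          ⟨by omega, Sum.inl a, d', ?_, ?_, ?_, ?_, ?_, rfl⟩, ⟨rfl, ?_, t0, te, tn, ?_, ?_⟩⟩
        · rw [hpos, ht, st]
          exact hδ
        · intro h0
          omega
        · rw [hpos]
        · intro _
          rw [hpos]
          funext t
          by_cases htt : t = i + 1
          · subst htt
            rw [Function.update_self, ht]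
            rfl
          · rw [Function.update_of_ne htt]
        · intro _
          refine ⟨rfl, ?_⟩
          rw [hpos, ht]
          intro _ _ _
          rfl
        · exact hpos' _ rfl
        · intro i' a' μ' h1 h2 h3
          have := ts i' a' μ' h1 h2 h3
          exact ⟨Set.mem_insert_of_mem _ this.1, this.2⟩
        · intro i' a' μ' h1 h2 h3
          have := tu i' a' μ' h1 h2 h3
          refine ⟨?_, this.2⟩
          rw [Set.mem_insert_iff, hpos]
          rintro (h4 | h4)
          · have : i' = i := by omega
            subst this
            rw [hα] at h2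
            cases h2
          · exact this.1 h4
      | some μ =>
        rw [hα] at hv
        unfold lc at hv
        simp only at hv
        rcases hv with ⟨hj, hj', hδ⟩ | ⟨hj, hj', hδ⟩
        · simp only [Nat.zero_add] at hj hj' hδ
          have hun := tu i a μ hwi hα (by omega)
          refine ⟨⟨q', if d' = true then i + 1 + 1 else i + 1 - 1,
            Function.update c.tape (i + 1) (Sym.ofW μ), insert c.pos c.seen⟩,
            ⟨by omega, μ, d', ?_, ?_, ?_, ?_, ?_, rfl⟩, ⟨rfl, ?_, ?_, ?_, ?_, ?_, ?_⟩⟩
          · rw [hpos, hun.2, st]
            exact hδ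
          · intro h0
            omega
          · rw [hpos]
          · intro _
            rw [hpos]
          · intro hn
            exact absurd ⟨by omega, by omega, by rw [hpos]; exact hun.1⟩ hn
          · exact hpos' _ rfl
          · simp only
            rw [Function.update_of_ne (by omega)]
            exact t0
          · simp only
            rw [Function.update_of_ne (by omega)]
            exact te
          · intro i' a' h1 h2
            simp only
            have hne : i' ≠ i := by
              rintro rfl
              rw [hα] at h2
              cases h2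
            rw [Function.update_of_ne (by omega)]
            exact tn i' a' h1 h2
          · intro i' a' μ' h1 h2 h3
            simp only at h3 ⊢
            by_cases hii : i' = i
            · subst hii
              rw [hα] at h2
              injection h2 with h2
              subst h2
              refine ⟨?_, by rw [Function.update_self]⟩
              rw [hpos]
              exact Set.mem_insert _ _
            · have hcn : cnt α i' ≠ cnt α i := fun h =>
                hii (cnt_inj α (by rw [h2]; rfl) (by rw [hα]; rfl) h)
              have := ts i' a' μ' h1 h2 (by omega)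
              refine ⟨Set.mem_insert_of_mem _ this.1, ?_⟩
              rw [Function.update_of_ne (by omega)]
              exact this.2
          · intro i' a' μ' h1 h2 h3
            simp only at h3 ⊢
            have hii : i' ≠ i := by
              rintro rfl
              omega
            have := tu i' a' μ' h1 h2 (by omega)
            refine ⟨?_, ?_⟩
            · rw [Set.mem_insert_iff, hpos]
              rintro (h4 | h4)
              · omega
              · exact this.1 h4
            · rw [Function.update_of_ne (by omega)]
              exact this.2
        · simp only [Nat.zero_add] at hj hj' hδ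
          subst hj'
          have hse := ts i a μ hwi hα hj
          refine ⟨⟨q', if d' = true then i + 1 + 1 else i + 1 - 1, c.tape, insert c.pos c.seen⟩,
            ⟨by omega, μ, d', ?_, ?_, ?_, ?_, ?_, rfl⟩, ⟨rfl, ?_, t0, te, tn, ?_, ?_⟩⟩
          · rw [hpos, hse.2, st]
            exact hδ
          · intro h0
            omega
          · rw [hpos]
          · rintro ⟨_, _, h3⟩
            rw [hpos] at h3
            exact absurd hse.1 h3
          · intro _
            refine ⟨rfl, ?_⟩
            rw [hpos, hse.2]
            intro _ _ _
            rfl
          · exact hpos' _ rfl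
          · intro i' a' μ' h1 h2 h3
            have := ts i' a' μ' h1 h2 h3
            exact ⟨Set.mem_insert_of_mem _ this.1, this.2⟩
          · intro i' a' μ' h1 h2 h3
            have := tu i' a' μ' h1 h2 h3
            refine ⟨?_, this.2⟩
            rw [Set.mem_insert_iff, hpos]
            rintro (h4 | h4)
            · have h5 : i' = i := by omega
              subst h5
              exact this.1 hse.1
            · exact this.1 h4
    · have hiw' : i = w.length := by omega
      have hwi : w[i]? = none := by
        rw [List.getElem?_eq_none_iff]
        omega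
      rw [hwi] at hv
      simp only at hv
      obtain ⟨hj, s, hδ⟩ := hv
      simp only at hj hδ
      subst hj
      have ht : c.tape (i + 1) = Sym.rend := by rw [hiw']; exact te
      refine ⟨⟨q', if d' = true then i + 1 + 1 else i + 1 - 1, c.tape, insert c.pos c.seen⟩,
        ⟨by omega, s, d', ?_, ?_, ?_, ?_, ?_, rfl⟩, ⟨rfl, ?_, t0, te, tn, ?_, ?_⟩⟩
      · rw [hpos, ht, st]
        exact hδ
      · intro h0
        omega
      · rw [hpos]
      · rintro ⟨_, h2, _⟩
        omega
      · intro _
        refine ⟨rfl, ?_⟩
        rw [hpos, ht]
        intro _ _ h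
        exact absurd rfl h
      · exact hpos' _ rfl
      · intro i' a' μ' h1 h2 h3
        have := ts i' a' μ' h1 h2 h3
        exact ⟨Set.mem_insert_of_mem _ this.1, this.2⟩
      · intro i' a' μ' h1 h2 h3
        have := tu i' a' μ' h1 h2 h3
        refine ⟨?_, this.2⟩
        rw [Set.mem_insert_iff, hpos]
        rintro (h4 | h4)
        · have h5 : i' = i := by omega
          subst h5
          rw [hwi] at h1
          cases h1
        · exact this.1 h4
  · obtain ⟨q, j⟩ := p
    obtain ⟨q', j'⟩ := p'
    simp only at st ps ts tu hp hs
    subst hp
    have hpos : c.pos = 0 := by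
      rw [ps]
      rfl
    refine ⟨⟨q', 1, c.tape, insert c.pos c.seen⟩,
      ⟨by omega, s, true, ?_, ?_, ?_, ?_, ?_, rfl⟩, ⟨rfl, rfl, t0, te, tn, ?_, ?_⟩⟩
    · rw [hpos, t0, st]
      exact hs
    · intro _
      rfl
    · rw [hpos]
      rfl
    · rintro ⟨h1, _, _⟩
      omega
    · intro _
      refine ⟨rfl, ?_⟩
      rw [hpos, t0]
      intro _ h _
      exact absurd rfl h
    · intro i' a' μ' h1 h2 h3
      have := ts i' a' μ' h1 h2 h3
      exact ⟨Set.mem_insert_of_mem _ this.1, this.2⟩
    · intro i' a' μ' h1 h2 h3
      have := tu i' a' μ' h1 h2 h3
      refine ⟨?_, this.2⟩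
      rw [Set.mem_insert_iff, hpos]
      rintro (h4 | h4)
      · omega
      · exact this.1 h4

theorem lang_of_lk {A : Type} (M : Mach A) (cv : Bool) (k : ℕ) {w : List A}
    (h : w ∈ Lk (ls M k) k) : w ∈ M.lang cv := by
  obtain ⟨α, _, _, f, hf, hp⟩ := h
  have key : ∀ y, Full (cr (ls M k) w α 0) (ls M k).E0 (w.length + 1)
      (0, true, (ls M k).p0) y →
      ∃ c, ReflTransGen (M.Step cv w.length) (M.init w) c ∧ Inv M k w α y c := by
    intro y hy
    induction hy with
    | refl => exact ⟨M.init w, ReflTransGen.refl, inv_init M k w α⟩
    | tail _ hstep ih =>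
      obtain ⟨c, hc, hI⟩ := ih
      obtain ⟨c', hs, hI'⟩ := inv_step M cv k w α hI hstep
      exact ⟨c', hc.tail hs, hI'⟩
  obtain ⟨c, hc, hI⟩ := key _ hp
  refine ⟨c, hc, ?_, ?_⟩
  · rw [hI.ps]
    rfl
  · rw [hI.st]
    exact hf

end Pool.Agent.P0036f5k
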