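import Pool.Agent.Lib.P0036f5k.Defs
import Pool.Agent.Lib.P0036f5k.LocA

/-!
# K7c1: relative annotations

* `bst_iff`: `bst S k w a (a + B) x y` iff there is `α` (relative annotation) with `Supp α 0 B`,
  `y.1 = x.1 + cnt α B`, `y.1 ≤ k` and `PM (cr S (w.drop a) α x.1) 0 B x.2 y.2`.  Translate absolute
  annotations `α'` with `Supp α' a (a + B)` into `α o = α' (a + o)` and back
  (`α' i = if a ≤ i then α (i - a) else none`): `cnt α' (a + o) = cnt α o` (no annotation before `a`),
  so `cr S w α' j (a + o) = cr S (w.drop a) α j o` (`(w.drop a)[o]? = w[a + o]?`); then `pm_shift` (with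
  `b = 0`, `c = B`; `a + 0 = a`) and `pm_congr`.
* `fin_iff`: in the same way, with `a + h = w.length`.
-/

set_option autoImplicit false

namespace Pool.Agent.P0036f5k

open Relation Pool.Agent.P0036f5v2 Pool.Agent.P0036f5w Pool.Agent.P0036f5g Classical

variable {A P M : Type}

namespace StepAAux

theorem cnt_succ (α : ℕ → Option M) (i : ℕ) :
    cnt α (i + 1) = cnt α i + (if (α i).isSome then 1 else 0) := by
  unfold cnt
  rw [Finset.range_add_one, Finset.filter_insert]
  split_ifs
  · rw [Finset.card_insert_of_notMem (by simp)]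
  · rfl

theorem cnt_zero {α : ℕ → Option M} {a : ℕ} (h : ∀ i < a, α i = none) : cnt α a = 0 := by
  unfold cnt
  rw [Finset.card_eq_zero, Finset.filter_eq_empty_iff]
  intro i hi
  rw [h i (Finset.mem_range.1 hi)]
  simp

theorem cnt_sft {α : ℕ → Option M} {a : ℕ} (h : ∀ i < a, α i = none) (o : ℕ) :
    cnt α (a + o) = cnt (fun o => α (a + o)) o := by
  induction o with
  | zero => rw [Nat.add_zero, cnt_zero h, cnt_zero (by intro i hi; omega)]
  | succ o ih => rw [← Nat.add_assoc, cnt_succ, cnt_succ, ih]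

theorem cr_sft (S : LS A P M) (w : List A) {α : ℕ → Option M} {a : ℕ} (h : ∀ i < a, α i = none)
    (j i : ℕ) : cr S w α j (a + i) = cr S (w.drop a) (fun o => α (a + o)) j i := by
  unfold cr
  rw [List.getElem?_drop, cnt_sft h]

theorem pm_sft (S : LS A P M) (w : List A) {α : ℕ → Option M} {a : ℕ} (h : ∀ i < a, α i = none)
    (j B : ℕ) (X Y : Fr P) : PM (cr S w α j) a (a + B) X Y ↔
      PM (cr S (w.drop a) (fun o => α (a + o)) j) 0 B X Y := by
  have h1 := pm_shift (v := cr S w α j) (a := a) (b := 0) (c := B) (X := X) (Y := Y)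
  rw [Nat.add_zero] at h1
  rw [← h1]
  exact pm_congr fun i _ _ => cr_sft S w h j i

/-- from relative to absolute annotations -/
def uns (a : ℕ) (α : ℕ → Option M) (i : ℕ) : Option M := if a ≤ i then α (i - a) else none

theorem uns_lt (a : ℕ) (α : ℕ → Option M) : ∀ i < a, uns a α i = none := by
  intro i hi
  unfold uns
  rw [if_neg (by omega)]

theorem uns_add (a : ℕ) (α : ℕ → Option M) : (fun o => uns a α (a + o)) = α := by
  funext o
  unfold uns
  rw [if_pos (by omega), Nat.add_sub_cancel_left]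

theorem supp_lt {α : ℕ → Option M} {a b : ℕ} (h : Supp α a b) : ∀ i < a, α i = none := by
  intro i hi
  by_contra hne
  have := h i (Option.isSome_iff_ne_none.2 hne)
  omega

theorem supp_sft {α : ℕ → Option M} {a B : ℕ} (h : Supp α a (a + B)) :
    Supp (fun o => α (a + o)) 0 B := by
  intro i hi
  have := h (a + i) hi
  omega

theorem supp_uns {α : ℕ → Option M} {a B : ℕ} (h : Supp α 0 B) : Supp (uns a α) a (a + B) := by
  intro i hi
  unfold uns at hi
  split_ifs at hi with h1
  · have := h (i - a) hi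
    omega
  · simp at hi

end StepAAux

open StepAAux

theorem bst_iff (S : LS A P M) (k : ℕ) (w : List A) (a B : ℕ) (x y : ℕ × Fr P) :
    bst S k w a (a + B) x y ↔ ∃ α : ℕ → Option M, Supp α 0 B ∧ y.1 = x.1 + cnt α B ∧ y.1 ≤ k ∧
      PM (cr S (w.drop a) α x.1) 0 B x.2 y.2 := by
  unfold bst
  constructor
  · rintro ⟨α, h1, h2, h3, h4⟩
    have h0 := supp_lt h1
    rw [cnt_sft h0] at h2
    rw [pm_sft S w h0] at h4
    exact ⟨_, supp_sft h1, h2, h3, h4⟩
  · rintro ⟨α, h1, h2, h3, h4⟩
    have h0 := uns_lt a α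
    refine ⟨uns a α, supp_uns h1, ?_, h3, ?_⟩
    · rw [cnt_sft h0, uns_add]
      exact h2
    · rw [pm_sft S w h0, uns_add]
      exact h4

theorem fin_iff (S : LS A P M) (k : ℕ) (w : List A) (a h : ℕ) (hw : w.length = a + h)
    (x : ℕ × Fr P) :
    fin S k w a x ↔ ∃ α : ℕ → Option M, Supp α 0 h ∧ x.1 + cnt α h ≤ k ∧ ∃ f ∈ S.F,
      PM (cr S (w.drop a) α x.1) 0 (h + 1) x.2 ({f}, ∅) := by
  unfold fin
  rw [hw, Nat.add_assoc]
  constructor
  · rintro ⟨α, h1, h2, f, h3, h4⟩
    have h0 := supp_lt h1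
    rw [cnt_sft h0] at h2
    rw [pm_sft S w h0] at h4
    exact ⟨_, supp_sft h1, h2, f, h3, h4⟩
  · rintro ⟨α, h1, h2, f, h3, h4⟩
    have h0 := uns_lt a α
    refine ⟨uns a α, supp_uns h1, ?_, f, h3, ?_⟩
    · rw [cnt_sft h0, uns_add]
      exact h2
    · rw [pm_sft S w h0, uns_add]
      exact h4

end Pool.Agent.P0036f5k
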