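import Pool.Agent.Lib.P0036f5k.StepA
import Pool.Agent.Lib.P0036f5k.TreeA
import Pool.Agent.Lib.P0036f5k.Hall
import Pool.Agent.Lib.P0036f5k.Pieces

/-!
# K7c2: correctness of the trees for one block and for the final region 

* `eval_stT` (`B + ℓ ≤ h`): by `bst_iff` (`(t + 1) * B = t * B + B`).  `pmT` is evaluated by `eval_hallT`
  and `eval_lsT` for `l = blkP α ℓ mx h`, with `chn_blkP`, `val_blkP`, `length_blkP` (the length bound
  is `LK`, `(2 ^ mx + 1) ℓ = B + ℓ ≤ h`); `l ≠ []` since `Chn ℓ h [] 0 B` would give `0 = B`;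
  `rnd ∉ l` (`pcs` consists of `raw` and `blk` pieces; induction on the level).  Every relative `α` is
  `Z.dec e` for some `e < E` by `Ok.hdec` (`Supp α 0 B` gives `Supp α 0 (2 B)` and
  `cnt α (2 B) = cnt α B ≤ y.1 ≤ k`); conversely only `e` with the three conditions are used.
* `eval_acT` (`w.length = a + h`, `h < 2 B`): the same with `fin_iff`, `finP`; the right end-marker
  piece is allowed; `f = (ρ c).2` for some `c < K` (`c = π (true, f)`).
-/

set_option autoImplicit false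

namespace Pool.Agent.P0036f5k

open Relation Pool.Agent.P0036f5v2 Pool.Agent.P0036f5w Pool.Agent.P0036f5g Classical

variable {A P M : Type}

namespace StepBAux

theorem cnt_le_of_supp {α : ℕ → Option M} {n : ℕ} (h : Supp α 0 n) (m : ℕ) :
    cnt α m ≤ cnt α n := by
  unfold cnt
  apply Finset.card_le_card
  intro o ho
  rw [Finset.mem_filter] at ho ⊢
  exact ⟨Finset.mem_range.mpr (h o ho.2).2, ho.2⟩

theorem rnd_not_mem_pcs (α : ℕ → Option M) (ℓ lim h : ℕ) (s u : ℕ) :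
    Pc.rnd ∉ pcs α ℓ lim h s u := by
  induction s generalizing u with
  | zero =>
    unfold pcs
    split_ifs <;> simp
  | succ s ih =>
    unfold pcs
    split_ifs
    · simp
    · simp
    · rw [List.mem_append, not_or]
      exact ⟨ih _, ih _⟩

theorem eval_pmT [Finite P] {Z : Par A P M} (hZ : Z.Ok) {w : List A} {t h : ℕ} {v : ℕ → Sy A}
    (hv : Z.Vw w (t * Z.bl) h v) {α : ℕ → Option M} {j : ℕ} {l : List Pc} {lo hi : ℕ}
    (hl : Chn Z.sl h l lo hi) (hne : l ≠ []) (hval : ∀ p ∈ l, Val α Z.sl Z.K Z.mx h p)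
    (hlen : l.length ≤ LK Z.k Z.mx Z.K) (hr : Pc.rnd ∈ l → w.length = t * Z.bl + h)
    (X Y : Fr P) :
    (Z.pmT α j h l X Y).eval v = true ↔
      PM (cr Z.S (w.drop (t * Z.bl)) α j) lo hi X Y := by
  unfold Par.pmT
  rw [Par.eval_hallT hZ]
  unfold PM
  have h1 : (fun x y => (Z.lsT α j h l x y).eval v = true) =
      TB (cr Z.S (w.drop (t * Z.bl)) α j) lo hi := by
    funext x y
    exact propext (Par.eval_lsT hZ hv hl hne hval hlen hr x y)
  rw [h1]

theorem sl_pos {Z : Par A P M} (hZ : Z.Ok) : 0 < Z.sl := by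
  show 0 < (Z.mx + 1) * (Z.K * Z.K)
  have := hZ.hK
  positivity

theorem blkP_ne (α : ℕ → Option M) {ℓ mx h : ℕ} (hℓ : 0 < ℓ) : blkP α ℓ mx h ≠ [] := by
  intro h0
  have h1 := chn_blkP α (mx := mx) (h := h) hℓ
  rw [h0] at h1
  have h2 : 0 < 2 ^ mx * ℓ := by positivity
  have h3 : 0 = 2 ^ mx * ℓ := h1
  omega

theorem finP_ne (α : ℕ → Option M) (ℓ mx h : ℕ) : finP α ℓ mx h ≠ [] := by
  unfold finP
  simp

end StepBAux

namespace Par

open StepBAux

theorem eval_stT [Finite P] {Z : Par A P M} (hZ : Z.Ok) {w : List A} {t h : ℕ} {v : ℕ → Sy A}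
    (hv : Z.Vw w (t * Z.bl) h v) (hh : Z.bl + Z.sl ≤ h) (x y : ℕ × Fr P) :
    (Z.stT h x y).eval v = true ↔
      bst Z.S Z.k w (t * Z.bl) ((t + 1) * Z.bl) x y := by
  have hsl := sl_pos hZ
  have hh' : (2 ^ Z.mx + 1) * Z.sl ≤ h := by
    have : (2 ^ Z.mx + 1) * Z.sl = Z.bl + Z.sl := by
      rw [add_mul, one_mul]
      rfl
    omega
  have key : ∀ α : ℕ → Option M, cnt α Z.bl ≤ Z.k →
      ((Z.pmT α x.1 h (blkP α Z.sl Z.mx h) x.2 y.2).eval v = true ↔
        PM (cr Z.S (w.drop (t * Z.bl)) α x.1) 0 Z.bl x.2 y.2) := by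
    intro α hα
    exact eval_pmT hZ hv (chn_blkP α hsl) (blkP_ne α hsl) (val_blkP α rfl hh')
      (length_blkP hsl hα hh') (fun h0 => absurd h0 (rnd_not_mem_pcs _ _ _ _ _ _)) _ _
  have h1 : (t + 1) * Z.bl = t * Z.bl + Z.bl := by rw [add_mul, one_mul]
  rw [h1, bst_iff]
  unfold Par.stT
  rw [DT.eval_orN]
  constructor
  · rintro ⟨e, -, he⟩
    split_ifs at he with hc
    · have h2 : cnt (Z.dec e) Z.bl ≤ Z.k := by
        have := hc.2.1
        have := hc.2.2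
        omega
      exact ⟨Z.dec e, hc.1, hc.2.1, hc.2.2, (key _ h2).mp he⟩
    · exact absurd he (by simp [DT.eval])
  · rintro ⟨α, hs, hy, hk, hp⟩
    have h2 : cnt α Z.bl ≤ Z.k := by omega
    obtain ⟨e, he, hd⟩ := hZ.hdec α (fun i hi => ⟨(hs i hi).1, by have := (hs i hi).2; omega⟩)
      ((cnt_le_of_supp hs _).trans h2)
    refine ⟨e, he, ?_⟩
    rw [hd, if_pos ⟨hs, hy, hk⟩]
    exact (key _ h2).mpr hp

theorem eval_acT [Finite P] {Z : Par A P M} (hZ : Z.Ok) {w : List A} {t h : ℕ} {v : ℕ → Sy A}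
    (hv : Z.Vw w (t * Z.bl) h v) (hh : h < 2 * Z.bl) (hw : w.length = t * Z.bl + h)
    (x : ℕ × Fr P) :
    (Z.acT h x).eval v = true ↔ fin Z.S Z.k w (t * Z.bl) x := by
  have hsl := sl_pos hZ
  have key : ∀ (α : ℕ → Option M) (f : P), cnt α h ≤ Z.k →
      ((Z.pmT α x.1 h (finP α Z.sl Z.mx h) x.2 ({f}, ∅)).eval v = true ↔
        PM (cr Z.S (w.drop (t * Z.bl)) α x.1) 0 (h + 1) x.2 ({f}, ∅)) := by
    intro α f hα
    exact eval_pmT hZ hv (chn_finP α hsl hh) (finP_ne α _ _ _) (val_finP α rfl)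
      (length_finP hsl hα) (fun _ => hw) _ _
  rw [fin_iff Z.S Z.k w (t * Z.bl) h hw]
  unfold Par.acT
  rw [DT.eval_orN]
  constructor
  · rintro ⟨e, -, he⟩
    split_ifs at he with hc
    · have h2 : cnt (Z.dec e) h ≤ Z.k := by
        have := hc.2
        omega
      rw [DT.eval_orN] at he
      obtain ⟨c, -, hc'⟩ := he
      split_ifs at hc' with hF
      · exact ⟨Z.dec e, hc.1, hc.2, (Z.ρ c).2, hF, (key _ _ h2).mp hc'⟩
      · exact absurd hc' (by simp [DT.eval])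
    · exact absurd he (by simp [DT.eval])
  · rintro ⟨α, hs, hk, f, hF, hp⟩
    have h2 : cnt α h ≤ Z.k := by omega
    obtain ⟨e, he, hd⟩ := hZ.hdec α (fun i hi => ⟨(hs i hi).1, by have := (hs i hi).2; omega⟩)
      ((cnt_le_of_supp hs _).trans h2)
    refine ⟨e, he, ?_⟩
    rw [hd, if_pos ⟨hs, hk⟩, DT.eval_orN]
    refine ⟨Z.π (true, f), hZ.hπ _, ?_⟩
    have h3 : (Z.ρ (Z.π (true, f))).2 = f := by rw [hZ.hρ]
    rw [if_pos (by rw [h3]; exact hF), h3]
    exact (key _ _ h2).mpr hp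

end Par

end Pool.Agent.P0036f5k
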