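import Pool.Agent.Lib.P0036f5k.TreeB
import Pool.Agent.Lib.P0036f5k.Hall
import Pool.Agent.Lib.P0036f5k.Pieces

/-!
# K7c3: cost and range of the trees for one block and for the final region

`nd_orN_le`, `nd_hallT_le`, `nd_lsT_le` etc. (`DT.within_orN`, `within_hallT`, `within_lsT`); if the
annotation `Z.dec e` does not satisfy the conditions the tree is `ret false`; otherwise `length_blkP`,
`length_finP` apply (`cnt (dec e) B ≤ y.1 ≤ k`, `(2 ^ mx + 1) ℓ = B + ℓ ≤ h`); `val_blkP`,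
`val_finP` for the range.
-/

set_option autoImplicit false

namespace Pool.Agent.P0036f5k

open Relation Pool.Agent.P0036f5v2 Pool.Agent.P0036f5w Pool.Agent.P0036f5g Classical

variable {A P M : Type}

namespace Par

private theorem sl_pos {Z : Par A P M} (hZ : Z.Ok) : 0 < Z.sl := by
  have := hZ.hK
  show 0 < (Z.mx + 1) * (Z.K * Z.K)
  positivity

private theorem bl_sl {Z : Par A P M} {h : ℕ} (hh : Z.bl + Z.sl ≤ h) : (2 ^ Z.mx + 1) * Z.sl ≤ h := by
  have e : (2 ^ Z.mx + 1) * Z.sl = Z.bl + Z.sl := by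
    show (2 ^ Z.mx + 1) * Z.sl = 2 ^ Z.mx * Z.sl + Z.sl
    rw [add_mul, one_mul]
  rw [e]
  exact hh

theorem nd_stT_le [Finite A] {Z : Par A P M} (hZ : Z.Ok) {h : ℕ} (hh : Z.bl + Z.sl ≤ h)
    (x y : ℕ × Fr P) :
    (Z.stT h x y).nd ≤ EK Z.k Z.mx Z.K Z.μ * HK Z.k Z.mx Z.K Z.κ := by
  unfold stT
  refine DT.nd_orN_le _ _ _ fun e _ => ?_
  split_ifs with h1
  · unfold pmT HK
    refine nd_hallT_le Z _ _ _ fun x' y' => ?_
    exact nd_lsT_le Z _ _ _ (length_blkP (sl_pos hZ) (by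
      have h2 := h1.2.1
      have h3 := h1.2.2
      show cnt (Z.dec e) Z.bl ≤ Z.k
      omega) (bl_sl hh)) _ _
  · rw [DT.nd_ret]; exact Nat.zero_le _

theorem nd_acT_le [Finite A] {Z : Par A P M} (hZ : Z.Ok) (h : ℕ) (x : ℕ × Fr P) :
    (Z.acT h x).nd ≤ EK Z.k Z.mx Z.K Z.μ * (Z.K * HK Z.k Z.mx Z.K Z.κ) := by
  unfold acT
  refine DT.nd_orN_le _ _ _ fun e _ => ?_
  split_ifs with h1
  · refine DT.nd_orN_le _ _ _ fun c _ => ?_
    split_ifs
    · unfold pmT HK
      refine nd_hallT_le Z _ _ _ fun x' y' => ?_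
      exact nd_lsT_le Z _ _ _ (length_finP (sl_pos hZ) (by
        have h2 := h1.2
        omega)) _ _
    · rw [DT.nd_ret]; exact Nat.zero_le _
  · rw [DT.nd_ret]; exact Nat.zero_le _

theorem within_stT {Z : Par A P M} (hZ : Z.Ok) {h : ℕ} (hh : Z.bl + Z.sl ≤ h)
    (x y : ℕ × Fr P) : (Z.stT h x y).Within h := by
  unfold stT
  refine DT.within_orN _ _ fun e _ => ?_
  split_ifs with h1
  · unfold pmT
    exact within_hallT Z _ _ _ fun x' y' => within_lsT hZ (val_blkP _ rfl (bl_sl hh)) _ _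
  · trivial

theorem within_acT {Z : Par A P M} (hZ : Z.Ok) (h : ℕ) (x : ℕ × Fr P) :
    (Z.acT h x).Within h := by
  unfold acT
  refine DT.within_orN _ _ fun e _ => ?_
  split_ifs with h1
  · refine DT.within_orN _ _ fun c _ => ?_
    split_ifs
    · unfold pmT
      exact within_hallT Z _ _ _ fun x' y' => within_lsT hZ (val_finP _ rfl) _ _
    · trivial
  · trivial

end Par

end Pool.Agent.P0036f5k
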