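import Pool.Agent.Lib.P0036f5k.Defs

/-!
# The witness machine with one mark

Letters: two bits, a separator `s` and a second separator `h`.  A word `s x₁ s x₂ … s x_r h y` with
`|x_j| = |y| = m` is accepted iff `y` is one of the `x_j`.  The machine marks the separator before
`x_j` and compares `y` with `x_j` bit by bit; a counter counts down on the way to the bit and up
again on the way back, so that `O(m)` states suffice.
-/

set_option autoImplicit false

namespace Pool.Agent.P0036f5k

open Relation Pool.Agent.P0036f5v2

/-- input letters -/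
inductive WA : Type
  | b (c : Bool)
  | s
  | h
  deriving DecidableEq

/-- states -/
inductive WQ : Type
  | scan
  | mid
  | fin
  | yo (i : ℕ)
  | yb (c : Bool) (i : ℕ)
  | lf (c : Bool) (i : ℕ)
  | xo (c : Bool) (i : ℕ)
  | xb (i : ℕ)
  | rt (i : ℕ)

/-- first choice -/
def ktr1 (m : ℕ) : WQ → Sym WA Unit → Option (WQ × (WA ⊕ Unit) × Bool)
  | .scan, .inp (.b c) => some (.scan, .inl (.b c), true)
  | .scan, .inp .s => some (.scan, .inl .s, true)
  | .mid, .inp (.b c) => some (.mid, .inl (.b c), true)
  | .mid, .inp .s => some (.mid, .inl .s, true)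
  | .mid, .inp .h => some (.yo 0, .inl .h, true)
  | .yo 0, .inp (.b c) => some (.yb c 0, .inl (.b c), false)
  | .yo (i + 1), .inp (.b c) => some (.yo i, .inl (.b c), true)
  | .yb c i, .inp (.b c') => if i + 1 < m then some (.yb c (i + 1), .inl (.b c'), false) else none
  | .yb c i, .inp .h => some (.lf c i, .inl .h, false)
  | .lf c i, .inp a => some (.lf c i, .inl a, false)
  | .lf c i, .wrk _ => some (.xo c i, .inr (), true)
  | .xo c 0, .inp (.b c') => if c' = c then some (.xb 0, .inl (.b c'), false) else none
  | .xo c (i + 1), .inp (.b c') => some (.xo c i, .inl (.b c'), true)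
  | .xb i, .inp (.b c) => if i + 1 < m then some (.xb (i + 1), .inl (.b c), false) else none
  | .xb i, .wrk _ => some (.rt (i + 1), .inr (), true)
  | .rt i, .inp (.b c) => some (.rt i, .inl (.b c), true)
  | .rt i, .inp .s => some (.rt i, .inl .s, true)
  | .rt i, .inp .h => if i < m then some (.yo i, .inl .h, true) else some (.fin, .inl .h, true)
  | .fin, .inp (.b c) => some (.fin, .inl (.b c), true)
  | .fin, .rend => some (.fin, .inl .h, true)
  | _, _ => none

/-- second choice -/
def ktr2 : WQ → Sym WA Unit → Option (WQ × (WA ⊕ Unit) × Bool)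
  | .scan, .inp .s => some (.mid, .inr (), true)
  | _, _ => none

/-- the machine -/
@[reducible] def km (m : ℕ) : Mach WA where
  Q := WQ
  W := Unit
  δ := fun q s => {x | ktr1 m q s = some x ∨ ktr2 q s = some x}
  qI := .scan
  F := {.fin}

/-- the first part of the test words -/
def wX (Xs : List (List Bool)) : List WA := Xs.flatMap fun x => WA.s :: x.map WA.b

/-- the second part of the test words -/
def wY (y : List Bool) : List WA := WA.h :: y.map WA.b

end Pool.Agent.P0036f5k
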