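import Pool.Agent.Lib.P0036f5k.WDefs

/-!
# K11b2: correct test words are accepted

The input is `w = s x₁ s x₂ … s x_r h y`, all `|x_j| = |y| = m ≥ 1`.  Let `H` be the tape position of
`h` (`H = (wX Xs).length + 1`), so `y_t` is at the position `H + 1 + t`; the separator before `x_j`
(`j`-th block, `j` from `0`) is at `g_j = j (m + 1) + 1` and the bit `t` of `x_j` at `g_j + 1 + t`.

Invariant for all configurations reachable from `(km m).init w` (tape `τ`, position `p`):
either the state is `scan`, the tape is the initial one, `1 ≤ p ≤ H`, all seen cells are `< p`; or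
there is a block `j < r` such that the tape is the initial one except that the cell `g_j` contains
`wrk ()`, `g_j` is seen, and one of
* `mid`, `g_j < p ≤ H`;
* `yo i`, with `t` such that `i ≤ t < m`, `p = H + 1 + (t - i)`, bits `< t` of `x_j` and `y` agree;
* `yb c i`, `t < m`, `p = H + t - i`, `i ≤ t`, `c = y_t`, bits `< t` agree;
* `lf c t`, `t < m`, `g_j ≤ p < H`, `c = y_t`, bits `< t` agree;
* `xo c i`, `i ≤ t < m`, `p = g_j + 1 + (t - i)`, `c = y_t`, bits `< t` agree;
* `xb i`, `i ≤ t < m`, `p = g_j + t - i`, bits `< t + 1` agree;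
* `rt t`, `1 ≤ t ≤ m`, `g_j < p ≤ H`, bits `< t` agree;
* `fin`, `H < p`, all `m` bits agree.

If `y = x_j`: scan to `g_j`, mark it (second choice), go right to `H`, and run `m` rounds; each
round is a walk as described by the invariant.  Every step is possible and the tape does not change
(all these transitions write the symbol they read, so `OkW` holds and a first visit changes nothing).
It is convenient to prove one lemma: if the tape of `c` is `τ_j` (initial tape with `g_j` marked) and
`(q', x, d) ∈ δ q (τ_j p)` with `Sym.ofW x = τ_j p` (or `p` an end-marker position), then there is a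
step to state `q'`, position `p ± 1`, tape `τ_j` (whatever the seen set is); similarly for the initial
tape in the state `scan`.  At the end: `fin` moves right over `y` and over the right end-marker.
Compare `Pool.Agent.Lib.P0036f5v2.Witness` (`walk_go`, `walk_dn`, …, `wm_complete`: the same kind of
proof for another machine).
-/

set_option autoImplicit false

namespace Pool.Agent.P0036f5k

open Relation Pool.Agent.P0036f5v2 Pool.Agent.P0036f5g

namespace WitB2Aux

/-- data of an accepted word: the separator at the tape position `g`, the second one at `H` -/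
structure Dat (w : List WA) (m g H : ℕ) (bt : ℕ → Bool) : Prop where
  m1 : 1 ≤ m
  g1 : 1 ≤ g
  gH : g + m < H
  len : w.length = H + m
  tg : w[g - 1]? = some WA.s
  tH : w[H - 1]? = some WA.h
  tx : ∀ t < m, w[g + t]? = some (WA.b (bt t))
  ty : ∀ t < m, w[H + t]? = some (WA.b (bt t))
  tl : ∀ i < H - 1, w[i]? = some WA.s ∨ ∃ c, w[i]? = some (WA.b c)

/-- the tape with one mark -/
def T1 (m : ℕ) (w : List WA) (g : ℕ) : ℕ → Sym WA Unit :=
  Function.update ((km m).initTape w) g (Sym.wrk ())

/-- reachable with the mark -/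
def R (m : ℕ) (cv : Bool) (w : List WA) (g : ℕ) (q : WQ) (p : ℕ) : Prop :=
  ∃ sn : Set ℕ, ReflTransGen ((km m).Step cv w.length) ((km m).init w) ⟨q, p, T1 m w g, sn⟩

variable {m : ℕ} {w : List WA} {g H : ℕ} {bt : ℕ → Bool} {cv : Bool}

lemma init_some {j : ℕ} {a : WA} (h1 : 1 ≤ j) (h : w[j - 1]? = some a) :
    (km m).initTape w j = Sym.inp a := by
  simp only [Mach.initTape]
  rw [if_neg (by omega), h]

lemma init_none {j : ℕ} (h1 : 1 ≤ j) (h : w[j - 1]? = none) :
    (km m).initTape w j = Sym.rend := by
  simp only [Mach.initTape]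
  rw [if_neg (by omega), h]

lemma T1_g : T1 m w g g = Sym.wrk () := Function.update_self _ _ _

lemma T1_some {j : ℕ} {a : WA} (h1 : 1 ≤ j) (hj : j ≠ g) (h : w[j - 1]? = some a) :
    T1 m w g j = Sym.inp a := by
  rw [T1, Function.update_of_ne hj]
  exact init_some h1 h

lemma T1_none {j : ℕ} (h1 : 1 ≤ j) (hj : j ≠ g) (h : w[j - 1]? = none) :
    T1 m w g j = Sym.rend := by
  rw [T1, Function.update_of_ne hj]
  exact init_none h1 h

lemma R.step {q q' : WQ} {p : ℕ} {x : WA ⊕ Unit} {d : Bool} (h : R m cv w g q p) (hp : 1 ≤ p)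
    (hp' : p ≤ w.length + 1)
    (hx : Sym.ofW x = T1 m w g p ∨ (p = w.length + 1 ∧ T1 m w g p = Sym.rend))
    (ht : ktr1 m q (T1 m w g p) = some (q', x, d)) :
    R m cv w g q' (if d = true then p + 1 else p - 1) := by
  obtain ⟨sn, h⟩ := h
  refine ⟨insert p sn, h.tail ⟨hp', x, d, Or.inl ht, fun h0 => by simp only at h0; omega, rfl, ?_, ?_, rfl⟩⟩
  · rintro ⟨_, h2, _⟩
    simp only at h2
    rcases hx with hx | hx
    · simp only
      rw [hx, Function.update_eq_self]
    · omega
  · intro _
    refine ⟨rfl, fun _ _ h3 => ?_⟩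
    rcases hx with hx | hx
    · exact hx
    · exact absurd hx.2 h3

lemma R.right {q q' : WQ} {p : ℕ} {a : WA} (h : R m cv w g q p) (hp : 1 ≤ p) (hp' : p ≤ w.length)
    (hx : T1 m w g p = Sym.inp a) (ht : ktr1 m q (Sym.inp a) = some (q', .inl a, true)) :
    R m cv w g q' (p + 1) :=
  h.step (x := .inl a) (d := true) hp (by omega) (Or.inl hx.symm) (by rw [hx]; exact ht)

lemma R.left {q q' : WQ} {p : ℕ} {a : WA} (h : R m cv w g q p) (hp : 1 ≤ p) (hp' : p ≤ w.length)
    (hx : T1 m w g p = Sym.inp a) (ht : ktr1 m q (Sym.inp a) = some (q', .inl a, false)) :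
    R m cv w g q' (p - 1) :=
  h.step (x := .inl a) (d := false) hp (by omega) (Or.inl hx.symm) (by rw [hx]; exact ht)

lemma R.mark {q q' : WQ} (h : R m cv w g q g) (hp : 1 ≤ g) (hp' : g ≤ w.length)
    (ht : ktr1 m q (Sym.wrk ()) = some (q', .inr (), true)) :
    R m cv w g q' (g + 1) :=
  h.step (x := .inr ()) (d := true) hp (by omega) (Or.inl T1_g.symm) (by rw [T1_g]; exact ht)

namespace Dat

lemma X (D : Dat w m g H bt) {t : ℕ} (ht : t < m) : T1 m w g (g + 1 + t) = Sym.inp (WA.b (bt t)) := by
  apply T1_some (by omega) (by omega)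
  rw [← D.tx t ht]
  congr 1
  omega

lemma Y (D : Dat w m g H bt) {t : ℕ} (ht : t < m) : T1 m w g (H + 1 + t) = Sym.inp (WA.b (bt t)) := by
  have := D.gH
  apply T1_some (by omega) (by omega)
  rw [← D.ty t ht]
  congr 1
  omega

lemma h (D : Dat w m g H bt) : T1 m w g H = Sym.inp WA.h := by
  have := D.gH
  exact T1_some (by omega) (by omega) D.tH

lemma L (D : Dat w m g H bt) {p : ℕ} (hp : g < p) (hp' : p < H) :
    T1 m w g p = Sym.inp WA.s ∨ ∃ c, T1 m w g p = Sym.inp (WA.b c) := by
  rcases D.tl (p - 1) (by omega) with h | ⟨c, h⟩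
  · exact Or.inl (T1_some (by omega) (by omega) h)
  · exact Or.inr ⟨c, T1_some (by omega) (by omega) h⟩

lemma scan (D : Dat w m g H bt) : ∀ k, k < g → ∃ sn : Set ℕ,
    ReflTransGen ((km m).Step cv w.length) ((km m).init w) ⟨.scan, k + 1, (km m).initTape w, sn⟩ ∧
      ∀ j ∈ sn, j < k + 1 := by
  intro k
  induction k with
  | zero => intro _; exact ⟨∅, ReflTransGen.refl, fun j hj => absurd hj (Set.notMem_empty j)⟩
  | succ k ih =>
    intro hk
    obtain ⟨sn, hr, hs⟩ := ih (by omega)
    have h1 := D.gH
    have h2 := D.len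
    have key : ∀ a : WA, (km m).initTape w (k + 1) = Sym.inp a →
        ktr1 m .scan (Sym.inp a) = some (.scan, .inl a, true) →
        ∃ sn : Set ℕ, ReflTransGen ((km m).Step cv w.length) ((km m).init w)
          ⟨.scan, k + 1 + 1, (km m).initTape w, sn⟩ ∧ ∀ j ∈ sn, j < k + 1 + 1 := by
      intro a ha ht
      refine ⟨insert (k + 1) sn, hr.tail ⟨by simp only; omega, .inl a, true, Or.inl (by simp only; rw [ha]; exact ht),
        fun _ => rfl, rfl, ?_, ?_, rfl⟩, ?_⟩
      · intro _
        simp only
        have : (Sym.ofW (Sum.inl a) : Sym WA Unit) = (km m).initTape w (k + 1) := ha.symm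
        rw [this, Function.update_eq_self]
      · intro _
        exact ⟨rfl, fun _ _ _ => ha.symm⟩
      · rintro j (hj | hj)
        · omega
        · have := hs j hj
          omega
    rcases D.tl k (by omega) with h | ⟨c, h⟩
    · exact key _ (init_some (by omega) h) rfl
    · exact key _ (init_some (by omega) h) rfl

lemma mid0 (D : Dat w m g H bt) : R m cv w g .mid (g + 1) := by
  have h0 := D.g1
  have h1 := D.gH
  have h2 := D.len
  obtain ⟨sn, hr, hs⟩ := D.scan (cv := cv) (g - 1) (by omega)
  have e : g - 1 + 1 = g := by omega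
  rw [e] at hr hs
  have ht : (km m).initTape w g = Sym.inp WA.s := init_some (by omega) D.tg
  have hns : g ∉ sn := fun h => by have := hs g h; omega
  refine ⟨insert g sn, hr.tail ⟨by simp only; omega, .inr (), true, Or.inr (by simp only; rw [ht]; rfl),
    fun _ => rfl, rfl, fun _ => rfl, ?_, rfl⟩⟩
  intro h
  exact absurd ⟨h0, by simp only; omega, hns⟩ h

/-- going right to `h` -/
lemma goR (D : Dat w m g H bt) (q : WQ) (hb : ∀ c, ktr1 m q (Sym.inp (WA.b c)) = some (q, .inl (.b c), true))
    (hs : ktr1 m q (Sym.inp WA.s) = some (q, .inl .s, true)) (h : R m cv w g q (g + 1)) :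
    ∀ k, g + 1 + k ≤ H → R m cv w g q (g + 1 + k) := by
  intro k
  induction k with
  | zero => intro _; exact h
  | succ k ih =>
    intro hk
    have h1 := D.len
    have h2 := ih (by omega)
    rcases D.L (p := g + 1 + k) (by omega) (by omega) with e | ⟨c, e⟩
    · exact h2.right (by omega) (by omega) e hs
    · exact h2.right (by omega) (by omega) e (hb c)

lemma goR' (D : Dat w m g H bt) (q : WQ) (hb : ∀ c, ktr1 m q (Sym.inp (WA.b c)) = some (q, .inl (.b c), true))
    (hs : ktr1 m q (Sym.inp WA.s) = some (q, .inl .s, true)) (h : R m cv w g q (g + 1)) :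
    R m cv w g q H := by
  have h1 := D.gH
  have := D.goR q hb hs h (H - (g + 1)) (by omega)
  have e : g + 1 + (H - (g + 1)) = H := by omega
  rwa [e] at this

lemma yo0 (D : Dat w m g H bt) : R m cv w g (.yo 0) (H + 1) := by
  have h1 := D.gH
  have h2 := D.len
  exact (D.goR' .mid (fun _ => rfl) rfl D.mid0).right (by omega) (by omega) D.h rfl

lemma yo_walk (D : Dat w m g H bt) {t : ℕ} (ht : t < m) (h : R m cv w g (.yo t) (H + 1)) :
    ∀ k, k ≤ t → R m cv w g (.yo (t - k)) (H + 1 + k) := by
  intro k
  induction k with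
  | zero => intro _; exact h
  | succ k ih =>
    intro hk
    have h1 := D.len
    have h2 := ih (by omega)
    have e : t - k = t - (k + 1) + 1 := by omega
    rw [e] at h2
    exact h2.right (by omega) (by omega) (D.Y (by omega)) rfl

lemma yb_walk (D : Dat w m g H bt) {t : ℕ} (ht : t < m) (h : R m cv w g (.yo t) (H + 1)) :
    ∀ k, k ≤ t → R m cv w g (.yb (bt t) k) (H + (t - k)) := by
  have h1 := D.len
  intro k
  induction k with
  | zero =>
    intro _
    have h2 := D.yo_walk ht h t le_rfl
    rw [Nat.sub_self] at h2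
    have h3 := h2.left (q' := .yb (bt t) 0) (by omega) (by omega) (D.Y ht) rfl
    have e : H + 1 + t - 1 = H + (t - 0) := by omega
    rwa [e] at h3
  | succ k ih =>
    intro hk
    have h2 := ih (by omega)
    have e : H + (t - k) = H + 1 + (t - k - 1) := by omega
    rw [e] at h2
    have h3 := h2.left (q' := .yb (bt t) (k + 1)) (by omega) (by omega) (D.Y (by omega)) (by
      simp only [ktr1]
      rw [if_pos (by omega)])
    have e : H + 1 + (t - k - 1) - 1 = H + (t - (k + 1)) := by omega
    rwa [e] at h3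

lemma lf0 (D : Dat w m g H bt) {t : ℕ} (ht : t < m) (h : R m cv w g (.yo t) (H + 1)) :
    R m cv w g (.lf (bt t) t) (H - 1) := by
  have h1 := D.gH
  have h2 := D.len
  have h3 := D.yb_walk ht h t le_rfl
  rw [Nat.sub_self, Nat.add_zero] at h3
  exact h3.left (by omega) (by omega) D.h rfl

lemma lf_walk (D : Dat w m g H bt) {t : ℕ} (ht : t < m) (h : R m cv w g (.yo t) (H + 1)) :
    ∀ k, g + k ≤ H - 1 → R m cv w g (.lf (bt t) t) (H - 1 - k) := by
  have h1 := D.gH
  have h2 := D.len
  have h0 := D.g1
  intro k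
  induction k with
  | zero => intro _; exact D.lf0 ht h
  | succ k ih =>
    intro hk
    have h3 := ih (by omega)
    rcases D.L (p := H - 1 - k) (by omega) (by omega) with e | ⟨c, e⟩
    · exact h3.left (by omega) (by omega) e rfl
    · exact h3.left (by omega) (by omega) e rfl

lemma xo0 (D : Dat w m g H bt) {t : ℕ} (ht : t < m) (h : R m cv w g (.yo t) (H + 1)) :
    R m cv w g (.xo (bt t) t) (g + 1) := by
  have h1 := D.gH
  have h2 := D.len
  have h3 := D.lf_walk ht h (H - 1 - g) (by omega)
  have e : H - 1 - (H - 1 - g) = g := by omega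
  rw [e] at h3
  exact h3.mark D.g1 (by omega) rfl

lemma xo_walk (D : Dat w m g H bt) {t : ℕ} (ht : t < m) (h : R m cv w g (.yo t) (H + 1)) :
    ∀ k, k ≤ t → R m cv w g (.xo (bt t) (t - k)) (g + 1 + k) := by
  have h1 := D.gH
  have h2 := D.len
  intro k
  induction k with
  | zero => intro _; exact D.xo0 ht h
  | succ k ih =>
    intro hk
    have h3 := ih (by omega)
    have e : t - k = t - (k + 1) + 1 := by omega
    rw [e] at h3
    exact h3.right (by omega) (by omega) (D.X (by omega)) rfl

lemma xb_walk (D : Dat w m g H bt) {t : ℕ} (ht : t < m) (h : R m cv w g (.yo t) (H + 1)) :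
    ∀ k, k ≤ t → R m cv w g (.xb k) (g + (t - k)) := by
  have h1 := D.gH
  have h2 := D.len
  intro k
  induction k with
  | zero =>
    intro _
    have h3 := D.xo_walk ht h t le_rfl
    rw [Nat.sub_self] at h3
    have h4 := h3.left (q' := .xb 0) (by omega) (by omega) (D.X ht) (by simp [ktr1])
    have e : g + 1 + t - 1 = g + (t - 0) := by omega
    rwa [e] at h4
  | succ k ih =>
    intro hk
    have h3 := ih (by omega)
    have e : g + (t - k) = g + 1 + (t - k - 1) := by omega
    rw [e] at h3
    have h4 := h3.left (q' := .xb (k + 1)) (by omega) (by omega) (D.X (by omega)) (by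
      simp only [ktr1]
      rw [if_pos (by omega)])
    have e : g + 1 + (t - k - 1) - 1 = g + (t - (k + 1)) := by omega
    rwa [e] at h4

lemma rtH (D : Dat w m g H bt) {t : ℕ} (ht : t < m) (h : R m cv w g (.yo t) (H + 1)) :
    R m cv w g (.rt (t + 1)) H := by
  have h1 := D.gH
  have h2 := D.len
  have h3 := D.xb_walk ht h t le_rfl
  rw [Nat.sub_self, Nat.add_zero] at h3
  exact D.goR' (.rt (t + 1)) (fun _ => rfl) rfl (h3.mark D.g1 (by omega) rfl)

lemma yo_all (D : Dat w m g H bt) : ∀ t, t < m → R m cv w g (.yo t) (H + 1) := by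
  have h1 := D.gH
  have h2 := D.len
  intro t
  induction t with
  | zero => intro _; exact D.yo0
  | succ t ih =>
    intro ht
    exact (D.rtH (by omega) (ih (by omega))).right (by omega) (by omega) D.h (by
      simp only [ktr1]
      rw [if_pos ht])

lemma fin0 (D : Dat w m g H bt) : R m cv w g .fin (H + 1) := by
  have h0 := D.m1
  have h1 := D.gH
  have h2 := D.len
  exact (D.rtH (t := m - 1) (by omega) (D.yo_all _ (by omega))).right (by omega) (by omega) D.h (by
      simp only [ktr1]
      rw [if_neg (by omega)])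

lemma fin_walk (D : Dat w m g H bt) : ∀ k, k ≤ m → R m cv w g .fin (H + 1 + k) := by
  have h2 := D.len
  intro k
  induction k with
  | zero => intro _; exact D.fin0
  | succ k ih =>
    intro hk
    exact (ih (by omega)).right (by omega) (by omega) (D.Y (by omega)) rfl

lemma acc (D : Dat w m g H bt) : w ∈ (km m).lang cv := by
  have h1 := D.gH
  have h2 := D.len
  have h3 : T1 m w g (H + 1 + m) = Sym.rend :=
    T1_none (by omega) (by omega) (List.getElem?_eq_none (by omega))
  have h4 : R m cv w g .fin (H + 1 + m + 1) :=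
    (D.fin_walk (cv := cv) m le_rfl).step (x := .inl .h) (d := true) (by omega) (by omega)
      (Or.inr ⟨by omega, h3⟩) (by rw [h3]; rfl)
  obtain ⟨sn, hr⟩ := h4
  exact ⟨_, hr, by simp only; omega, rfl⟩

end Dat

lemma exists_dat (m : ℕ) (hm : 1 ≤ m) (L R : List (List Bool)) (y : List Bool) (hy : y.length = m) :
    Dat (wX (L ++ y :: R) ++ wY y) m ((wX L).length + 1) ((wX (L ++ y :: R)).length + 1)
      (fun t => y.getD t false) := by
  have e1 : wX (L ++ y :: R) = wX L ++ (WA.s :: (y.map WA.b ++ wX R)) := by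
    simp [wX]
  have hns : ∀ Xs : List (List Bool), ∀ a ∈ wX Xs, a = WA.s ∨ ∃ c, a = WA.b c := by
    intro Xs a ha
    simp only [wX, List.mem_flatMap, List.mem_cons, List.mem_map] at ha
    obtain ⟨x, _, h | ⟨c, _, h⟩⟩ := ha
    · exact Or.inl h
    · exact Or.inr ⟨c, h.symm⟩
  have hyb : ∀ t < m, (y.map WA.b)[t]? = some (WA.b (y.getD t false)) := by
    intro t ht
    rw [List.getElem?_map, List.getD_eq_getElem?_getD, List.getElem?_eq_getElem (by omega)]
    simp
  have l1 : (wX (L ++ y :: R)).length = (wX L).length + (1 + (m + (wX R).length)) := by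
    rw [e1]
    simp [hy]
    omega
  refine ⟨hm, by omega, by omega, ?_, ?_, ?_, ?_, ?_, ?_⟩
  · simp [wY, hy]
    omega
  · rw [List.getElem?_append_left (by omega), e1, Nat.add_sub_cancel,
      List.getElem?_append_right le_rfl, Nat.sub_self]
    rfl
  · rw [List.getElem?_append_right (by omega), Nat.add_sub_cancel, Nat.sub_self]
    rfl
  · intro t ht
    rw [List.getElem?_append_left (by omega), e1, List.getElem?_append_right (by omega)]
    have e : (wX L).length + 1 + t - (wX L).length = t + 1 := by omega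
    rw [e, List.getElem?_cons_succ, List.getElem?_append_left (by simp; omega), hyb t ht]
  · intro t ht
    rw [List.getElem?_append_right (by omega)]
    have e : (wX (L ++ y :: R)).length + 1 + t - (wX (L ++ y :: R)).length = t + 1 := by omega
    rw [e, wY, List.getElem?_cons_succ, hyb t ht]
  · intro i hi
    rw [List.getElem?_append_left (by omega), List.getElem?_eq_getElem (by omega)]
    rcases hns _ _ (List.getElem_mem (l := wX (L ++ y :: R)) (n := i) (by omega)) with h | ⟨c, h⟩
    · exact Or.inl (by rw [h])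
    · exact Or.inr ⟨c, by rw [h]⟩

end WitB2Aux

open WitB2Aux in
theorem km_complete (m : ℕ) (hm : 1 ≤ m) (cv : Bool) (Xs : List (List Bool))
    (hX : ∀ x ∈ Xs, x.length = m) (y : List Bool) (hy : y ∈ Xs) :
    wX Xs ++ wY y ∈ (km m).lang cv := by
  obtain ⟨L, R, rfl⟩ := List.append_of_mem hy
  exact (exists_dat m hm L R y (hX y hy)).acc

end Pool.Agent.P0036f5k
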