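import Pool.Agent.Lib.P0036f5k.WitB1
import Pool.Agent.Lib.P0036f5k.WitB2

/-!
# K11b: the witness machine on test words
-/

set_option autoImplicit false

namespace Pool.Agent.P0036f5k

open Relation Pool.Agent.P0036f5v2 Pool.Agent.P0036f5g

theorem km_mem (m : ℕ) (hm : 1 ≤ m) (cv : Bool) (Xs : List (List Bool))
    (hX : ∀ x ∈ Xs, x.length = m) (y : List Bool) (hy : y.length = m) :
    wX Xs ++ wY y ∈ (km m).lang cv ↔ y ∈ Xs :=
  ⟨km_sound m hm cv Xs hX y hy, km_complete m hm cv Xs hX y⟩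

end Pool.Agent.P0036f5k
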