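import Pool.Agent.Lib.P0036f5k.WDefs

/-!
# K11b1: accepted test words are correct (proof below)

The input is `w = s x₁ s x₂ … s x_r h y`, all `|x_j| = |y| = m ≥ 1`.  Let `H` be the tape position of
`h` (`H = (wX Xs).length + 1`), so `y_t` is at the position `H + 1 + t`; the separator before `x_j`
(`j`-th block, `j` from `0`) is at `g_j = j (m + 1) + 1` and the bit `t` of `x_j` at `g_j + 1 + t`.

Invariant for all configurations reachable from `(km m).init w` (tape `τ`, position `p`):
either the state is `scan`, the tape is the initial one, `1 ≤ p ≤ H`, all seen cells are `< p`; or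
there is a block `j < r` such that the tape is the initial one except that the cell `g_j` contains
`wrk ()`, `g_j` is seen, and one of
* `mid`, `g_j < p ≤ H`;
* `yo i`, with `t` such that `i ≤ t < m`, `p = H + 1 + (t - i)`, bits `< t` of `x_j` and `y` agree;
* `yb c i`, `t < m`, `p = H + t - i`, `i ≤ t`, `c = y_t`, bits `< t` agree;
* `lf c t`, `t < m`, `g_j ≤ p < H`, `c = y_t`, bits `< t` agree;
* `xo c i`, `i ≤ t < m`, `p = g_j + 1 + (t - i)`, `c = y_t`, bits `< t` agree;
* `xb i`, `i ≤ t < m`, `p = g_j + t - i`, bits `< t + 1` agree;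
* `rt t`, `1 ≤ t ≤ m`, `g_j < p ≤ H`, bits `< t` agree;
* `fin`, `H < p`, all `m` bits agree.

At the end the state is `fin`, so `y = x_j ∈ Xs`.  (The symbol at a position is determined by the
letter of `w` there; a frozen cell keeps its content and a cell visited for the first time gets the
letter it had, except `g_j`.)
Compare `Pool.Agent.Lib.P0036f5v2.Witness` (`Inv`, `inv_step`, `wm_sound`: the same kind of proof for
another machine).
-/

set_option autoImplicit false

namespace Pool.Agent.P0036f5k

open Relation Pool.Agent.P0036f5v2 Pool.Agent.P0036f5g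

namespace WitB1Aux

/-- agreement of the first `t` bits -/
def Ag (X Y : ℕ → Bool) (t : ℕ) : Prop := ∀ u < t, X u = Y u

/-- the state part of the invariant -/
def St (m G H : ℕ) (X Y : ℕ → Bool) : WQ → ℕ → Prop
  | .scan, _ => False
  | .mid, p => G < p ∧ p ≤ H
  | .yo i, p => ∃ t, i ≤ t ∧ t < m ∧ p + i = H + 1 + t ∧ Ag X Y t
  | .yb c i, p => ∃ t, t < m ∧ i ≤ t ∧ p + i = H + t ∧ c = Y t ∧ Ag X Y t
  | .lf c t, p => t < m ∧ G ≤ p ∧ p < H ∧ c = Y t ∧ Ag X Y t
  | .xo c i, p => ∃ t, i ≤ t ∧ t < m ∧ p + i = G + 1 + t ∧ c = Y t ∧ Ag X Y t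
  | .xb i, p => ∃ t, i ≤ t ∧ t < m ∧ p + i = G + t ∧ Ag X Y (t + 1)
  | .rt t, p => 1 ≤ t ∧ t ≤ m ∧ G < p ∧ p ≤ H ∧ Ag X Y t
  | .fin, p => H < p ∧ Ag X Y m

/-- what is needed about the tape -/
structure TF (m G H : ℕ) (X Y : ℕ → Bool) (T : ℕ → Sym WA Unit) : Prop where
  hGH : G < H
  fH : T H = .inp .h
  fG : T G = .wrk ()
  fx : ∀ t < m, T (G + 1 + t) = .inp (.b (X t))
  fy : ∀ t < m, T (H + 1 + t) = .inp (.b (Y t))
  fh : ∀ p, T p = .inp .h → p = H
  fw : ∀ p u, T p = .wrk u → p = G

theorem TF.ne_H {m G H : ℕ} {X Y : ℕ → Bool} {T : ℕ → Sym WA Unit} (h : TF m G H X Y T)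
    {p : ℕ} {a : WA} (hp : T p = .inp a) (ha : a ≠ .h) : p ≠ H := by
  rintro rfl
  rw [h.fH] at hp
  exact ha (Sym.inp.inj hp).symm

theorem TF.ne_G {m G H : ℕ} {X Y : ℕ → Bool} {T : ℕ → Sym WA Unit} (h : TF m G H X Y T)
    {p : ℕ} {a : WA} (hp : T p = .inp a) : p ≠ G := by
  rintro rfl
  rw [h.fG] at hp
  cases hp

theorem st_step {m G H : ℕ} (hm : 1 ≤ m) {X Y : ℕ → Bool} {T : ℕ → Sym WA Unit}
    (h : TF m G H X Y T) {q q' : WQ} {p : ℕ} {x : WA ⊕ Unit} {d : Bool}
    (hst : St m G H X Y q p) (htr : ktr1 m q (T p) = some (q', x, d)) :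
    St m G H X Y q' (if d = true then p + 1 else p - 1) := by
  have hGH := h.hGH
  generalize hs : T p = s at htr
  cases q with
  | scan => exact hst.elim
  | mid =>
    obtain ⟨h1, h2⟩ := hst
    cases s with
    | inp a =>
      cases a with
      | b c =>
        have := h.ne_H hs (by simp)
        simp only [ktr1, Option.some.injEq, Prod.mk.injEq] at htr
        obtain ⟨rfl, rfl, rfl⟩ := htr
        simp only [St, if_true]
        omega
      | s =>
        have := h.ne_H hs (by simp)
        simp only [ktr1, Option.some.injEq, Prod.mk.injEq] at htr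
        obtain ⟨rfl, rfl, rfl⟩ := htr
        simp only [St, if_true]
        omega
      | h =>
        have := h.fh p hs
        simp only [ktr1, Option.some.injEq, Prod.mk.injEq] at htr
        obtain ⟨rfl, rfl, rfl⟩ := htr
        simp only [St, if_true]
        exact ⟨0, le_rfl, by omega, by omega, fun u hu => absurd hu (Nat.not_lt_zero _)⟩
    | wrk u => simp [ktr1] at htr
    | lend => simp [ktr1] at htr
    | rend => simp [ktr1] at htr
  | yo i =>
    obtain ⟨t, h1, h2, h3, h4⟩ := hst
    cases s with
    | inp a =>
      cases a with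
      | b c =>
        cases i with
        | zero =>
          have hy := h.fy t h2
          have e : H + 1 + t = p := by omega
          rw [e, hs] at hy
          have hc : c = Y t := by
            have := Sym.inp.inj hy
            exact WA.b.inj this
          simp only [ktr1, Option.some.injEq, Prod.mk.injEq] at htr
          obtain ⟨rfl, rfl, rfl⟩ := htr
          simp only [St, Bool.false_eq_true, if_false]
          exact ⟨t, h2, Nat.zero_le _, by omega, hc, h4⟩
        | succ i =>
          simp only [ktr1, Option.some.injEq, Prod.mk.injEq] at htr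
          obtain ⟨rfl, rfl, rfl⟩ := htr
          simp only [St, if_true]
          exact ⟨t, by omega, h2, by omega, h4⟩
      | s => cases i <;> simp [ktr1] at htr
      | h => cases i <;> simp [ktr1] at htr
    | wrk u => cases i <;> simp [ktr1] at htr
    | lend => cases i <;> simp [ktr1] at htr
    | rend => cases i <;> simp [ktr1] at htr
  | yb c i =>
    obtain ⟨t, h1, h2, h3, h4, h5⟩ := hst
    cases s with
    | inp a =>
      cases a with
      | b c' =>
        have := h.ne_H hs (by simp)
        simp only [ktr1] at htr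
        split_ifs at htr with hi
        simp only [Option.some.injEq, Prod.mk.injEq] at htr
        obtain ⟨rfl, rfl, rfl⟩ := htr
        simp only [St, Bool.false_eq_true, if_false]
        exact ⟨t, h1, by omega, by omega, h4, h5⟩
      | s => simp [ktr1] at htr
      | h =>
        have := h.fh p hs
        simp only [ktr1, Option.some.injEq, Prod.mk.injEq] at htr
        obtain ⟨rfl, rfl, rfl⟩ := htr
        have e : t = i := by omega
        subst e
        simp only [St, Bool.false_eq_true, if_false]
        exact ⟨h1, by omega, by omega, h4, h5⟩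
    | wrk u => simp [ktr1] at htr
    | lend => simp [ktr1] at htr
    | rend => simp [ktr1] at htr
  | lf c i =>
    obtain ⟨h1, h2, h3, h4, h5⟩ := hst
    cases s with
    | inp a =>
      have := h.ne_G hs
      simp only [ktr1, Option.some.injEq, Prod.mk.injEq] at htr
      obtain ⟨rfl, rfl, rfl⟩ := htr
      simp only [St, Bool.false_eq_true, if_false]
      exact ⟨h1, by omega, by omega, h4, h5⟩
    | wrk u =>
      have := h.fw p u hs
      simp only [ktr1, Option.some.injEq, Prod.mk.injEq] at htr
      obtain ⟨rfl, rfl, rfl⟩ := htr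
      simp only [St, if_true]
      exact ⟨i, le_rfl, h1, by omega, h4, h5⟩
    | lend => simp [ktr1] at htr
    | rend => simp [ktr1] at htr
  | xo c i =>
    obtain ⟨t, h1, h2, h3, h4, h5⟩ := hst
    cases s with
    | inp a =>
      cases a with
      | b c' =>
        cases i with
        | zero =>
          have hx := h.fx t h2
          have e : G + 1 + t = p := by omega
          rw [e, hs] at hx
          have hc : c' = X t := by
            have := Sym.inp.inj hx
            exact WA.b.inj this
          simp only [ktr1] at htr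
          split_ifs at htr with hcc
          simp only [Option.some.injEq, Prod.mk.injEq] at htr
          obtain ⟨rfl, rfl, rfl⟩ := htr
          simp only [St, Bool.false_eq_true, if_false]
          refine ⟨t, Nat.zero_le _, h2, by omega, ?_⟩
          intro u hu
          rcases Nat.lt_succ_iff_lt_or_eq.1 hu with hu' | hu'
          · exact h5 u hu'
          · subst hu'
            rw [← hc, ← h4, hcc]
        | succ i =>
          simp only [ktr1, Option.some.injEq, Prod.mk.injEq] at htr
          obtain ⟨rfl, rfl, rfl⟩ := htr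
          simp only [St, if_true]
          exact ⟨t, by omega, h2, by omega, h4, h5⟩
      | s => cases i <;> simp [ktr1] at htr
      | h => cases i <;> simp [ktr1] at htr
    | wrk u => cases i <;> simp [ktr1] at htr
    | lend => cases i <;> simp [ktr1] at htr
    | rend => cases i <;> simp [ktr1] at htr
  | xb i =>
    obtain ⟨t, h1, h2, h3, h4⟩ := hst
    cases s with
    | inp a =>
      cases a with
      | b c' =>
        have := h.ne_G hs
        simp only [ktr1] at htr
        split_ifs at htr with hi
        simp only [Option.some.injEq, Prod.mk.injEq] at htr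
        obtain ⟨rfl, rfl, rfl⟩ := htr
        simp only [St, Bool.false_eq_true, if_false]
        exact ⟨t, by omega, h2, by omega, h4⟩
      | s => simp [ktr1] at htr
      | h => simp [ktr1] at htr
    | wrk u =>
      have := h.fw p u hs
      simp only [ktr1, Option.some.injEq, Prod.mk.injEq] at htr
      obtain ⟨rfl, rfl, rfl⟩ := htr
      have e : t = i := by omega
      subst e
      simp only [St, if_true]
      exact ⟨by omega, by omega, by omega, by omega, h4⟩
    | lend => simp [ktr1] at htr
    | rend => simp [ktr1] at htr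
  | rt i =>
    obtain ⟨h1, h2, h3, h4, h5⟩ := hst
    cases s with
    | inp a =>
      cases a with
      | b c =>
        have := h.ne_H hs (by simp)
        simp only [ktr1, Option.some.injEq, Prod.mk.injEq] at htr
        obtain ⟨rfl, rfl, rfl⟩ := htr
        simp only [St, if_true]
        exact ⟨h1, h2, by omega, by omega, h5⟩
      | s =>
        have := h.ne_H hs (by simp)
        simp only [ktr1, Option.some.injEq, Prod.mk.injEq] at htr
        obtain ⟨rfl, rfl, rfl⟩ := htr
        simp only [St, if_true]
        exact ⟨h1, h2, by omega, by omega, h5⟩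
      | h =>
        have := h.fh p hs
        simp only [ktr1] at htr
        split_ifs at htr with hi
        · simp only [Option.some.injEq, Prod.mk.injEq] at htr
          obtain ⟨rfl, rfl, rfl⟩ := htr
          simp only [St, if_true]
          exact ⟨i, le_rfl, hi, by omega, h5⟩
        · simp only [Option.some.injEq, Prod.mk.injEq] at htr
          obtain ⟨rfl, rfl, rfl⟩ := htr
          have e : i = m := by omega
          subst e
          simp only [St, if_true]
          exact ⟨by omega, h5⟩
    | wrk u => simp [ktr1] at htr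
    | lend => simp [ktr1] at htr
    | rend => simp [ktr1] at htr
  | fin =>
    obtain ⟨h1, h2⟩ := hst
    cases s with
    | inp a =>
      cases a with
      | b c =>
        simp only [ktr1, Option.some.injEq, Prod.mk.injEq] at htr
        obtain ⟨rfl, rfl, rfl⟩ := htr
        simp only [St, if_true]
        exact ⟨by omega, h2⟩
      | s => simp [ktr1] at htr
      | h => simp [ktr1] at htr
    | wrk u => simp [ktr1] at htr
    | lend => simp [ktr1] at htr
    | rend =>
      simp only [ktr1, Option.some.injEq, Prod.mk.injEq] at htr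
      obtain ⟨rfl, rfl, rfl⟩ := htr
      simp only [St, if_true]
      exact ⟨by omega, h2⟩

/-- the first choices write the symbol they read -/
theorem ktr1_wr {m : ℕ} {q q' : WQ} {s : Sym WA Unit} {x : WA ⊕ Unit} {d : Bool}
    (htr : ktr1 m q s = some (q', x, d)) (hs : s ≠ .rend) : Sym.ofW x = s := by
  unfold ktr1 at htr
  split at htr
  all_goals first
    | (simp only [Option.some.injEq, Prod.mk.injEq] at htr
       obtain ⟨-, rfl, -⟩ := htr
       first | rfl | exact absurd rfl hs)
    | (split_ifs at htr
       all_goals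
         simp only [Option.some.injEq, Prod.mk.injEq] at htr
         obtain ⟨-, rfl, -⟩ := htr
         rfl)
    | simp at htr

/-! ### The test words -/

theorem wX_length (m : ℕ) (Xs : List (List Bool)) (hX : ∀ x ∈ Xs, x.length = m) :
    (wX Xs).length = Xs.length * (m + 1) := by
  induction Xs with
  | nil => simp [wX]
  | cons x Xs ih =>
    have h1 := ih (fun z hz => hX z (List.mem_cons_of_mem _ hz))
    have h2 : x.length = m := hX x List.mem_cons_self
    have e : wX (x :: Xs) = (WA.s :: x.map WA.b) ++ wX Xs := by simp [wX]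
    rw [e, List.length_append, h1, List.length_cons, List.length_cons, List.length_map, h2]
    ring

theorem wX_get (m : ℕ) (Xs : List (List Bool)) (hX : ∀ x ∈ Xs, x.length = m) :
    ∀ j < Xs.length, (wX Xs)[j * (m + 1)]? = some WA.s ∧
      ∀ t < m, (wX Xs)[j * (m + 1) + 1 + t]? =
        some (WA.b ((Xs.getD j []).getD t false)) := by
  induction Xs with
  | nil => intro j hj; simp at hj
  | cons x Xs ih =>
    have h1 := ih (fun z hz => hX z (List.mem_cons_of_mem _ hz))
    have h2 : x.length = m := hX x List.mem_cons_self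
    have e : wX (x :: Xs) = (WA.s :: x.map WA.b) ++ wX Xs := by simp [wX]
    have hl : (WA.s :: x.map WA.b).length = m + 1 := by simp [h2]
    intro j hj
    rw [e]
    cases j with
    | zero =>
      refine ⟨by simp, fun t ht => ?_⟩
      have e2 : 0 * (m + 1) + 1 + t = t + 1 := by ring
      rw [e2, List.getElem?_append_left (by rw [hl]; omega), List.getElem?_cons_succ,
        List.getElem?_map, List.getElem?_eq_getElem (by omega)]
      simp [List.getD, List.getElem?_eq_getElem (show t < x.length by omega)]
    | succ j =>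
      have hj' : j < Xs.length := by simpa using hj
      obtain ⟨h3, h4⟩ := h1 j hj'
      have e3 : (j + 1) * (m + 1) - (m + 1) = j * (m + 1) := by
        rw [Nat.succ_mul]; omega
      constructor
      · rw [List.getElem?_append_right (by rw [hl, Nat.succ_mul]; omega), hl, e3]
        exact h3
      · intro t ht
        rw [List.getElem?_append_right (by rw [hl, Nat.succ_mul]; omega), hl]
        have e4 : (j + 1) * (m + 1) + 1 + t - (m + 1) = j * (m + 1) + 1 + t := by
          rw [Nat.succ_mul]; omega
        rw [e4]
        exact h4 t ht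

/-- the layout of the input -/
structure Lay (m r : ℕ) (X : ℕ → ℕ → Bool) (Y : ℕ → Bool) (w : List WA) : Prop where
  hs : ∀ j < r, w[j * (m + 1)]? = some WA.s
  hx : ∀ j < r, ∀ t < m, w[j * (m + 1) + 1 + t]? = some (WA.b (X j t))
  hh : w[r * (m + 1)]? = some WA.h
  hy : ∀ t < m, w[r * (m + 1) + 1 + t]? = some (WA.b (Y t))
  hl : w.length = r * (m + 1) + 1 + m

theorem lay (m : ℕ) (Xs : List (List Bool)) (hX : ∀ x ∈ Xs, x.length = m) (y : List Bool)
    (hy : y.length = m) : Lay m Xs.length (fun j t => (Xs.getD j []).getD t false)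
      (fun t => y.getD t false) (wX Xs ++ wY y) := by
  have hl := wX_length m Xs hX
  have hg := wX_get m Xs hX
  have hlt : ∀ j < Xs.length, ∀ u < m + 1, j * (m + 1) + u < Xs.length * (m + 1) := by
    intro j hj u hu
    have h1 : (j + 1) * (m + 1) ≤ Xs.length * (m + 1) := Nat.mul_le_mul_right _ hj
    rw [Nat.succ_mul] at h1
    omega
  refine ⟨?_, ?_, ?_, ?_, ?_⟩
  · intro j hj
    have := hlt j hj 0 (by omega)
    rw [List.getElem?_append_left (by rw [hl]; simpa using this)]
    exact (hg j hj).1
  · intro j hj t ht
    have := hlt j hj (1 + t) (by omega)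
    rw [List.getElem?_append_left (by rw [hl]; omega)]
    exact (hg j hj).2 t ht
  · rw [List.getElem?_append_right (by rw [hl]), hl, Nat.sub_self]
    simp [wY]
  · intro t ht
    rw [List.getElem?_append_right (by rw [hl]; omega), hl]
    have e : Xs.length * (m + 1) + 1 + t - Xs.length * (m + 1) = t + 1 := by omega
    rw [e, wY, List.getElem?_cons_succ, List.getElem?_map,
      List.getElem?_eq_getElem (by omega)]
    simp [List.getD, List.getElem?_eq_getElem (show t < y.length by omega)]
  · rw [List.length_append, hl, wY, List.length_cons, List.length_map, hy]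
    ring

variable {m r : ℕ} {X : ℕ → ℕ → Bool} {Y : ℕ → Bool} {w : List WA}

theorem initTape_succ (w : List WA) (i : ℕ) (a : WA) (h : w[i]? = some a) :
    (km m).initTape w (i + 1) = .inp a := by
  simp [Mach.initTape, h]

/-- what stands at a position -/
theorem Lay.cases (hL : Lay m r X Y w) (p : ℕ) :
    p = 0 ∨ (∃ j < r, p = j * (m + 1) + 1) ∨ (∃ j < r, ∃ t < m, p = j * (m + 1) + 1 + 1 + t) ∨
      p = r * (m + 1) + 1 ∨ (∃ t < m, p = r * (m + 1) + 1 + 1 + t) ∨ w.length < p := by
  rcases Nat.eq_zero_or_pos p with h0 | h0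
  · exact Or.inl h0
  right
  rcases Nat.lt_or_ge (p - 1) (r * (m + 1)) with h1 | h1
  · have hj : (p - 1) / (m + 1) < r := by
      rw [Nat.div_lt_iff_lt_mul (by omega)]; exact h1
    have hdm := Nat.div_add_mod (p - 1) (m + 1)
    rw [Nat.mul_comm] at hdm
    have hmod : (p - 1) % (m + 1) < m + 1 := Nat.mod_lt _ (by omega)
    rcases Nat.eq_zero_or_pos ((p - 1) % (m + 1)) with h2 | h2
    · left
      exact ⟨_, hj, by omega⟩
    · right; left
      exact ⟨_, hj, (p - 1) % (m + 1) - 1, by omega, by omega⟩
  · right; right
    rcases Nat.eq_or_lt_of_le h1 with h2 | h2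
    · left; omega
    · right
      have := hL.hl
      rcases Nat.lt_or_ge w.length p with h3 | h3
      · exact Or.inr h3
      · left
        exact ⟨p - (r * (m + 1) + 1 + 1), by omega, by omega⟩

theorem initTape_zero : (km m).initTape w 0 = .lend := by simp [Mach.initTape]

theorem initTape_end (p : ℕ) (h : w.length < p) : (km m).initTape w p = .rend := by
  have h0 : p ≠ 0 := by omega
  have h1 : w[p - 1]? = none := List.getElem?_eq_none (by omega)
  simp [Mach.initTape, h0, h1]

theorem Lay.at_s (hL : Lay m r X Y w) {j : ℕ} (hj : j < r) :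
    (km m).initTape w (j * (m + 1) + 1) = .inp .s := initTape_succ w _ _ (hL.hs j hj)

theorem Lay.at_x (hL : Lay m r X Y w) {j t : ℕ} (hj : j < r) (ht : t < m) :
    (km m).initTape w (j * (m + 1) + 1 + 1 + t) = .inp (.b (X j t)) := by
  have e : j * (m + 1) + 1 + 1 + t = (j * (m + 1) + 1 + t) + 1 := by ring
  rw [e]
  exact initTape_succ w _ _ (hL.hx j hj t ht)

theorem Lay.at_h (hL : Lay m r X Y w) :
    (km m).initTape w (r * (m + 1) + 1) = .inp .h := initTape_succ w _ _ hL.hh

theorem Lay.at_y (hL : Lay m r X Y w) {t : ℕ} (ht : t < m) :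
    (km m).initTape w (r * (m + 1) + 1 + 1 + t) = .inp (.b (Y t)) := by
  have e : r * (m + 1) + 1 + 1 + t = (r * (m + 1) + 1 + t) + 1 := by ring
  rw [e]
  exact initTape_succ w _ _ (hL.hy t ht)

theorem Lay.is_h (hL : Lay m r X Y w) {p : ℕ} (h : (km m).initTape w p = .inp .h) :
    p = r * (m + 1) + 1 := by
  rcases hL.cases p with h1 | ⟨j, hj, h1⟩ | ⟨j, hj, t, ht, h1⟩ | h1 | ⟨t, ht, h1⟩ | h1
  · rw [h1, initTape_zero] at h; cases h
  · rw [h1, hL.at_s hj] at h; cases h
  · rw [h1, hL.at_x hj ht] at h; cases h
  · exact h1
  · rw [h1, hL.at_y ht] at h; cases h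
  · rw [initTape_end p h1] at h; cases h

theorem Lay.is_s (hL : Lay m r X Y w) {p : ℕ} (h : (km m).initTape w p = .inp .s) :
    ∃ j < r, p = j * (m + 1) + 1 := by
  rcases hL.cases p with h1 | ⟨j, hj, h1⟩ | ⟨j, hj, t, ht, h1⟩ | h1 | ⟨t, ht, h1⟩ | h1
  · rw [h1, initTape_zero] at h; cases h
  · exact ⟨j, hj, h1⟩
  · rw [h1, hL.at_x hj ht] at h; cases h
  · rw [h1, hL.at_h] at h; cases h
  · rw [h1, hL.at_y ht] at h; cases h
  · rw [initTape_end p h1] at h; cases h

theorem Lay.no_w (p : ℕ) (u : Unit) : (km m).initTape w p ≠ .wrk u := by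
  unfold Mach.initTape
  split_ifs
  · simp
  · split <;> simp

theorem Lay.blk_lt {j : ℕ} (hj : j < r) : j * (m + 1) + 1 + m < r * (m + 1) + 1 := by
  have h1 : (j + 1) * (m + 1) ≤ r * (m + 1) := Nat.mul_le_mul_right _ hj
  rw [Nat.succ_mul] at h1
  omega

theorem Lay.tf (hL : Lay m r X Y w) {j : ℕ} (hj : j < r) :
    TF m (j * (m + 1) + 1) (r * (m + 1) + 1) (X j) Y
      (Function.update ((km m).initTape w) (j * (m + 1) + 1) (.wrk ())) := by
  have hb := Lay.blk_lt (m := m) hj
  refine ⟨by omega, ?_, ?_, ?_, ?_, ?_, ?_⟩
  · rw [Function.update_of_ne (by omega)]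
    exact hL.at_h
  · rw [Function.update_self]
  · intro t ht
    rw [Function.update_of_ne (by omega)]
    exact hL.at_x hj ht
  · intro t ht
    rw [Function.update_of_ne (by omega)]
    exact hL.at_y ht
  · intro p hp
    by_cases h1 : p = j * (m + 1) + 1
    · rw [h1, Function.update_self] at hp; cases hp
    · rw [Function.update_of_ne h1] at hp
      exact hL.is_h hp
  · intro p u hp
    by_contra h1
    rw [Function.update_of_ne h1] at hp
    exact Lay.no_w p u hp

/-- the invariant -/
def Inv (m r : ℕ) (X : ℕ → ℕ → Bool) (Y : ℕ → Bool) (w : List WA) (c : (km m).Cfg) : Prop :=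
  (c.st = WQ.scan ∧ c.tape = (km m).initTape w ∧ 1 ≤ c.pos ∧ c.pos ≤ r * (m + 1) + 1 ∧
    ∀ i ∈ c.seen, i < c.pos) ∨
  ∃ j < r, c.tape = Function.update ((km m).initTape w) (j * (m + 1) + 1) (.wrk ()) ∧
    j * (m + 1) + 1 ∈ c.seen ∧ St m (j * (m + 1) + 1) (r * (m + 1) + 1) (X j) Y c.st c.pos

theorem inv_step (hm : 1 ≤ m) {cv : Bool} (hL : Lay m r X Y w) {c c' : (km m).Cfg}
    (hI : Inv m r X Y w c) (hs : (km m).Step cv w.length c c') : Inv m r X Y w c' := by
  obtain ⟨hle, x, d, hδ, h0, hp, hw, hnw, hseen⟩ := hs
  obtain ⟨q, pos, tape, seen⟩ := c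
  obtain ⟨q', pos', tape', seen'⟩ := c'
  simp only at hle hδ h0 hp hw hnw hseen
  have hδ' : ktr1 m q (tape pos) = some (q', x, d) ∨ ktr2 q (tape pos) = some (q', x, d) := hδ
  have hlen := hL.hl
  rcases hI with ⟨h1, h2, h3, h4, h5⟩ | ⟨j, hj, h1, h2, h3⟩
  · simp only at h1 h2 h3 h4 h5
    subst h1
    have hfresh : pos ∉ seen := fun h => lt_irrefl _ (h5 pos h)
    have ht' := hw ⟨h3, by omega, hfresh⟩
    rcases hδ' with h | h
    · left
      have hx : Sym.ofW x = tape pos := by
        apply ktr1_wr h
        intro he
        rw [he] at h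
        simp [ktr1] at h
      rw [hx, Function.update_eq_self] at ht'
      have hne : pos ≠ r * (m + 1) + 1 := by
        rintro rfl
        rw [h2, hL.at_h] at h
        simp [ktr1] at h
      have hqd : q' = WQ.scan ∧ d = true := by
        generalize tape pos = s at h
        cases s with
        | inp a => cases a <;> simp [ktr1] at h <;> exact ⟨h.1.symm, h.2.2⟩
        | wrk u => simp [ktr1] at h
        | lend => simp [ktr1] at h
        | rend => simp [ktr1] at h
      obtain ⟨rfl, rfl⟩ := hqd
      rw [if_pos rfl] at hp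
      refine ⟨rfl, by simp only; rw [ht', h2], by simp only; omega, by simp only; omega, ?_⟩
      intro i hi
      simp only at hi ⊢
      rw [hseen] at hi
      rcases hi with hi | hi
      · omega
      · have := h5 i hi; omega
    · right
      have hts : tape pos = .inp .s := by
        generalize tape pos = s at h
        cases s with
        | inp a => cases a <;> simp [ktr2] at h; rfl
        | wrk u => simp [ktr2] at h
        | lend => simp [ktr2] at h
        | rend => simp [ktr2] at h
      rw [hts] at h
      simp only [ktr2, Option.some.injEq, Prod.mk.injEq] at h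
      obtain ⟨rfl, rfl, rfl⟩ := h
      rw [h2] at hts
      obtain ⟨j, hj, hpj⟩ := hL.is_s hts
      have hb := Lay.blk_lt (m := m) hj
      refine ⟨j, hj, ?_, ?_, ?_⟩
      · simp only
        rw [ht', h2, hpj]
        rfl
      · simp only
        rw [hseen, ← hpj]
        exact Or.inl rfl
      · simp only [St]
        rw [if_pos rfl] at hp
        omega
  · simp only at h1 h2 h3
    right
    have hq : q ≠ WQ.scan := by
      rintro rfl
      exact h3
    rcases hδ' with h | h
    · have hstep := st_step hm (hL.tf hj) h3 (by rw [← h1]; exact h)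
      have htape : tape' = tape := by
        by_cases hc : 1 ≤ pos ∧ pos ≤ w.length ∧ pos ∉ seen
        · rw [hw hc]
          have hx : Sym.ofW x = tape pos := by
            apply ktr1_wr h
            intro he
            have hne : pos ≠ j * (m + 1) + 1 := by
              rintro rfl
              exact hc.2.2 h2
            rw [h1, Function.update_of_ne hne] at he
            rcases hL.cases pos with h1 | ⟨j, hj, h1⟩ | ⟨j, hj, t, ht, h1⟩ | h1 | ⟨t, ht, h1⟩ | h1
            · omega
            · rw [h1, hL.at_s hj] at he; cases he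
            · rw [h1, hL.at_x hj ht] at he; cases he
            · rw [h1, hL.at_h] at he; cases he
            · rw [h1, hL.at_y ht] at he; cases he
            · omega
          rw [hx, Function.update_eq_self]
        · exact (hnw hc).1
      refine ⟨j, hj, ?_, ?_, ?_⟩
      · simp only
        rw [htape, h1]
      · simp only
        rw [hseen]
        exact Or.inr h2
      · simp only
        rw [hp]
        exact hstep
    · exfalso
      cases q <;> first | exact hq rfl | simp [ktr2] at h

end WitB1Aux

theorem km_sound (m : ℕ) (hm : 1 ≤ m) (cv : Bool) (Xs : List (List Bool))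
    (hX : ∀ x ∈ Xs, x.length = m) (y : List Bool) (hy : y.length = m)
    (h : wX Xs ++ wY y ∈ (km m).lang cv) : y ∈ Xs := by
  have hL := WitB1Aux.lay m Xs hX y hy
  obtain ⟨c, hr, hpos, hF⟩ := h
  have hI : WitB1Aux.Inv m Xs.length (fun j t => (Xs.getD j []).getD t false)
      (fun t => y.getD t false) (wX Xs ++ wY y) c := by
    clear hpos hF
    induction hr with
    | refl =>
      left
      exact ⟨rfl, rfl, le_rfl, by simp [Mach.init], fun i hi => hi.elim⟩
    | tail _ hs ih => exact WitB1Aux.inv_step hm hL ih hs
  have hq : c.st = WQ.fin := hF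
  rcases hI with ⟨h1, _⟩ | ⟨j, hj, _, _, h3⟩
  · rw [hq] at h1
    cases h1
  · rw [hq] at h3
    obtain ⟨_, hag⟩ := h3
    have hxj : Xs.getD j [] = Xs[j] := by
      simp [List.getD, List.getElem?_eq_getElem hj]
    have hlen : (Xs[j]).length = m := hX _ (List.getElem_mem hj)
    have : Xs[j] = y := by
      apply List.ext_getElem (by rw [hlen, hy])
      intro t ht1 ht2
      have := hag t (by omega)
      simp only [hxj] at this
      simpa [List.getD, List.getElem?_eq_getElem ht1, List.getElem?_eq_getElem ht2] using this
    rw [← this]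
    exact List.getElem_mem hj

end Pool.Agent.P0036f5k
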